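import Pool.Agent.H865_small.Glob

/-!
# Smoothing of continuous maps, with control
-/

set_option autoImplicit false

open Set Filter Topology Metric Function MeasureTheory
open scoped Manifold ContDiff

noncomputable section

namespace Pool.Agent.H865_small

open Pool.Agent.Y522 (LD)

/-- a local homeomorphism of a compact connected space to a simply connected space is bijective -/
theorem bij_of_local {M P : Type} [TopologicalSpace M] [CompactSpace M] [T2Space M] [ConnectedSpace M]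
    [TopologicalSpace P] [T2Space P] [SimplyConnectedSpace P] [LocallyPathConnectedSpace P] {G : M → P}
    (hG : IsLocalHomeomorph G) : Bijective G := by
  have cov : IsCoveringMap G := isLocalHomeomorph_iff_isCoveringMap.1 hG
  obtain ⟨m0⟩ : Nonempty M := inferInstance
  obtain ⟨σ, ⟨h0, h1⟩, -⟩ := cov.existsUnique_continuousMap_lifts (ContinuousMap.id P) (G m0) m0 rfl
  have h2 : (fun x => σ (G x)) = fun x => x := by
    refine cov.eq_of_comp_eq (σ.continuous.comp hG.continuous) continuous_id ?_ m0 h0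
    funext x
    exact congrFun h1 (G x)
  refine ⟨fun a b hab => ?_, fun p => ⟨σ p, congrFun h1 p⟩⟩
  have h3 := congrFun h2 a
  have h4 := congrFun h2 b
  rw [← h3, ← h4, hab]

section

variable {n m : ℕ} {ρ : ℝ} {X : Type} [TopologicalSpace X] {β : E n → ℝ} {e : X → E m} {F : X → E n}

theorem Gs_close {ι : Type} [Fintype ι] (h1 : ρ ^ 2 < 1) (hβ : Continuous β) (hβ0 : ∀ z, 0 ≤ β z)
    (hβs : ∀ z, 1 < ‖z‖ → β z = 0)
    {q : ι → E n → E m} {g : ι → E n → E n} (hq : ∀ i, Continuous (q i)) (hg : ∀ i, Continuous (g i))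
    {s : ℝ} (hs : 0 < s) {p : E m} (hZ : 0 < Zs ρ β q s p) {c : E n} {ε : ℝ}
    (hc : ∀ i z, ‖z‖ ≤ 1 → ‖q i z - p‖ ≤ s → ‖g i z - c‖ ≤ ε) : ‖Gs ρ β q g s p - c‖ ≤ ε := by
  have hsupp := bump_supp hβs
  have hk : ∀ i, Continuous fun z => β z * kf ρ s (q i z - p) := by
    intro i
    have hw : Continuous fun z => q i z - p := (hq i).sub continuous_const
    exact hβ.mul ((kf_cont s).comp hw)
  have hks : ∀ i, HasCompactSupport fun z => β z * kf ρ s (q i z - p) := fun i => hsupp.mul_right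
  have hint : ∀ i, Integrable fun z => β z * kf ρ s (q i z - p) := fun i =>
    (hk i).integrable_of_hasCompactSupport (hks i)
  have hint2 : ∀ i, Integrable fun z => (β z * kf ρ s (q i z - p)) • g i z := fun i =>
    ((hk i).smul (hg i)).integrable_of_hasCompactSupport (hks i).smul_right
  have e1 : Ns ρ β q g s p - Zs ρ β q s p • c = ∑ i, ∫ z, (β z * kf ρ s (q i z - p)) • (g i z - c) := by
    unfold Ns Zs
    rw [Finset.sum_smul, ← Finset.sum_sub_distrib]
    refine Finset.sum_congr rfl fun i _ => ?_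
    rw [← integral_smul_const, ← integral_sub (hint2 i) ((hint i).smul_const c)]
    congr 1
    funext z
    rw [smul_sub]
  have hterm : ∀ i, ‖∫ z, (β z * kf ρ s (q i z - p)) • (g i z - c)‖ ≤ ε * ∫ z, β z * kf ρ s (q i z - p) := by
    intro i
    rw [← integral_const_mul]
    refine norm_integral_le_of_norm_le ((hint i).const_mul _) (Eventually.of_forall fun z => ?_)
    have hkn : 0 ≤ β z * kf ρ s (q i z - p) := mul_nonneg (hβ0 z) (ps_nonneg _)
    rw [norm_smul, Real.norm_eq_abs, abs_of_nonneg hkn]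
    rcases lt_or_ge 1 ‖z‖ with h | h
    · rw [hβs z h]; simp
    rcases le_or_gt ‖q i z - p‖ s with h2 | h2
    · rw [mul_comm]
      exact mul_le_mul_of_nonneg_right (hc i z h h2) hkn
    · have h3 : 1 ≤ ‖q i z - p‖ ^ 2 / s ^ 2 := by
        rw [le_div_iff₀ (by positivity)]
        nlinarith
      have e2 : kf ρ s (q i z - p) = 0 := ps_zero h1 h3
      rw [e2]; simp
  have h3 : ‖Ns ρ β q g s p - Zs ρ β q s p • c‖ ≤ ε * Zs ρ β q s p := by
    rw [e1]
    refine (norm_sum_le _ _).trans ((Finset.sum_le_sum fun i _ => hterm i).trans (le_of_eq ?_))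
    unfold Zs
    rw [Finset.mul_sum]
  have e3 : Gs ρ β q g s p - c = (Zs ρ β q s p)⁻¹ • (Ns ρ β q g s p - Zs ρ β q s p • c) := by
    unfold Gs
    rw [smul_sub, smul_smul, inv_mul_cancel₀ hZ.ne', one_smul]
  rw [e3, norm_smul, norm_inv, Real.norm_eq_abs, abs_of_pos hZ, inv_mul_le_iff₀ hZ, mul_comm]
  exact h3

/-- the points which `e` maps close to a point -/
theorem emb_near' (he : IsEmbedding e) {x : X} {U : Set X}
    (hU : U ∈ 𝓝 x) : ∀ᶠ t : ℝ × X in 𝓝[>] 0 ×ˢ 𝓝 x, ∀ u : X, ‖e u - e t.2‖ ≤ t.1 → u ∈ U := by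
  rw [he.nhds_eq_comap] at hU
  obtain ⟨W, hW, hWU⟩ := Filter.mem_comap.1 hU
  obtain ⟨δ, hδ, hδ2⟩ := Metric.mem_nhds_iff.1 hW
  have h1 : ∀ᶠ y in 𝓝 x, e y ∈ ball (e x) (δ / 2) :=
    he.continuous.continuousAt.eventually (ball_mem_nhds _ (by positivity))
  have h2 : ∀ᶠ s in 𝓝[>] (0 : ℝ), s < δ / 2 :=
    mem_of_superset (Ioo_mem_nhdsGT (show (0 : ℝ) < δ / 2 by positivity)) fun s hs => hs.2
  filter_upwards [(tendsto_fst (f := 𝓝[>] (0 : ℝ)) (g := 𝓝 x)).eventually h2,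
    (tendsto_snd (f := 𝓝[>] (0 : ℝ)) (g := 𝓝 x)).eventually h1] with t ht1 ht2 u hu
  apply hWU
  rw [mem_preimage]
  apply hδ2
  rw [mem_ball, dist_eq_norm] at ht2 ⊢
  have h3 : e u - e x = (e u - e t.2) + (e t.2 - e x) := by abel
  rw [h3]
  refine (norm_add_le _ _).trans_lt ?_
  linarith

variable [ChartedSpace (E n) X]

/-- **Smoothing with control.** -/
theorem sglob2 [T2Space X] [LocallyCompactSpace X] [IsManifold (𝓡 n) ∞ X] (h1 : ρ ^ 2 < 1) {η : ℝ} (hη0 : 0 < η)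
    (hA : Adm n ρ η) (hF : Continuous F) (hFn : ∀ x, ‖F x‖ ≤ 1)
    (he : IsEmbedding e) (hI : ∀ x, Imm (n := n) e x) (hK : IsCompact {x | ¬ LD n F x}) {S : Set ℝ}
    (hS : ∃ᶠ s in 𝓝[>] (0 : ℝ), s ∈ S) (hη2 : ∀ x, ¬ LD n F x → TRec e F S η x)
    {O' : Set X} (hO' : IsOpen O') (hKO : {x | ¬ LD n F x} ⊆ O') {ε : ℝ} (hε : 0 < ε) :
    ∃ (F' : X → E n) (C : Set X), IsCompact C ∧ C ⊆ O' ∧ (∀ p, p ∉ C → F' p = F p) ∧ (∀ x, LD n F' x) ∧
      (∀ x, ‖F' x‖ ≤ 1) ∧ ∀ x, ‖F' x - F x‖ < ε := by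
  obtain ⟨β, hβe⟩ : ∃ β : E n → ℝ, β = fun z => max 0 (1 - ‖z‖) := ⟨_, rfl⟩
  have hβ : Continuous β := by rw [hβe]; fun_prop
  have hβ0 : ∀ z, 0 ≤ β z := fun z => by rw [hβe]; exact le_max_left _ _
  have hβs : ∀ z, 1 < ‖z‖ → β z = 0 := fun z hz => by rw [hβe]; exact max_eq_left (by linarith)
  have hβp : ∀ z, ‖z‖ < 1 → 0 < β z := fun z hz => by
    rw [hβe]; exact lt_max_of_lt_right (by linarith)
  -- the charts
  choose Bx hBx0 hBxi hBxl using fun x : X => exists_chartB (n := n) x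
  have hBo : ∀ x, IsOpen (Bx x '' ball 0 1) := fun x =>
    Pool.Agent.Y522.isOpen_image_of_LD isOpen_ball fun z _ => hBxl x z
  obtain ⟨t, htK⟩ := hK.elim_finite_subcover (fun x => Bx x '' ball 0 1) hBo (by
    intro x _
    exact mem_iUnion.2 ⟨x, 0, by simp, hBx0 x⟩)
  obtain ⟨B, hBe⟩ : ∃ B : t → E n → X, B = fun i : t => Bx i.1 := ⟨_, rfl⟩
  have hBi : ∀ i, Injective (B i) := fun i => by rw [hBe]; exact hBxi _
  have hBl : ∀ i z, LD n (B i) z := fun i z => by rw [hBe]; exact hBxl _ z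
  have hBc : ∀ i, Continuous (B i) := fun i => continuous_iff_continuousAt.2 fun z => (hBl i z).continuousAt
  obtain ⟨W, hW⟩ : ∃ W, W = ⋃ i : t, B i '' ball 0 1 := ⟨_, rfl⟩
  have hWo : IsOpen W := by
    rw [hW]
    exact isOpen_iUnion fun i => by rw [hBe]; exact hBo _
  have hKW : {x | ¬ LD n F x} ⊆ W := by
    intro x hx
    obtain ⟨y, hy⟩ := mem_iUnion.1 (htK hx)
    obtain ⟨hyt, hy⟩ := mem_iUnion.1 hy
    rw [hW]
    exact mem_iUnion.2 ⟨⟨y, hyt⟩, by rw [hBe]; exact hy⟩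
  have hWp : ∀ x ∈ W, ∃ (i : t) (ζ : E n), ‖ζ‖ < 1 ∧ B i ζ = x := by
    intro x hx
    rw [hW] at hx
    obtain ⟨i, ζ, hζ, hx⟩ := mem_iUnion.1 hx
    exact ⟨i, ζ, by rwa [mem_ball_zero_iff] at hζ, hx⟩
  obtain ⟨L, hL, hKL, hLWO⟩ := exists_compact_between hK (hWo.inter hO') (subset_inter hKW hKO)
  have hLW : L ⊆ W := hLWO.trans inter_subset_left
  have hZ : ∀ x ∈ W, ∀ s : ℝ, 0 < Zs ρ β (fun i z => e (B i z)) s (e x) := by
    intro x hx s
    obtain ⟨i0, ζ, hζ, rfl⟩ := hWp x hx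
    exact Zs_pos (q := fun i z => e (B i z)) h1 hβ hβ0 hβs hβp (fun i => he.continuous.comp (hBc i)) i0 hζ
  obtain ⟨O, hO, hOL⟩ := he.toIsInducing.isOpen_iff.1 (isOpen_interior (s := L))
  obtain ⟨Λ, hΛ1, hΛ2, hΛ3⟩ := exists_contMDiffMap_one_nhds_of_subset_interior (n := ⊤) 𝓘(ℝ, E m) (s := e '' {x | ¬ LD n F x})
    (t := O) (hK.image he.continuous).isClosed (by
      rw [hO.interior_eq]
      rintro _ ⟨x, hx, rfl⟩
      have := hKL hx
      rw [← hOL] at this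
      exact this)
  have hΛs : ContDiff ℝ ∞ Λ := Λ.contMDiff.contDiff
  -- the local statement
  have hloc : ∀ x ∈ L, {p : ℝ × X | (p.1 ∈ S → LD n (Fp ρ β e F B Λ p.1) p.2) ∧
      ‖Gs ρ β (fun i z => e (B i z)) (fun i z => F (B i z)) p.1 (e p.2) - F p.2‖ < ε} ∈ 𝓝[>] (0 : ℝ) ×ˢ 𝓝 x := by
    intro x hx
    have hclose : ∀ᶠ t : ℝ × X in 𝓝[>] (0 : ℝ) ×ˢ 𝓝 x,
        ‖Gs ρ β (fun i z => e (B i z)) (fun i z => F (B i z)) t.1 (e t.2) - F t.2‖ < ε := by
      have hU : {y | ‖F y - F x‖ < ε / 3} ∈ 𝓝 x := by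
        have h2 : Tendsto (fun y => ‖F y - F x‖) (𝓝 x) (𝓝 ‖F x - F x‖) :=
          (hF.sub continuous_const).norm.tendsto x
        rw [sub_self, norm_zero] at h2
        exact h2.eventually (gt_mem_nhds (by positivity))
      have hW' : ∀ᶠ y in 𝓝 x, y ∈ W := hWo.mem_nhds (hLW hx)
      have hpos : ∀ᶠ t : ℝ × X in 𝓝[>] (0 : ℝ) ×ˢ 𝓝 x, 0 < t.1 :=
        (tendsto_fst (f := 𝓝[>] (0 : ℝ)) (g := 𝓝 x)).eventually self_mem_nhdsWithin
      filter_upwards [emb_near' he hU, (tendsto_snd (f := 𝓝[>] (0 : ℝ)) (g := 𝓝 x)).eventually hU,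
        (tendsto_snd (f := 𝓝[>] (0 : ℝ)) (g := 𝓝 x)).eventually hW', hpos] with t ht1 ht2 ht3 ht4
      have h3 : ‖Gs ρ β (fun i z => e (B i z)) (fun i z => F (B i z)) t.1 (e t.2) - F t.2‖ ≤ 2 * ε / 3 := by
        refine Gs_close (g := fun i z => F (B i z)) h1 hβ hβ0 hβs (fun i => he.continuous.comp (hBc i))
          (fun i => hF.comp (hBc i)) ht4 (hZ _ ht3 _) fun i z _ hz => ?_
        have h4 : ‖F (B i z) - F x‖ < ε / 3 := ht1 _ hz
        have h5 : F (B i z) - F t.2 = (F (B i z) - F x) - (F t.2 - F x) := by abel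
        rw [h5]
        refine (norm_sub_le _ _).trans ?_
        linarith
      linarith
    obtain ⟨i0, ζ, hζ, rfl⟩ := hWp x (hLW hx)
    have h2 : ∀ᶠ t : ℝ × E n in 𝓝[>] 0 ×ˢ 𝓝 ζ, t.1 ∈ S → LD n (Fp ρ β e F B Λ t.1) (B i0 t.2) := by
      by_cases hg : LD n F (B i0 ζ)
      · filter_upwards [local_good h1 hη0 hA hβ hβ0 hβs hβp he hI hF hBi hBl hΛs (fun p => (hΛ3 p).1)
          (fun p => (hΛ3 p).2) i0 hζ hg] with t ht _
        exact ht
      · have h3 := local_bad h1 hA hβ hβ0 hβs hβp he hI hF hBi hBl i0 hζ (hη2 _ hg)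
        have h4 : ∀ᶠ y in 𝓝 (B i0 ζ), Λ (e y) = 1 :=
          he.continuous.continuousAt.eventually
            (Filter.Eventually.filter_mono (nhds_le_nhdsSet (mem_image_of_mem e hg)) hΛ1)
        have h5 : ∀ᶠ z in 𝓝 ζ, ∀ᶠ y in 𝓝 (B i0 z), Λ (e y) = 1 :=
          (hBl i0 ζ).continuousAt.eventually h4.eventually_nhds
        filter_upwards [h3, tendsto_snd.eventually h5] with t ht1 ht2 htS
        refine (ht1 htS).congr ?_
        filter_upwards [ht2] with y hy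
        unfold Fp
        rw [hy, one_smul]
        abel
    obtain ⟨p, hp, hp0, -, hp2⟩ := (hBl i0 ζ).exists_inverse
    have h3 : Tendsto (fun t : ℝ × X => (t.1, p t.2)) (𝓝[>] (0 : ℝ) ×ˢ 𝓝 (B i0 ζ)) (𝓝[>] 0 ×ˢ 𝓝 ζ) := by
      have h4 : Tendsto p (𝓝 (B i0 ζ)) (𝓝 ζ) := by
        have := hp.continuousAt.tendsto
        rwa [hp0] at this
      exact tendsto_fst.prodMk (h4.comp tendsto_snd)
    filter_upwards [h3.eventually h2, tendsto_snd.eventually hp2, hclose] with t ht1 ht2 ht3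
    rw [ht2] at ht1
    exact ⟨ht1, ht3⟩
  have hunif := hL.mem_prod_nhdsSet_of_forall hloc
  obtain ⟨S', hS', T, hT, hST⟩ := Filter.mem_prod_iff.1 hunif
  have hS'' : ∀ᶠ s in 𝓝[>] (0 : ℝ), s ∈ S' := hS'
  have hS3 : ∀ᶠ s in 𝓝[>] (0 : ℝ), 0 < s := self_mem_nhdsWithin
  obtain ⟨s, hsS, hsS', hs0⟩ : ∃ s, s ∈ S ∧ s ∈ S' ∧ 0 < s := (hS.and_eventually (hS''.and hS3)).exists
  have hmain : ∀ x ∈ L, (s ∈ S → LD n (Fp ρ β e F B Λ s) x) ∧
      ‖Gs ρ β (fun i z => e (B i z)) (fun i z => F (B i z)) s (e x) - F x‖ < ε := by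
    intro x hx
    have h9 : (s, x) ∈ S' ×ˢ T := ⟨hsS', subset_of_mem_nhdsSet hT hx⟩
    exact hST h9
  have hoff : ∀ x, x ∉ L → Fp ρ β e F B Λ s x = F x := by
    intro x hx
    have h2 : e x ∉ O := by
      intro h3
      have h4 : x ∈ e ⁻¹' O := h3
      rw [hOL] at h4
      exact hx (interior_subset h4)
    unfold Fp
    rw [hΛ2 _ h2, zero_smul, add_zero]
  refine ⟨Fp ρ β e F B Λ s, L, hL, hLWO.trans inter_subset_right, hoff, ?_, ?_, ?_⟩
  · intro x
    by_cases hx : x ∈ L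
    · exact (hmain x hx).1 hsS
    · have hxg : LD n F x := by
        by_contra hcon
        exact hx (interior_subset (hKL hcon))
      refine hxg.congr ?_
      filter_upwards [hL.isClosed.isOpen_compl.mem_nhds hx] with y hy
      exact hoff y hy
  · intro x
    by_cases hx : x ∈ L
    · have hG : ‖Gs ρ β (fun i z => e (B i z)) (fun i z => F (B i z)) s (e x) - 0‖ ≤ 1 :=
        Gs_close (g := fun i z => F (B i z)) h1 hβ hβ0 hβs (fun i => he.continuous.comp (hBc i))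
          (fun i => hF.comp (hBc i)) hs0 (hZ _ (hLW hx) _) fun i z _ _ => by rw [sub_zero]; exact hFn _
      rw [sub_zero] at hG
      unfold Fp
      have h2 := (hΛ3 (e x)).1
      have h3 := (hΛ3 (e x)).2
      have e1 : F x + Λ (e x) • (Gs ρ β (fun i z => e (B i z)) (fun i z => F (B i z)) s (e x) -
          F x) = (1 - Λ (e x)) • F x +
          Λ (e x) • Gs ρ β (fun i z => e (B i z)) (fun i z => F (B i z)) s (e x) := by
        rw [smul_sub, sub_smul, one_smul]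
        abel
      rw [e1]
      have h4 := hFn x
      refine (norm_add_le _ _).trans ?_
      rw [norm_smul, norm_smul, Real.norm_eq_abs, Real.norm_eq_abs, abs_of_nonneg h2, abs_of_nonneg (by linarith)]
      nlinarith
    · rw [hoff x hx]
      exact hFn x
  · intro x
    by_cases hx : x ∈ L
    · have h2 := (hmain x hx).2
      have h3 := (hΛ3 (e x)).1
      have h4 := (hΛ3 (e x)).2
      unfold Fp
      rw [add_sub_cancel_left, norm_smul, Real.norm_eq_abs, abs_of_nonneg h3]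
      calc Λ (e x) * ‖Gs ρ β (fun i z => e (B i z)) (fun i z => F (B i z)) s (e x) - F x‖
          ≤ 1 * ‖Gs ρ β (fun i z => e (B i z)) (fun i z => F (B i z)) s (e x) - F x‖ :=
            mul_le_mul_of_nonneg_right h4 (norm_nonneg _)
        _ < ε := by rw [one_mul]; exact h2
    · rw [hoff x hx, sub_self, norm_zero]
      exact hε

end

end Pool.Agent.H865_small
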