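import Pool.Agent.H865_small.Glob

/-!
# Coarse coordinates, coarse similarities and bi-Lipschitz maps
-/

set_option autoImplicit false

open Set Filter Topology Metric Function MeasureTheory
open scoped Manifold ContDiff

noncomputable section

namespace Pool.Agent.H865_small

open Pool.Agent.Y522 (LD)

section defs

variable {n m : ℕ} {X : Type} [TopologicalSpace X]

/-- coarse coordinates -/
def CC (e : X → E m) (F : X → E n) (S : Set ℝ) (η : ℝ) (x : X) : Prop :=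
  ∃ U ∈ 𝓝 x, ∃ r : ℝ, 0 < r ∧ ∀ y ∈ U, ∀ s ∈ S, 0 < s → s < r → ∀ v : E m, ‖v‖ = 1 →
    ∃ (ℓ : E n →L[ℝ] ℝ) (c : ℝ), ∀ u ∈ U, ‖e u - e y‖ ≤ s → |ℓ (F u) + c - inner ℝ v (e u - e y)| ≤ η * s

/-- coarse similarity -/
def CS (e : X → E m) (F : X → E n) (S : Set ℝ) (ε : ℝ) (x : X) : Prop :=
  ∃ U ∈ 𝓝 x, ∃ r : ℝ, 0 < r ∧ ∀ y ∈ U, ∀ s ∈ S, 0 < s → s < r → ∃ κ : ℝ, 0 ≤ κ ∧ ∀ u ∈ U, ∀ w ∈ U,
    ‖e u - e y‖ ≤ s → ‖e w - e y‖ ≤ s → |κ * ‖F u - F w‖ - ‖e u - e w‖| ≤ ε * s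

/-- bi-Lipschitz up to a scalar factor -/
def BL (e : X → E m) (F : X → E n) (K : ℝ) (x : X) : Prop :=
  ∃ U ∈ 𝓝 x, ∃ κ : ℝ, ∀ u ∈ U, ∀ w ∈ U, ‖e u - e w‖ ≤ κ * ‖F u - F w‖ ∧ κ * ‖F u - F w‖ ≤ K * ‖e u - e w‖

/-- one of the three conditions, with the constant `η` -/
def WW (e : X → E m) (F : X → E n) (S : Set ℝ) (η : ℝ) (x : X) : Prop :=
  CC e F S η x ∨ (∃ ε : ℝ, 0 ≤ ε ∧ ε * (√2 + ε / 2) ≤ η ∧ CS e F S ε x) ∨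
    ∃ K : ℝ, (K ^ 2 - 1) / (K ^ 2 + 1) ≤ η ∧ BL e F K x

theorem WW.mono {e : X → E m} {F : X → E n} {S : Set ℝ} {η η' : ℝ} {x : X} (h : η ≤ η') (hw : WW e F S η x) :
    WW e F S η' x := by
  rcases hw with ⟨U, hU, r, hr, h1⟩ | ⟨ε, hε, h1, h2⟩ | ⟨K, h1, h2⟩
  · refine Or.inl ⟨U, hU, r, hr, fun y hy s hs hs0 hsr v hv => ?_⟩
    obtain ⟨ℓ, c, h2⟩ := h1 y hy s hs hs0 hsr v hv
    exact ⟨ℓ, c, fun u hu hue => (h2 u hu hue).trans (mul_le_mul_of_nonneg_right h hs0.le)⟩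
  · exact Or.inr (Or.inl ⟨ε, hε, h1.trans h, h2⟩)
  · exact Or.inr (Or.inr ⟨K, h1.trans h, h2⟩)

theorem WW.eventually {e : X → E m} {F : X → E n} {S : Set ℝ} {η : ℝ} {x : X} (hw : WW e F S η x) :
    ∀ᶠ y in 𝓝 x, WW e F S η y := by
  rcases hw with ⟨U, hU, r, hr, h1⟩ | ⟨ε, hε, h1, U, hU, r, hr, h2⟩ | ⟨K, h1, U, hU, κ, h2⟩
  · filter_upwards [eventually_mem_nhds_iff.2 hU] with y hy
    exact Or.inl ⟨U, hy, r, hr, h1⟩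
  · filter_upwards [eventually_mem_nhds_iff.2 hU] with y hy
    exact Or.inr (Or.inl ⟨ε, hε, h1, U, hy, r, hr, h2⟩)
  · filter_upwards [eventually_mem_nhds_iff.2 hU] with y hy
    exact Or.inr (Or.inr ⟨K, h1, U, hy, κ, h2⟩)

end defs

/-- polarization -/
theorem polar_ineq {n m : ℕ} {w α b V : E m} {fu fa fb : E n} {μ σ T δ : ℝ} (hσ : 0 < σ)
    (h1 : |μ * ‖fu - fa‖ ^ 2 - ‖w - α‖ ^ 2| + |μ * ‖fu - fb‖ ^ 2 - ‖w - b‖ ^ 2| ≤ T)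
    (ha : ‖α - σ • V‖ ≤ δ) (hb : ‖b + σ • V‖ ≤ δ) :
    |(μ / (2 * σ)) * inner ℝ (fa - fb) fu + (μ * (‖fb‖ ^ 2 - ‖fa‖ ^ 2) + ‖α‖ ^ 2 - ‖b‖ ^ 2) / (4 * σ) - inner ℝ V w| ≤
      T / (4 * σ) + ‖w‖ * δ / σ := by
  have e1 : ‖fu - fa‖ ^ 2 = ‖fu‖ ^ 2 - 2 * inner ℝ fa fu + ‖fa‖ ^ 2 := by
    rw [norm_sub_sq_real, real_inner_comm]
  have e2 : ‖fu - fb‖ ^ 2 = ‖fu‖ ^ 2 - 2 * inner ℝ fb fu + ‖fb‖ ^ 2 := by
    rw [norm_sub_sq_real, real_inner_comm]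
  have e3 : ‖w - α‖ ^ 2 = ‖w‖ ^ 2 - 2 * inner ℝ α w + ‖α‖ ^ 2 := by
    rw [norm_sub_sq_real, real_inner_comm]
  have e4 : ‖w - b‖ ^ 2 = ‖w‖ ^ 2 - 2 * inner ℝ b w + ‖b‖ ^ 2 := by
    rw [norm_sub_sq_real, real_inner_comm]
  have e5 : inner ℝ (fa - fb) fu = inner ℝ fa fu - inner ℝ fb fu := inner_sub_left _ _ _
  have e6 : inner ℝ (α - σ • V) w = inner ℝ α w - σ * inner ℝ V w := by
    rw [inner_sub_left, inner_smul_left]; simp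
  have e7 : inner ℝ (b + σ • V) w = inner ℝ b w + σ * inner ℝ V w := by
    rw [inner_add_left, inner_smul_left]; simp
  have b1 : |inner ℝ (α - σ • V) w| ≤ δ * ‖w‖ :=
    (abs_real_inner_le_norm _ _).trans (mul_le_mul_of_nonneg_right ha (norm_nonneg _))
  have b2 : |inner ℝ (b + σ • V) w| ≤ δ * ‖w‖ :=
    (abs_real_inner_le_norm _ _).trans (mul_le_mul_of_nonneg_right hb (norm_nonneg _))
  have key : (μ / (2 * σ)) * inner ℝ (fa - fb) fu + (μ * (‖fb‖ ^ 2 - ‖fa‖ ^ 2) + ‖α‖ ^ 2 - ‖b‖ ^ 2) / (4 * σ) -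
      inner ℝ V w = ((μ * ‖fu - fb‖ ^ 2 - ‖w - b‖ ^ 2) - (μ * ‖fu - fa‖ ^ 2 - ‖w - α‖ ^ 2) +
        2 * inner ℝ (α - σ • V) w - 2 * inner ℝ (b + σ • V) w) / (4 * σ) := by
    rw [e1, e2, e3, e4, e5, e6, e7]
    field_simp
    ring
  rw [key, abs_div, abs_of_pos (show 0 < 4 * σ by positivity), div_le_iff₀ (by positivity)]
  have e8 : (T / (4 * σ) + ‖w‖ * δ / σ) * (4 * σ) = T + 4 * (‖w‖ * δ) := by field_simp
  rw [e8]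
  have c1 := abs_le.1 b1
  have c2 := abs_le.1 b2
  have c3 := abs_le.1 (le_refl |μ * ‖fu - fa‖ ^ 2 - ‖w - α‖ ^ 2|)
  have c4 := abs_le.1 (le_refl |μ * ‖fu - fb‖ ^ 2 - ‖w - b‖ ^ 2|)
  rw [abs_le]
  constructor <;> nlinarith [c1.1, c1.2, c2.1, c2.2, c3.1, c3.2, c4.1, c4.2]

/-- the sum of the squared distances to two nearly opposite points -/
theorem pair_sum {m : ℕ} {w α b V : E m} {σ s δ : ℝ} (hV : ‖V‖ = 1) (hσ : 0 ≤ σ) (hs : 0 ≤ s) (hw : ‖w‖ ≤ s)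
    (ha : ‖α - σ • V‖ ≤ δ * s) (hb : ‖b + σ • V‖ ≤ δ * s) (hσs : σ + δ * s = s) :
    ‖α‖ ≤ s ∧ ‖b‖ ≤ s ∧ ‖w - α‖ ^ 2 + ‖w - b‖ ^ 2 ≤ 4 * (1 + δ) * s ^ 2 := by
  have hσV : ‖σ • V‖ = σ := by rw [norm_smul, hV, mul_one, Real.norm_eq_abs, abs_of_nonneg hσ]
  have h1 : ‖α‖ ≤ s := by
    have : α = (α - σ • V) + σ • V := by abel
    rw [this]
    refine (norm_add_le _ _).trans ?_
    rw [hσV]
    linarith
  have h2 : ‖b‖ ≤ s := by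
    have : b = (b + σ • V) - σ • V := by abel
    rw [this]
    refine (norm_sub_le _ _).trans ?_
    rw [hσV]
    linarith
  refine ⟨h1, h2, ?_⟩
  have e3 : ‖w - α‖ ^ 2 = ‖w‖ ^ 2 - 2 * inner ℝ w α + ‖α‖ ^ 2 := norm_sub_sq_real _ _
  have e4 : ‖w - b‖ ^ 2 = ‖w‖ ^ 2 - 2 * inner ℝ w b + ‖b‖ ^ 2 := norm_sub_sq_real _ _
  have e5 : inner ℝ w ((α - σ • V) + (b + σ • V)) = inner ℝ w α + inner ℝ w b := by
    rw [← inner_add_right]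
    congr 1
    abel
  have h3 : |inner ℝ w ((α - σ • V) + (b + σ • V))| ≤ s * (2 * (δ * s)) := by
    refine (abs_real_inner_le_norm _ _).trans ?_
    refine mul_le_mul hw ?_ (norm_nonneg _) hs
    refine (norm_add_le _ _).trans ?_
    linarith
  rw [e5] at h3
  have h4 := (abs_le.1 h3).1
  have h5 : ‖w‖ ^ 2 ≤ s ^ 2 := by nlinarith [norm_nonneg w]
  have h6 : ‖α‖ ^ 2 ≤ s ^ 2 := by nlinarith [norm_nonneg α]
  have h7 : ‖b‖ ^ 2 ≤ s ^ 2 := by nlinarith [norm_nonneg b]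
  nlinarith

section

variable {n m : ℕ} {X : Type} [TopologicalSpace X] [ChartedSpace (E n) X] {e : X → E m} {F : X → E n}

theorem TRec_of_CC (he : IsEmbedding e) {S : Set ℝ} {η : ℝ} {x : X} (h : CC e F S η x) : TRec e F S η x := by
  intro B ζ hx hBi hBl v hv
  subst hx
  obtain ⟨U, hU, r, hr, hrec⟩ := h
  have hBc : Continuous B := continuous_iff_continuousAt.2 fun z => (hBl z).continuousAt
  have hUev : ∀ᶠ y in 𝓝 ζ, B y ∈ U := hBc.continuousAt.eventually hU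
  have hrev : ∀ᶠ s in 𝓝[>] (0 : ℝ), 0 < s ∧ s < r := Ioo_mem_nhdsGT hr
  have hfst : Tendsto (fun t : ℝ × E n × E n => (t.1, t.2.1)) (𝓝[>] 0 ×ˢ 𝓝 ζ ×ˢ 𝓝 v) (𝓝[>] 0 ×ˢ 𝓝 ζ) :=
    tendsto_fst.prodMk (tendsto_fst.comp tendsto_snd)
  filter_upwards [hfst.eventually (emb_near he hBc.continuousAt hU),
    hfst.eventually (tendsto_snd.eventually hUev), hfst.eventually (tendsto_fst.eventually hrev)]
    with t hnear htU hts htS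
  obtain ⟨V, hV⟩ : ∃ V, V = fderiv ℝ (fun z => e (B z)) t.2.1 t.2.2 := ⟨_, rfl⟩
  rw [← hV]
  rcases eq_or_ne V 0 with hV0 | hV0
  · exact ⟨0, 0, fun u _ => by rw [hV0]; simp⟩
  have hVn : 0 < ‖V‖ := norm_pos_iff.2 hV0
  obtain ⟨ℓ, c, hℓ⟩ := hrec (B t.2.1) htU t.1 htS hts.1 hts.2 (‖V‖⁻¹ • V)
    (by rw [norm_smul, norm_inv, norm_norm, inv_mul_cancel₀ hVn.ne'])
  refine ⟨‖V‖ • ℓ, ‖V‖ * c, fun u hu => ?_⟩
  have h4 := hℓ u (hnear _ hu) hu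
  have e1 : (‖V‖ • ℓ) (F u) + ‖V‖ * c - inner ℝ V (e u - e (B t.2.1)) =
      ‖V‖ * (ℓ (F u) + c - inner ℝ (‖V‖⁻¹ • V) (e u - e (B t.2.1))) := by
    rw [inner_smul_left]
    simp only [map_inv₀, conj_trivial]
    rw [show (‖V‖ • ℓ) (F u) = ‖V‖ * ℓ (F u) from rfl]
    field_simp
  rw [e1, abs_mul, abs_of_pos hVn]
  calc ‖V‖ * |ℓ (F u) + c - inner ℝ (‖V‖⁻¹ • V) (e u - e (B t.2.1))| ≤ ‖V‖ * (η * t.1) :=
        mul_le_mul_of_nonneg_left h4 hVn.le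
    _ = η * t.1 * ‖V‖ := by ring

/-- points at a given distance in a given direction -/
theorem dir_approx {q : E n → E m} (hq : ContDiff ℝ ∞ q) {ζ v : E n} (hv : fderiv ℝ q ζ v ≠ 0) {δ : ℝ} (hδ : 0 < δ) :
    ∀ᶠ t : ℝ × E n × E n in 𝓝[>] 0 ×ˢ 𝓝 ζ ×ˢ 𝓝 v, fderiv ℝ q t.2.1 t.2.2 ≠ 0 ∧ ∀ θ : ℝ, |θ| ≤ t.1 →
      ‖q (t.2.1 + (θ / ‖fderiv ℝ q t.2.1 t.2.2‖) • t.2.2) - q t.2.1 -
        (θ / ‖fderiv ℝ q t.2.1 t.2.2‖) • fderiv ℝ q t.2.1 t.2.2‖ ≤ δ * t.1 := by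
  obtain ⟨V, hV⟩ : ∃ V, V = fderiv ℝ q ζ v := ⟨_, rfl⟩
  rw [← hV] at hv
  have hVn : 0 < ‖V‖ := norm_pos_iff.2 hv
  have tζ : Tendsto (fun t : ℝ × E n × E n => t.2.1) (𝓝[>] 0 ×ˢ 𝓝 ζ ×ˢ 𝓝 v) (𝓝 ζ) :=
    tendsto_fst.comp tendsto_snd
  have ts : Tendsto (fun t : ℝ × E n × E n => t.1) (𝓝[>] 0 ×ˢ 𝓝 ζ ×ˢ 𝓝 v) (𝓝[>] 0) := tendsto_fst
  have tv : Tendsto (fun t : ℝ × E n × E n => t.2.2) (𝓝[>] 0 ×ˢ 𝓝 ζ ×ˢ 𝓝 v) (𝓝 v) :=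
    tendsto_snd.comp tendsto_snd
  have tV : Tendsto (fun t : ℝ × E n × E n => fderiv ℝ q t.2.1 t.2.2) (𝓝[>] 0 ×ˢ 𝓝 ζ ×ˢ 𝓝 v) (𝓝 V) := by
    have h1 : Continuous fun p : E n × E n => fderiv ℝ q p.1 p.2 :=
      ((hq.continuous_fderiv (by simp)).comp continuous_fst).clm_apply continuous_snd
    have h2 := h1.tendsto (ζ, v)
    rw [nhds_prod_eq] at h2
    rw [hV]
    exact h2.comp tendsto_snd
  obtain ⟨C, hC⟩ : ∃ C, C = (‖v‖ + 1) / (‖V‖ / 2) := ⟨_, rfl⟩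
  have hCp : 0 < C := by rw [hC]; positivity
  obtain ⟨ε, hε⟩ : ∃ ε, ε = δ / (2 * C) := ⟨_, rfl⟩
  have hεp : 0 < ε := by rw [hε]; positivity
  have hqs : HasStrictFDerivAt q (fderiv ℝ q ζ) ζ := hq.contDiffAt.hasStrictFDerivAt (by simp)
  obtain ⟨γ, hγ, hγ2⟩ := Metric.eventually_nhds_iff_ball.1 (hqs.isLittleO.def hεp)
  have hin : ∀ z z' : E n, z ∈ ball ζ γ → z' ∈ ball ζ γ → ‖q z - q z' - fderiv ℝ q ζ (z - z')‖ ≤ ε * ‖z - z'‖ := by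
    intro z z' hz hz'
    have h3 := hγ2 (z, z') (by
      rw [mem_ball, Prod.dist_eq]
      exact max_lt hz hz')
    exact h3
  have hder : ∀ᶠ y in 𝓝 ζ, ‖fderiv ℝ q y - fderiv ℝ q ζ‖ < ε := by
    have h1 : Tendsto (fun y => ‖fderiv ℝ q y - fderiv ℝ q ζ‖) (𝓝 ζ) (𝓝 0) := by
      have h2 := ((hq.continuous_fderiv (by simp)).tendsto ζ).sub_const (fderiv ℝ q ζ)
      have h3 := h2.norm
      rwa [sub_self, norm_zero] at h3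
    exact h1.eventually (gt_mem_nhds hεp)
  have hsev : ∀ᶠ s in 𝓝[>] (0 : ℝ), 0 < s ∧ s < γ / (2 * C) := Ioo_mem_nhdsGT (by positivity)
  filter_upwards [tV.norm.eventually (lt_mem_nhds (show ‖V‖ / 2 < ‖V‖ by linarith)),
    tv.norm.eventually (gt_mem_nhds (show ‖v‖ < ‖v‖ + 1 by linarith)), tζ.eventually hder,
    tζ.eventually (ball_mem_nhds ζ (show 0 < γ / 2 by positivity)), ts.eventually hsev] with t h1 h2 h3 h4 h5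
  obtain ⟨W, hW⟩ : ∃ W, W = fderiv ℝ q t.2.1 t.2.2 := ⟨_, rfl⟩
  rw [← hW] at h1 ⊢
  have hWn : 0 < ‖W‖ := lt_trans (by positivity) h1
  refine ⟨norm_pos_iff.1 hWn, fun θ hθ => ?_⟩
  obtain ⟨τ, hτ⟩ : ∃ τ, τ = θ / ‖W‖ := ⟨_, rfl⟩
  rw [← hτ]
  have hτv : ‖τ • t.2.2‖ ≤ C * t.1 := by
    rw [norm_smul, hτ, Real.norm_eq_abs, abs_div, abs_norm, hC, div_mul_eq_mul_div, div_mul_eq_mul_div]
    rw [div_le_div_iff₀ hWn (by positivity)]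
    calc |θ| * ‖t.2.2‖ * (‖V‖ / 2) ≤ t.1 * (‖v‖ + 1) * ‖W‖ := by
          refine mul_le_mul (mul_le_mul hθ h2.le (norm_nonneg _) h5.1.le) h1.le (by positivity) ?_
          have := h5.1
          positivity
      _ = _ := by ring
  have hz' : t.2.1 ∈ ball ζ γ := by
    rw [mem_ball]
    linarith
  have hz : t.2.1 + τ • t.2.2 ∈ ball ζ γ := by
    rw [mem_ball]
    have h6 : dist (t.2.1 + τ • t.2.2) ζ ≤ dist (t.2.1 + τ • t.2.2) t.2.1 + dist t.2.1 ζ := dist_triangle _ _ _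
    have h7 : dist (t.2.1 + τ • t.2.2) t.2.1 = ‖τ • t.2.2‖ := by
      rw [dist_eq_norm, add_sub_cancel_left]
    have h8 : C * t.1 < γ / 2 := by
      have := (lt_div_iff₀ (show 0 < 2 * C by positivity)).1 h5.2
      linarith
    linarith
  have h6 := hin _ _ hz hz'
  rw [add_sub_cancel_left] at h6
  have h7 : ‖fderiv ℝ q ζ (τ • t.2.2) - τ • W‖ ≤ ε * ‖τ • t.2.2‖ := by
    have e1 : fderiv ℝ q ζ (τ • t.2.2) - τ • W = -((fderiv ℝ q t.2.1 - fderiv ℝ q ζ) (τ • t.2.2)) := by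
      rw [_root_.sub_apply, map_smul (fderiv ℝ q t.2.1), ← hW]
      abel
    rw [e1, norm_neg]
    exact (ContinuousLinearMap.le_opNorm _ _).trans (mul_le_mul_of_nonneg_right h3.le (norm_nonneg _))
  have e2 : q (t.2.1 + τ • t.2.2) - q t.2.1 - τ • W =
      (q (t.2.1 + τ • t.2.2) - q t.2.1 - fderiv ℝ q ζ (τ • t.2.2)) + (fderiv ℝ q ζ (τ • t.2.2) - τ • W) := by abel
  rw [e2]
  refine (norm_add_le _ _).trans ((add_le_add h6 h7).trans ?_)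
  calc ε * ‖τ • t.2.2‖ + ε * ‖τ • t.2.2‖ = 2 * ε * ‖τ • t.2.2‖ := by ring
    _ ≤ 2 * ε * (C * t.1) := mul_le_mul_of_nonneg_left hτv (by positivity)
    _ = δ * t.1 := by rw [hε]; field_simp

/-- the condition on pairs of points -/
def Pair (e : X → E m) (F : X → E n) (S : Set ℝ) (η : ℝ) (x : X) : Prop :=
  ∃ U ∈ 𝓝 x, ∃ r : ℝ, 0 < r ∧ ∀ y ∈ U, ∀ s ∈ S, 0 < s → s < r → ∃ μ : ℝ, ∀ u ∈ U, ∀ a ∈ U, ∀ b ∈ U,
    ‖e u - e y‖ ≤ s → ‖e a - e y‖ ≤ s → ‖e b - e y‖ ≤ s → ∀ δ : ℝ, 0 ≤ δ →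
      ‖e u - e a‖ ^ 2 + ‖e u - e b‖ ^ 2 ≤ 4 * (1 + δ) * s ^ 2 →
        |μ * ‖F u - F a‖ ^ 2 - ‖e u - e a‖ ^ 2| + |μ * ‖F u - F b‖ ^ 2 - ‖e u - e b‖ ^ 2| ≤
          4 * η * (1 + δ) * s ^ 2

omit [ChartedSpace (E n) X] in
theorem Pair_of_CS {S : Set ℝ} {η ε : ℝ} {x : X} (hε : 0 ≤ ε) (h : ε * (√2 + ε / 2) ≤ η) (hcs : CS e F S ε x) :
    Pair e F S η x := by
  obtain ⟨U, hU, r, hr, hcs⟩ := hcs
  refine ⟨U, hU, r, hr, fun y hy s hsS hs hsr => ?_⟩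
  obtain ⟨κ, hκ, hcs⟩ := hcs y hy s hsS hs hsr
  refine ⟨κ ^ 2, fun u hu a ha b hb hue hae hbe δ hδ hD => ?_⟩
  obtain ⟨Da, hDa⟩ : ∃ Da, Da = ‖e u - e a‖ := ⟨_, rfl⟩
  obtain ⟨Db, hDb⟩ : ∃ Db, Db = ‖e u - e b‖ := ⟨_, rfl⟩
  obtain ⟨Fa, hFa⟩ : ∃ Fa, Fa = ‖F u - F a‖ := ⟨_, rfl⟩
  obtain ⟨Fb, hFb⟩ : ∃ Fb, Fb = ‖F u - F b‖ := ⟨_, rfl⟩
  have h1 := hcs u hu a ha hue hae
  have h2 := hcs u hu b hb hue hbe
  have hDa0 : 0 ≤ Da := hDa ▸ norm_nonneg _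
  have hDb0 : 0 ≤ Db := hDb ▸ norm_nonneg _
  have hFa0 : 0 ≤ Fa := hFa ▸ norm_nonneg _
  have hFb0 : 0 ≤ Fb := hFb ▸ norm_nonneg _
  rw [← hDa, ← hDb] at hD
  rw [← hDa, ← hFa] at h1
  rw [← hDb, ← hFb] at h2
  rw [← hDa, ← hDb, ← hFa, ← hFb]
  have hsq : ∀ G D : ℝ, 0 ≤ G → 0 ≤ D → |κ * G - D| ≤ ε * s → |κ ^ 2 * G ^ 2 - D ^ 2| ≤ ε * s * (2 * D + ε * s) := by
    intro G D hG hD h3
    have e1 : κ ^ 2 * G ^ 2 - D ^ 2 = (κ * G - D) * (κ * G + D) := by ring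
    have h4 : 0 ≤ κ * G + D := by positivity
    rw [e1, abs_mul, abs_of_nonneg h4]
    refine mul_le_mul h3 ?_ h4 (by positivity)
    have := (abs_le.1 h3).2
    linarith
  have h3 := hsq Fa Da hFa0 hDa0 h1
  have h4 := hsq Fb Db hFb0 hDb0 h2
  have h2s : √2 ^ 2 = (2 : ℝ) := Real.sq_sqrt (by norm_num)
  have h2p : 0 < √(2 : ℝ) := by positivity
  have h5 : Da + Db ≤ 2 * √2 * (1 + δ) * s := by
    refine abs_le_of_sq_le_sq' (a := Da + Db) (b := 2 * √2 * (1 + δ) * s) ?_ (by positivity) |>.2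
    have e1 : (2 * √2 * (1 + δ) * s) ^ 2 = 8 * (1 + δ) ^ 2 * s ^ 2 := by
      rw [show (2 * √2 * (1 + δ) * s) ^ 2 = 4 * √2 ^ 2 * (1 + δ) ^ 2 * s ^ 2 by ring, h2s]
      ring
    rw [e1]
    have h6 : (Da + Db) ^ 2 ≤ 8 * (1 + δ) * s ^ 2 := by nlinarith [sq_nonneg (Da - Db)]
    have h7 : 8 * (1 + δ) * s ^ 2 ≤ 8 * (1 + δ) ^ 2 * s ^ 2 := by
      have : 0 ≤ δ * (1 + δ) * s ^ 2 := by positivity
      nlinarith
    linarith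
  have h8 : ε * s * (2 * Da + ε * s) + ε * s * (2 * Db + ε * s) ≤ 4 * (ε * (√2 + ε / 2)) * (1 + δ) * s ^ 2 := by
    have h9 : ε * s * (2 * (Da + Db)) ≤ ε * s * (2 * (2 * √2 * (1 + δ) * s)) :=
      mul_le_mul_of_nonneg_left (by linarith) (by positivity)
    have h10 : 0 ≤ ε ^ 2 * δ * s ^ 2 := by positivity
    nlinarith
  have h11 : 4 * (ε * (√2 + ε / 2)) * (1 + δ) * s ^ 2 ≤ 4 * η * (1 + δ) * s ^ 2 := by
    have : 0 ≤ (1 + δ) * s ^ 2 := by positivity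
    nlinarith
  linarith

omit [ChartedSpace (E n) X] in
theorem Pair_of_BL {S : Set ℝ} {η K : ℝ} {x : X} (hη : 0 ≤ η) (h : (K ^ 2 - 1) / (K ^ 2 + 1) ≤ η)
    (hbl : BL e F K x) : Pair e F S η x := by
  obtain ⟨U, hU, κ, hbl⟩ := hbl
  refine ⟨U, hU, 1, one_pos, fun y hy s hsS hs hsr => ⟨2 * κ ^ 2 / (K ^ 2 + 1), ?_⟩⟩
  intro u hu a ha b hb hue hae hbe δ hδ hD
  have hK : 0 < K ^ 2 + 1 := by positivity
  have hsq : ∀ G D : ℝ, 0 ≤ D → D ≤ κ * G → κ * G ≤ K * D → |2 * κ ^ 2 / (K ^ 2 + 1) * G ^ 2 - D ^ 2| ≤ η * D ^ 2 := by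
    intro G D hD h1 h2
    have h3 : D ^ 2 ≤ (κ * G) ^ 2 := by nlinarith
    have h4 : (κ * G) ^ 2 ≤ (K * D) ^ 2 := by nlinarith
    have e1 : 2 * κ ^ 2 / (K ^ 2 + 1) * G ^ 2 = 2 * (κ * G) ^ 2 / (K ^ 2 + 1) := by ring
    have h5 : K ^ 2 - 1 ≤ η * (K ^ 2 + 1) := (div_le_iff₀ hK).1 h
    rw [e1, abs_le]
    constructor
    · rw [le_sub_iff_add_le, le_div_iff₀ hK]
      nlinarith [sq_nonneg D]
    · rw [sub_le_iff_le_add, div_le_iff₀ hK]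
      nlinarith [sq_nonneg D]
  have h1 := hbl u hu a ha
  have h2 := hbl u hu b hb
  have h3 := hsq _ _ (norm_nonneg _) h1.1 h1.2
  have h4 := hsq _ _ (norm_nonneg _) h2.1 h2.2
  nlinarith

theorem TRec_of_Pair (he : IsEmbedding e) (hI : ∀ x, Imm (n := n) e x) {S : Set ℝ} {η η' : ℝ} (hη : 0 < η)
    (hηη : η < η') {x : X} (hp : Pair e F S η x) : TRec e F S η' x := by
  intro B ζ hx hBi hBl v hv
  subst hx
  obtain ⟨U, hU, r, hr, hrec⟩ := hp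
  have hBc : Continuous B := continuous_iff_continuousAt.2 fun z => (hBl z).continuousAt
  have hq : ContDiff ℝ ∞ (fun z => e (B z)) := contDiff_iff_contDiffAt.2 fun z => (imm_smooth (hI _) (hBl z)).1
  have hqd : ∀ z, Injective (fderiv ℝ (fun z => e (B z)) z) := fun z => (imm_smooth (hI _) (hBl z)).2
  have hV0 : fderiv ℝ (fun z => e (B z)) ζ v ≠ 0 := fun h => hv (hqd ζ (by rw [h, map_zero]))
  have hUev : ∀ᶠ y in 𝓝 ζ, B y ∈ U := hBc.continuousAt.eventually hU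
  have hrev : ∀ᶠ s in 𝓝[>] (0 : ℝ), 0 < s ∧ s < r := Ioo_mem_nhdsGT hr
  have hfst : Tendsto (fun t : ℝ × E n × E n => (t.1, t.2.1)) (𝓝[>] 0 ×ˢ 𝓝 ζ ×ˢ 𝓝 v) (𝓝[>] 0 ×ˢ 𝓝 ζ) :=
    tendsto_fst.prodMk (tendsto_fst.comp tendsto_snd)
  obtain ⟨δ, hδ⟩ : ∃ δ, δ = (η' - η) / (η + η' + 1) := ⟨_, rfl⟩
  have hη' : 0 < η' := hη.trans hηη
  have hδp : 0 < δ := by rw [hδ]; exact div_pos (by linarith) (by linarith)
  have hδ1 : δ < 1 := by rw [hδ, div_lt_one (by linarith)]; linarith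
  have hδe : δ * (η + η' + 1) = η' - η := by rw [hδ]; field_simp
  filter_upwards [hfst.eventually (emb_near he hBc.continuousAt hU),
    hfst.eventually (tendsto_snd.eventually hUev), hfst.eventually (tendsto_fst.eventually hrev),
    dir_approx hq hV0 hδp] with t hnear htU hts hdir htS
  obtain ⟨V, hV⟩ : ∃ V, V = fderiv ℝ (fun z => e (B z)) t.2.1 t.2.2 := ⟨_, rfl⟩
  rw [← hV] at hdir ⊢
  obtain ⟨hVne, hdir⟩ := hdir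
  have hVn : 0 < ‖V‖ := norm_pos_iff.2 hVne
  obtain ⟨V', hV'⟩ : ∃ V', V' = ‖V‖⁻¹ • V := ⟨_, rfl⟩
  have hV'n : ‖V'‖ = 1 := by rw [hV', norm_smul, norm_inv, norm_norm, inv_mul_cancel₀ hVn.ne']
  obtain ⟨s, hs⟩ : ∃ s, s = t.1 := ⟨_, rfl⟩
  rw [← hs] at hnear hts htS hdir ⊢
  have hs0 := hts.1
  obtain ⟨σ, hσ⟩ : ∃ σ, σ = (1 - δ) * s := ⟨_, rfl⟩
  have hσp : 0 < σ := by rw [hσ]; exact mul_pos (by linarith) hs0
  have hσs : σ + δ * s = s := by rw [hσ]; ring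
  have hσle : σ ≤ s := by
    have : 0 ≤ δ * s := by positivity
    linarith
  obtain ⟨y, hy⟩ : ∃ y, y = B t.2.1 := ⟨_, rfl⟩
  obtain ⟨a, ha⟩ : ∃ a, a = B (t.2.1 + (σ / ‖V‖) • t.2.2) := ⟨_, rfl⟩
  obtain ⟨b, hb⟩ : ∃ b, b = B (t.2.1 + (-σ / ‖V‖) • t.2.2) := ⟨_, rfl⟩
  have hda := hdir σ (by rw [abs_of_pos hσp]; exact hσle)
  have hdb := hdir (-σ) (by rw [abs_neg, abs_of_pos hσp]; exact hσle)
  rw [← hy] at hnear htU ⊢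
  rw [← ha, ← hy] at hda
  rw [← hb, ← hy] at hdb
  have ha1 : ‖(e a - e y) - σ • V'‖ ≤ δ * s := by
    have : σ • V' = (σ / ‖V‖) • V := by rw [hV', smul_smul]; rfl
    rw [this]; exact hda
  have hb1 : ‖(e b - e y) + σ • V'‖ ≤ δ * s := by
    have : e b - e y + σ • V' = e b - e y - (-σ / ‖V‖) • V := by
      rw [hV', smul_smul, neg_div, neg_smul, sub_neg_eq_add]; rfl
    rw [this]; exact hdb
  obtain ⟨μ, hμ⟩ := hrec y htU s htS hts.1 hts.2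
  refine ⟨‖V‖ • ((μ / (2 * σ)) • innerSL ℝ (F a - F b)), ‖V‖ * ((μ * (‖F b‖ ^ 2 - ‖F a‖ ^ 2) + ‖e a - e y‖ ^ 2 -
    ‖e b - e y‖ ^ 2) / (4 * σ)), fun u hu => ?_⟩
  obtain ⟨p1, p2, p3⟩ := pair_sum hV'n hσp.le hs0.le hu ha1 hb1 hσs
  have e1 : e u - e y - (e a - e y) = e u - e a := by abel
  have e2 : e u - e y - (e b - e y) = e u - e b := by abel
  rw [e1, e2] at p3
  have h3 := hμ u (hnear u hu) a (hnear a p1) b (hnear b p2) hu p1 p2 δ hδp.le p3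
  rw [← e1, ← e2] at h3
  have h4 := polar_ineq (V := V') (δ := δ * s) hσp h3 ha1 hb1
  have e3 : (‖V‖ • ((μ / (2 * σ)) • innerSL ℝ (F a - F b))) (F u) + ‖V‖ * ((μ * (‖F b‖ ^ 2 - ‖F a‖ ^ 2) +
      ‖e a - e y‖ ^ 2 - ‖e b - e y‖ ^ 2) / (4 * σ)) - inner ℝ V (e u - e y) =
      ‖V‖ * ((μ / (2 * σ)) * inner ℝ (F a - F b) (F u) + (μ * (‖F b‖ ^ 2 - ‖F a‖ ^ 2) + ‖e a - e y‖ ^ 2 -
        ‖e b - e y‖ ^ 2) / (4 * σ) - inner ℝ V' (e u - e y)) := by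
    have e4 : inner ℝ V (e u - e y) = ‖V‖ * inner ℝ V' (e u - e y) := by
      rw [hV', inner_smul_left]
      simp only [map_inv₀, conj_trivial]
      field_simp
    rw [e4]
    have e5 : (‖V‖ • ((μ / (2 * σ)) • innerSL ℝ (F a - F b))) (F u) = ‖V‖ * ((μ / (2 * σ)) * inner ℝ (F a - F b) (F u)) :=
      rfl
    rw [e5]
    ring
  rw [e3, abs_mul, abs_of_pos hVn, mul_comm]
  refine mul_le_mul_of_nonneg_right (h4.trans ?_) hVn.le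
  have h5 : ‖e u - e y‖ * (δ * s) / σ ≤ s * (δ * s) / σ := by
    apply div_le_div_of_nonneg_right _ hσp.le
    exact mul_le_mul_of_nonneg_right hu (by positivity)
  have h6 : 4 * η * (1 + δ) * s ^ 2 / (4 * σ) + s * (δ * s) / σ ≤ η' * s := by
    have e6 : 4 * η * (1 + δ) * s ^ 2 / (4 * σ) + s * (δ * s) / σ = (η * (1 + δ) + δ) * s ^ 2 / σ := by
      field_simp
    rw [e6, div_le_iff₀ hσp, hσ]
    have h7 : η * (1 + δ) + δ = η' * (1 - δ) := by linarith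
    rw [h7]
    exact le_of_eq (by ring)
  linarith

theorem TRec_of_WW (he : IsEmbedding e) (hI : ∀ x, Imm (n := n) e x) {S : Set ℝ} {η η' : ℝ} (hη : 0 < η)
    (hηη : η < η') {x : X} (hw : WW e F S η x) : TRec e F S η' x := by
  rcases hw with h | ⟨ε, hε, h1, h2⟩ | ⟨K, h1, h2⟩
  · have h3 := WW.mono (n := n) hηη.le (Or.inl h : WW e F S η x)
    obtain ⟨U, hU, r, hr, h4⟩ := h
    refine TRec_of_CC he ⟨U, hU, r, hr, fun y hy s hs hs0 hsr v hv => ?_⟩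
    obtain ⟨ℓ, c, h5⟩ := h4 y hy s hs hs0 hsr v hv
    exact ⟨ℓ, c, fun u hu hue => (h5 u hu hue).trans (mul_le_mul_of_nonneg_right hηη.le hs0.le)⟩
  · exact TRec_of_Pair he hI hη hηη (Pair_of_CS hε h1 h2)
  · exact TRec_of_Pair he hI hη hηη (Pair_of_BL hη.le h1 h2)

end

end Pool.Agent.H865_small
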