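import Mathlib

/-!
# The radial profile and its moments

The kernel is `ps (‖z‖ ^ 2 / s ^ 2)`, where `ps` is smooth, nonincreasing, equal to `1` up to `ρ ^ 2` and to `0` from
`1` on. Here `om = - ps'`, and the first two absolute moments of `om (‖ζ‖ ^ 2)` in a direction are compared.
-/

set_option autoImplicit false

open Set Filter Topology Metric Function MeasureTheory
open scoped ContDiff

noncomputable section

namespace Pool.Agent.H865_small

/-- Euclidean space of dimension `n`. -/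
abbrev E (n : ℕ) := EuclideanSpace ℝ (Fin n)

/-- the profile -/
def ps (ρ : ℝ) (t : ℝ) : ℝ := Real.smoothTransition ((1 - t) / (1 - ρ ^ 2))

/-- minus the derivative of the profile -/
def om (ρ : ℝ) (t : ℝ) : ℝ := - deriv (ps ρ) t

variable {ρ : ℝ}

theorem ps_contDiff : ContDiff ℝ ∞ (ps ρ) := by
  unfold ps
  exact Real.smoothTransition.contDiff.comp (by fun_prop)

theorem ps_nonneg (t : ℝ) : 0 ≤ ps ρ t := Real.smoothTransition.nonneg _

theorem ps_le_one (t : ℝ) : ps ρ t ≤ 1 := Real.smoothTransition.le_one _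

theorem ps_zero (h1 : ρ ^ 2 < 1) {t : ℝ} (ht : 1 ≤ t) : ps ρ t = 0 := by
  unfold ps
  apply Real.smoothTransition.zero_of_nonpos
  apply div_nonpos_of_nonpos_of_nonneg <;> linarith

theorem ps_pos (h1 : ρ ^ 2 < 1) {t : ℝ} (ht : t < 1) : 0 < ps ρ t := by
  unfold ps
  apply Real.smoothTransition.pos_of_pos
  apply div_pos <;> linarith

theorem ps_one (h1 : ρ ^ 2 < 1) {t : ℝ} (ht : t ≤ ρ ^ 2) : ps ρ t = 1 := by
  unfold ps
  apply Real.smoothTransition.one_of_one_le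
  rw [le_div_iff₀ (by linarith)]
  linarith

theorem ps_antitone (h1 : ρ ^ 2 < 1) : Antitone (ps ρ) := by
  intro a b hab
  unfold ps
  apply Real.smoothTransition.monotone
  apply div_le_div_of_nonneg_right _ (by linarith)
  linarith

theorem hasDerivAt_ps (t : ℝ) : HasDerivAt (ps ρ) (- om ρ t) t := by
  unfold om
  rw [neg_neg]
  exact ((ps_contDiff (ρ := ρ)).differentiable (by simp) t).hasDerivAt

theorem om_nonneg (h1 : ρ ^ 2 < 1) (t : ℝ) : 0 ≤ om ρ t := by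
  unfold om
  rw [neg_nonneg]
  exact (ps_antitone h1).deriv_nonpos

theorem om_contDiff : ContDiff ℝ ∞ (om ρ) := by
  unfold om
  have h : ContDiff ℝ ∞ (deriv (ps ρ)) := by
    exact (contDiff_infty_iff_deriv.1 ps_contDiff).2
  exact h.neg

theorem om_cont : Continuous (om ρ) := om_contDiff.continuous

theorem om_zero_of_lt (h1 : ρ ^ 2 < 1) {t : ℝ} (ht : t < ρ ^ 2) : om ρ t = 0 := by
  unfold om
  rw [neg_eq_zero]
  have h : ps ρ =ᶠ[𝓝 t] fun _ => 1 := by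
    filter_upwards [Iio_mem_nhds ht] with x hx
    exact ps_one h1 (le_of_lt hx)
  rw [h.deriv_eq]
  simp

theorem om_zero_of_one_le (h1 : ρ ^ 2 < 1) {t : ℝ} (ht : 1 ≤ t) : om ρ t = 0 := by
  have h : ∀ t : ℝ, 1 < t → om ρ t = 0 := by
    intro t ht
    unfold om
    rw [neg_eq_zero]
    have h : ps ρ =ᶠ[𝓝 t] fun _ => 0 := by
      filter_upwards [Ioi_mem_nhds ht] with x hx
      exact ps_zero h1 (le_of_lt hx)
    rw [h.deriv_eq]
    simp
  have hc : IsClosed {t : ℝ | om ρ t = 0} := isClosed_eq om_cont continuous_const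
  have h2 : closure (Ioi (1 : ℝ)) ⊆ {t : ℝ | om ρ t = 0} := hc.closure_subset_iff.2 fun t ht => h t ht
  rw [closure_Ioi] at h2
  exact h2 ht

theorem om_exists_pos (h1 : ρ ^ 2 < 1) : ∃ t : ℝ, 0 < t ∧ 0 < om ρ t := by
  by_contra hcon
  push Not at hcon
  have h0 : ∀ t : ℝ, 0 < t → deriv (ps ρ) t = 0 := by
    intro t ht
    have h2 := hcon t ht
    have h3 := om_nonneg h1 t
    have h4 : om ρ t = 0 := le_antisymm h2 h3
    unfold om at h4
    linarith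
  have hd : Differentiable ℝ (ps ρ) := ps_contDiff.differentiable (by simp)
  obtain ⟨c, hc, hc2⟩ := exists_deriv_eq_slope (ps ρ) (show (0 : ℝ) < 1 by norm_num)
    hd.continuous.continuousOn (hd.differentiableOn)
  rw [h0 c hc.1, ps_zero h1 le_rfl, ps_one h1 (sq_nonneg ρ)] at hc2
  norm_num at hc2

variable {n : ℕ}

/-- the integrals are invariant under rotations -/
theorem iso_sq {f : ℝ → ℝ} {a b : E n} (ha : ‖a‖ = 1) (hb : ‖b‖ = 1) :
    ∫ ζ : E n, f (‖ζ‖ ^ 2) * (inner ℝ ζ a) ^ 2 = ∫ ζ : E n, f (‖ζ‖ ^ 2) * (inner ℝ ζ b) ^ 2 := by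
  set R : E n ≃ₗᵢ[ℝ] E n := (ℝ ∙ (a - b))ᗮ.reflection with hR
  have hRa : R a = b := by
    rw [hR]
    exact Submodule.reflection_sub (by rw [ha, hb])
  have h1 : ∫ ζ : E n, f (‖R ζ‖ ^ 2) * (inner ℝ (R ζ) b) ^ 2 = ∫ ζ : E n, f (‖ζ‖ ^ 2) * (inner ℝ ζ b) ^ 2 :=
    (R.measurePreserving).integral_comp' (f := R.toMeasurableEquiv) (fun ζ => f (‖ζ‖ ^ 2) * (inner ℝ ζ b) ^ 2)
  rw [← h1]
  congr 1
  ext ζ
  rw [← hRa, R.norm_map, R.inner_map_map]

theorem om_supp (h1 : ρ ^ 2 < 1) {g : E n → ℝ} (hg : Continuous g) :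
    Continuous (fun ζ : E n => om ρ (‖ζ‖ ^ 2) * g ζ) ∧
      HasCompactSupport (fun ζ : E n => om ρ (‖ζ‖ ^ 2) * g ζ) := by
  refine ⟨(om_cont.comp (by fun_prop)).mul hg, ?_⟩
  apply HasCompactSupport.of_support_subset_isCompact (isCompact_closedBall (0 : E n) 1)
  intro ζ hζ
  rw [mem_closedBall_zero_iff]
  by_contra hcon
  apply hζ
  have : 1 ≤ ‖ζ‖ ^ 2 := by nlinarith [norm_nonneg ζ]
  simp only
  rw [om_zero_of_one_le h1 this, zero_mul]

theorem om_int (h1 : ρ ^ 2 < 1) {g : E n → ℝ} (hg : Continuous g) :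
    Integrable (fun ζ : E n => om ρ (‖ζ‖ ^ 2) * g ζ) :=
  (om_supp h1 hg).1.integrable_of_hasCompactSupport (om_supp h1 hg).2

/-- the second moment in a direction -/
theorem second_moment (h1 : ρ ^ 2 < 1) {a : E n} (ha : ‖a‖ = 1) :
    ρ ^ 2 * ∫ ζ : E n, om ρ (‖ζ‖ ^ 2) ≤ n * ∫ ζ : E n, om ρ (‖ζ‖ ^ 2) * (inner ℝ ζ a) ^ 2 := by
  have hi : ∀ i : Fin n, ∫ ζ : E n, om ρ (‖ζ‖ ^ 2) * (inner ℝ ζ a) ^ 2 =
      ∫ ζ : E n, om ρ (‖ζ‖ ^ 2) * (inner ℝ ζ (EuclideanSpace.single i (1 : ℝ))) ^ 2 :=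
    fun i => iso_sq ha (by simp)
  have h2 : (n : ℝ) * ∫ ζ : E n, om ρ (‖ζ‖ ^ 2) * (inner ℝ ζ a) ^ 2 =
      ∑ i : Fin n, ∫ ζ : E n, om ρ (‖ζ‖ ^ 2) * (inner ℝ ζ (EuclideanSpace.single i (1 : ℝ))) ^ 2 := by
    rw [← Finset.sum_congr rfl fun i _ => hi i]
    simp
  rw [h2, ← integral_finsetSum _ (fun i _ => om_int h1 (by fun_prop)), ← integral_const_mul]
  have hI0 : Integrable (fun ζ : E n => om ρ (‖ζ‖ ^ 2)) := by
    have := om_int (n := n) h1 (g := fun _ => 1) continuous_const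
    simpa using this
  refine integral_mono (hI0.const_mul _) ?_ ?_
  · exact integrable_finsetSum _ (fun i _ => om_int h1 (by fun_prop))
  · intro ζ
    simp only
    rw [← Finset.mul_sum]
    have h3 : ∑ i : Fin n, (inner ℝ ζ (EuclideanSpace.single i (1 : ℝ))) ^ 2 = ‖ζ‖ ^ 2 := by
      rw [EuclideanSpace.norm_sq_eq]
      refine Finset.sum_congr rfl fun i _ => ?_
      rw [EuclideanSpace.inner_single_right]
      simp
    rw [h3]
    rcases lt_or_ge (‖ζ‖ ^ 2) (ρ ^ 2) with h | h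
    · rw [om_zero_of_lt h1 h]; simp
    · have := om_nonneg h1 (‖ζ‖ ^ 2)
      nlinarith

theorem zeroth_pos (h1 : ρ ^ 2 < 1) (hn : 0 < n) : 0 < ∫ ζ : E n, om ρ (‖ζ‖ ^ 2) := by
  obtain ⟨t, ht, hpos⟩ := om_exists_pos h1
  have h2 := om_supp (n := n) h1 (g := fun _ => 1) continuous_const
  simp only [mul_one] at h2
  refine h2.1.integral_pos_of_hasCompactSupport_nonneg_nonzero h2.2 (fun ζ => om_nonneg h1 _)
    (x := √t • EuclideanSpace.single (⟨0, hn⟩ : Fin n) (1 : ℝ)) ?_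
  rw [norm_smul]
  simp only [Real.norm_eq_abs, PiLp.norm_single, norm_one, mul_one, sq_abs]
  rw [Real.sq_sqrt ht.le]
  exact hpos.ne'

/-- The kernel of parameter `ρ` is admissible for the constant `η`. -/
def Adm (n : ℕ) (ρ η : ℝ) : Prop :=
  ∀ a : E n, ‖a‖ = 1 → 0 < ∫ ζ : E n, om ρ (‖ζ‖ ^ 2) * ((inner ℝ ζ a) ^ 2 - η * |inner ℝ ζ a|)

/-- the main inequality for the moments -/
theorem moments (hρ : 0 < ρ) (h1 : ρ ^ 2 < 1) (hn : 0 < n) {η : ℝ} (hη : η < ρ / √n) {a : E n} (ha : ‖a‖ = 1) :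
    0 < ∫ ζ : E n, om ρ (‖ζ‖ ^ 2) * ((inner ℝ ζ a) ^ 2 - η * |inner ℝ ζ a|) := by
  have hn' : (0 : ℝ) < n := by exact_mod_cast hn
  have hs : 0 < √(n : ℝ) := Real.sqrt_pos.2 hn'
  set M0 := ∫ ζ : E n, om ρ (‖ζ‖ ^ 2) with hM0
  set M2 := ∫ ζ : E n, om ρ (‖ζ‖ ^ 2) * (inner ℝ ζ a) ^ 2 with hM2
  set M1 := ∫ ζ : E n, om ρ (‖ζ‖ ^ 2) * |inner ℝ ζ a| with hM1
  have h0 : 0 < M0 := zeroth_pos h1 hn
  have h2 : ρ ^ 2 * M0 ≤ n * M2 := second_moment h1 ha
  have hM2p : 0 < M2 := by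
    have : 0 < n * M2 := lt_of_lt_of_le (by positivity) h2
    exact (mul_pos_iff_of_pos_left hn').1 this
  have hM1n : 0 ≤ M1 := integral_nonneg fun ζ => mul_nonneg (om_nonneg h1 _) (abs_nonneg _)
  -- Cauchy-Schwarz
  have hcs : 2 * (ρ / √n) * M1 ≤ (ρ / √n) ^ 2 * M0 + M2 := by
    have hI0 : Integrable (fun ζ : E n => om ρ (‖ζ‖ ^ 2)) := by
      have := om_int (n := n) h1 (g := fun _ => 1) continuous_const
      simpa using this
    rw [hM0, hM1, hM2, ← integral_const_mul, ← integral_const_mul,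
      ← integral_add (hI0.const_mul _) (om_int h1 (by fun_prop))]
    refine integral_mono ((om_int h1 (by fun_prop)).const_mul _)
      ((hI0.const_mul _).add (om_int h1 (by fun_prop))) fun ζ => ?_
    simp only
    have h3 := om_nonneg h1 (‖ζ‖ ^ 2)
    have h4 : 2 * (ρ / √n) * |inner ℝ ζ a| ≤ (ρ / √n) ^ 2 + (inner ℝ ζ a) ^ 2 := by
      have := sq_nonneg (ρ / √n - |inner ℝ ζ a|)
      have h5 := sq_abs (inner ℝ ζ a)
      nlinarith
    nlinarith
  have h6 : (ρ / √n) ^ 2 * M0 ≤ M2 := by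
    rw [div_pow, Real.sq_sqrt hn'.le, div_mul_eq_mul_div, div_le_iff₀ hn']
    linarith
  have h7 : (ρ / √n) * M1 ≤ M2 := by linarith
  have h8 : ∫ ζ : E n, om ρ (‖ζ‖ ^ 2) * ((inner ℝ ζ a) ^ 2 - η * |inner ℝ ζ a|) = M2 - η * M1 := by
    rw [hM2, hM1, ← integral_const_mul, ← integral_sub (om_int h1 (by fun_prop))
      ((om_int h1 (by fun_prop)).const_mul _)]
    congr 1
    ext ζ
    ring
  rw [h8]
  rcases eq_or_lt_of_le hM1n with h9 | h9
  · rw [← h9]; linarith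
  · have : η * M1 < ρ / √n * M1 := mul_lt_mul_of_pos_right hη h9
    linarith

end Pool.Agent.H865_small
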