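import Pool.Agent.Y522.Basic
import Pool.Agent.H865_small.Prof

/-!
# The optimal constant
-/

set_option autoImplicit false

open Set Filter Topology Metric Function MeasureTheory
open scoped ContDiff

noncomputable section

namespace Pool.Agent.H865_small

open Pool.Agent.Y522 (cn)

variable {ρ : ℝ}

/-- the integral over a line -/
theorem int_line (h1 : ρ ^ 2 < 1) {r : ℝ} (hr : 0 ≤ r) : ∫ t : ℝ, om ρ (t ^ 2 + r) * |t| = ps ρ r := by
  have e1 : ∫ t : ℝ, om ρ (t ^ 2 + r) * |t| = ∫ t : ℝ, (fun t : ℝ => om ρ (t ^ 2 + r) * t) |t| := by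
    congr 1
    funext t
    simp only [sq_abs]
  rw [e1, integral_comp_abs (f := fun t : ℝ => om ρ (t ^ 2 + r) * t)]
  have hd : ∀ t : ℝ, HasDerivAt (fun t : ℝ => - ps ρ (t ^ 2 + r) / 2) (om ρ (t ^ 2 + r) * t) t := by
    intro t
    have h2 : HasDerivAt (fun t : ℝ => t ^ 2 + r) (2 * t) t := by
      have := (hasDerivAt_pow 2 t).add_const r
      simpa using this
    have h3 := ((hasDerivAt_ps (ρ := ρ) (t ^ 2 + r)).comp t h2).neg.div_const 2
    refine h3.congr_deriv ?_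
    ring
  have hc : Continuous fun t : ℝ => om ρ (t ^ 2 + r) * t := (om_cont.comp (by fun_prop)).mul continuous_id
  have hs : HasCompactSupport fun t : ℝ => om ρ (t ^ 2 + r) * t := by
    apply HasCompactSupport.of_support_subset_isCompact (isCompact_Icc (a := (-1 : ℝ)) (b := 1))
    intro t ht
    rw [mem_Icc, ← abs_le]
    by_contra hcon
    apply ht
    have h2 : 1 ≤ t ^ 2 + r := by
      have : 1 < |t| := not_le.1 hcon
      nlinarith [sq_abs t]
    simp only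
    rw [om_zero_of_one_le h1 h2, zero_mul]
  have hlim : Tendsto (fun t : ℝ => - ps ρ (t ^ 2 + r) / 2) atTop (𝓝 0) := by
    refine tendsto_const_nhds.congr' ?_
    filter_upwards [eventually_ge_atTop (1 : ℝ)] with t ht
    rw [ps_zero h1 (by nlinarith)]
    simp
  rw [integral_Ioi_of_hasDerivAt_of_tendsto (hd 0).continuousAt.continuousWithinAt (fun t _ => hd t)
    (hc.integrable_of_hasCompactSupport hs).integrableOn hlim]
  simp
  ring

theorem split_int {k : ℕ} {f : E (k + 1) → ℝ} (hc : Continuous f) (hs : HasCompactSupport f) :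
    ∫ ζ, f ζ = ∫ y : E k, ∫ t : ℝ, f (cn t y) := by
  have h1 : ∫ z : Fin (k + 1) → ℝ, f (WithLp.toLp 2 z) = ∫ ζ, f ζ :=
    (PiLp.volume_preserving_toLp (Fin (k + 1))).integral_comp (MeasurableEquiv.toLp 2 _).measurableEmbedding f
  have hint : Integrable fun z : Fin (k + 1) → ℝ => f (WithLp.toLp 2 z) :=
    ((PiLp.volume_preserving_toLp (Fin (k + 1))).integrable_comp_emb
      (MeasurableEquiv.toLp 2 _).measurableEmbedding).2 (hc.integrable_of_hasCompactSupport hs)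
  have hmp := (volume_preserving_piFinSuccAbove (fun _ : Fin (k + 1) => ℝ) 0).symm
  have h2 : ∫ p : ℝ × (Fin k → ℝ), f (WithLp.toLp 2 ((MeasurableEquiv.piFinSuccAbove (fun _ => ℝ) 0).symm p)) =
      ∫ z : Fin (k + 1) → ℝ, f (WithLp.toLp 2 z) :=
    hmp.integral_comp' (fun z : Fin (k + 1) → ℝ => f (WithLp.toLp 2 z))
  have hint2 : Integrable fun p : ℝ × (Fin k → ℝ) =>
      f (WithLp.toLp 2 ((MeasurableEquiv.piFinSuccAbove (fun _ => ℝ) 0).symm p)) :=
    (hmp.integrable_comp_emb (MeasurableEquiv.piFinSuccAbove (fun _ => ℝ) 0).symm.measurableEmbedding).2 hint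
  have h3 : ∫ w : Fin k → ℝ, ∫ t : ℝ, f (cn t (WithLp.toLp 2 w)) = ∫ y : E k, ∫ t : ℝ, f (cn t y) :=
    (PiLp.volume_preserving_toLp (Fin k)).integral_comp (MeasurableEquiv.toLp 2 _).measurableEmbedding
      (fun y : E k => ∫ t : ℝ, f (cn t y))
  rw [← h1, ← h2, ← h3]
  have h4 := integral_prod_symm _ hint2
  rw [← Measure.volume_eq_prod] at h4
  rw [h4]
  congr 1
  funext w
  congr 1
  funext t
  congr 1
  ext i
  refine Fin.cases ?_ (fun i => ?_) i <;>
    simp [MeasurableEquiv.piFinSuccAbove_symm_apply, Fin.insertNthEquiv, Pool.Agent.Y522.cn_zero, Pool.Agent.Y522.cn_succ]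

/-- the integrals are invariant under rotations -/
theorem iso_abs {n : ℕ} {f : ℝ → ℝ} {a b : E n} (ha : ‖a‖ = 1) (hb : ‖b‖ = 1) :
    ∫ ζ : E n, f (‖ζ‖ ^ 2) * |inner ℝ ζ a| = ∫ ζ : E n, f (‖ζ‖ ^ 2) * |inner ℝ ζ b| := by
  set R : E n ≃ₗᵢ[ℝ] E n := (ℝ ∙ (a - b))ᗮ.reflection with hR
  have hRa : R a = b := by
    rw [hR]
    exact Submodule.reflection_sub (by rw [ha, hb])
  have h1 : ∫ ζ : E n, f (‖R ζ‖ ^ 2) * |inner ℝ (R ζ) b| = ∫ ζ : E n, f (‖ζ‖ ^ 2) * |inner ℝ ζ b| :=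
    (R.measurePreserving).integral_comp' (f := R.toMeasurableEquiv) (fun ζ => f (‖ζ‖ ^ 2) * |inner ℝ ζ b|)
  rw [← h1]
  congr 1
  ext ζ
  rw [← hRa, R.norm_map, R.inner_map_map]

/-- the first absolute moment -/
theorem first_moment (h1 : ρ ^ 2 < 1) {k : ℕ} {a : E (k + 1)} (ha : ‖a‖ = 1) :
    ∫ ζ : E (k + 1), om ρ (‖ζ‖ ^ 2) * |inner ℝ ζ a| = ∫ y : E k, ps ρ (‖y‖ ^ 2) := by
  rw [iso_abs ha (b := EuclideanSpace.single 0 (1 : ℝ)) (by simp)]
  have hg : Continuous fun ζ : E (k + 1) => |inner ℝ ζ (EuclideanSpace.single 0 (1 : ℝ))| := by fun_prop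
  rw [split_int (om_supp h1 hg).1 (om_supp h1 hg).2]
  congr 1
  funext y
  rw [← int_line h1 (sq_nonneg ‖y‖)]
  congr 1
  funext t
  rw [Pool.Agent.Y522.norm_cn_sq, EuclideanSpace.inner_single_right]
  simp [Pool.Agent.Y522.cn_zero]

theorem ps_supp {n : ℕ} (h1 : ρ ^ 2 < 1) : Continuous (fun ζ : E n => ps ρ (‖ζ‖ ^ 2)) ∧
    HasCompactSupport (fun ζ : E n => ps ρ (‖ζ‖ ^ 2)) := by
  refine ⟨ps_contDiff.continuous.comp (by fun_prop), ?_⟩
  apply HasCompactSupport.of_support_subset_isCompact (isCompact_closedBall (0 : E n) 1)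
  intro ζ hζ
  rw [mem_closedBall_zero_iff]
  by_contra hcon
  apply hζ
  have : 1 ≤ ‖ζ‖ ^ 2 := by nlinarith [norm_nonneg ζ]
  simp only
  rw [ps_zero h1 this]

/-- the second moment -/
theorem second_moment' {n : ℕ} (h1 : ρ ^ 2 < 1) {a : E n} (ha : ‖a‖ = 1) :
    ∫ ζ : E n, om ρ (‖ζ‖ ^ 2) * (inner ℝ ζ a) ^ 2 = 1 / 2 * ∫ ζ : E n, ps ρ (‖ζ‖ ^ 2) := by
  have hps := ps_supp (n := n) h1
  have hfd : ∀ x : E n, fderiv ℝ (fun x : E n => ps ρ (‖x‖ ^ 2)) x a = -(2 * (om ρ (‖x‖ ^ 2) * inner ℝ x a)) := by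
    intro x
    have h2 : HasFDerivAt (fun w : E n => ‖w‖ ^ 2) (2 • innerSL ℝ x) x := (hasStrictFDerivAt_norm_sq x).hasFDerivAt
    have h3 := (hasDerivAt_ps (ρ := ρ) (‖x‖ ^ 2)).comp_hasFDerivAt x h2
    have h4 : fderiv ℝ (fun x : E n => ps ρ (‖x‖ ^ 2)) x = (- om ρ (‖x‖ ^ 2)) • 2 • innerSL ℝ x := h3.fderiv
    rw [h4]
    simp
    ring
  have hfd2 : ∀ x : E n, fderiv ℝ (fun x : E n => inner ℝ x a) x a = 1 := by
    intro x
    have h2 : HasFDerivAt (fun x : E n => inner ℝ x a) (innerSL ℝ a) x := by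
      have h3 := (innerSL ℝ a).hasFDerivAt (x := x)
      refine h3.congr_of_eventuallyEq (Eventually.of_forall fun y => ?_)
      simp [real_inner_comm]
    rw [h2.fderiv]
    simp [ha]
  have hdiff1 : Differentiable ℝ fun x : E n => inner ℝ x a := by
    intro x
    by_contra hcon
    have h2 := hfd2 x
    rw [fderiv_zero_of_not_differentiableAt hcon] at h2
    simp at h2
  have hdiff2 : Differentiable ℝ fun x : E n => ps ρ (‖x‖ ^ 2) := fun x =>
    ((ps_contDiff.differentiable (by simp)) _).comp x (hasStrictFDerivAt_norm_sq x).differentiableAt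
  have hib := integral_mul_fderiv_eq_neg_fderiv_mul_of_integrable (μ := (volume : Measure (E n)))
    (f := fun x : E n => inner ℝ x a) (g := fun x : E n => ps ρ (‖x‖ ^ 2)) (v := a) ?_ ?_ ?_
    (fun x _ => hdiff1 x) (fun x _ => hdiff2 x)
  · simp only [hfd, hfd2, one_mul] at hib
    have e1 : ∀ x : E n, inner ℝ x a * -(2 * (om ρ (‖x‖ ^ 2) * inner ℝ x a)) =
        (-2) * (om ρ (‖x‖ ^ 2) * (inner ℝ x a) ^ 2) := fun x => by ring
    simp only [e1] at hib
    rw [integral_const_mul] at hib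
    linarith
  · simp only [hfd2, one_mul]
    exact hps.1.integrable_of_hasCompactSupport hps.2
  · simp only [hfd]
    have e1 : (fun x : E n => inner ℝ x a * -(2 * (om ρ (‖x‖ ^ 2) * inner ℝ x a))) =
        fun x : E n => om ρ (‖x‖ ^ 2) * (-2 * (inner ℝ x a) ^ 2) := by
      funext x
      ring
    rw [e1]
    exact om_int h1 (by fun_prop)
  · have hc : Continuous fun x : E n => inner ℝ x a * ps ρ (‖x‖ ^ 2) := (by fun_prop : Continuous fun x : E n => inner ℝ x a).mul hps.1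
    exact hc.integrable_of_hasCompactSupport hps.2.mul_left

/-- the volume of the unit ball -/
def vol (n : ℕ) : ℝ := (volume (ball (0 : E n) 1)).toReal

theorem ps_int_le {n : ℕ} (h1 : ρ ^ 2 < 1) : ∫ ζ : E n, ps ρ (‖ζ‖ ^ 2) ≤ vol n := by
  have h2 : ∫ ζ : E n, (closedBall (0 : E n) 1).indicator (fun _ => (1 : ℝ)) ζ = vol n := by
    rw [integral_indicator measurableSet_closedBall, setIntegral_const, smul_eq_mul, mul_one]
    unfold vol
    rw [measureReal_def, Measure.addHaar_closedBall _ _ zero_le_one]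
    simp
  rw [← h2]
  refine integral_mono ((ps_supp h1).1.integrable_of_hasCompactSupport (ps_supp h1).2) ?_ fun ζ => ?_
  · rw [integrable_indicator_iff measurableSet_closedBall]
    exact integrableOn_const (hs := measure_closedBall_lt_top.ne)
  · simp only
    by_cases hζ : ζ ∈ closedBall (0 : E n) 1
    · rw [indicator_of_mem hζ]; exact ps_le_one _
    · rw [indicator_of_notMem hζ, ps_zero h1]
      rw [mem_closedBall_zero_iff, not_le] at hζ
      nlinarith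

theorem le_ps_int {n : ℕ} (hρ : 0 < ρ) (h1 : ρ ^ 2 < 1) : ρ ^ n * vol n ≤ ∫ ζ : E n, ps ρ (‖ζ‖ ^ 2) := by
  have h2 : ∫ ζ : E n, (ball (0 : E n) ρ).indicator (fun _ => (1 : ℝ)) ζ = ρ ^ n * vol n := by
    rw [integral_indicator measurableSet_ball, setIntegral_const, smul_eq_mul, mul_one]
    unfold vol
    rw [measureReal_def, Measure.addHaar_ball_of_pos _ _ hρ, finrank_euclideanSpace_fin, ENNReal.toReal_mul,
      ENNReal.toReal_ofReal (by positivity)]
  rw [← h2]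
  refine integral_mono ?_ ((ps_supp h1).1.integrable_of_hasCompactSupport (ps_supp h1).2) fun ζ => ?_
  · rw [integrable_indicator_iff measurableSet_ball]
    exact integrableOn_const (hs := measure_ball_lt_top.ne)
  · simp only
    by_cases hζ : ζ ∈ ball (0 : E n) ρ
    · rw [indicator_of_mem hζ, ps_one h1]
      rw [mem_ball_zero_iff] at hζ
      nlinarith [norm_nonneg ζ]
    · rw [indicator_of_notMem hζ]; exact ps_nonneg _

theorem vol_pos (n : ℕ) : 0 < vol n :=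
  ENNReal.toReal_pos (measure_ball_pos _ _ one_pos).ne' measure_ball_lt_top.ne

/-- **The constant.** -/
theorem adm_exists {k : ℕ} {η : ℝ} (hη0 : 0 ≤ η) (hη : η < vol (k + 1) / (2 * vol k)) :
    ∃ ρ : ℝ, ρ ^ 2 < 1 ∧ Adm (k + 1) ρ η := by
  have hv := vol_pos k
  have hv1 := vol_pos (k + 1)
  rw [lt_div_iff₀ (by positivity)] at hη
  have hlim : Tendsto (fun ρ : ℝ => ρ ^ (k + 1) * vol (k + 1)) (𝓝[<] 1) (𝓝 (1 ^ (k + 1) * vol (k + 1))) := by
    have : Continuous fun ρ : ℝ => ρ ^ (k + 1) * vol (k + 1) := by fun_prop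
    exact (this.tendsto 1).mono_left nhdsWithin_le_nhds
  rw [one_pow, one_mul] at hlim
  have hev : ∀ᶠ ρ in 𝓝[<] (1 : ℝ), 0 < ρ ∧ ρ < 1 := Ioo_mem_nhdsLT (by norm_num)
  obtain ⟨ρ, h2, hρ0, hρ1⟩ := ((hlim.eventually (lt_mem_nhds hη)).and hev).exists
  have h1 : ρ ^ 2 < 1 := by nlinarith
  refine ⟨ρ, h1, fun a ha => ?_⟩
  have e1 : ∫ ζ : E (k + 1), om ρ (‖ζ‖ ^ 2) * ((inner ℝ ζ a) ^ 2 - η * |inner ℝ ζ a|) =
      (∫ ζ : E (k + 1), om ρ (‖ζ‖ ^ 2) * (inner ℝ ζ a) ^ 2) - η * ∫ ζ : E (k + 1), om ρ (‖ζ‖ ^ 2) * |inner ℝ ζ a| := by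
    rw [← integral_const_mul, ← integral_sub (om_int h1 (by fun_prop)) ((om_int h1 (by fun_prop)).const_mul _)]
    congr 1
    ext ζ
    ring
  rw [e1, second_moment' h1 ha, first_moment h1 ha]
  have h3 := le_ps_int (n := k + 1) hρ0 h1
  have h4 := ps_int_le (n := k) h1
  nlinarith

theorem vol_three : vol 3 = Real.pi * 4 / 3 := by
  unfold vol
  rw [EuclideanSpace.volume_ball_fin_three]
  simp
  positivity

theorem vol_four : vol 4 = Real.pi ^ 2 / 2 := by
  unfold vol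
  rw [EuclideanSpace.volume_ball]
  have h1 : Real.Gamma ((Fintype.card (Fin 4) : ℝ) / 2 + 1) = 2 := by
    rw [Fintype.card_fin]
    have : ((4 : ℕ) : ℝ) / 2 + 1 = ((2 : ℕ) : ℝ) + 1 := by norm_num
    rw [this, Real.Gamma_nat_eq_factorial]
    norm_num
  rw [h1, Fintype.card_fin]
  have h2 : √Real.pi ^ 4 = Real.pi ^ 2 := by
    rw [show √Real.pi ^ 4 = (√Real.pi ^ 2) ^ 2 by ring, Real.sq_sqrt Real.pi_pos.le]
  rw [h2]
  simp
  positivity

theorem const_four : vol (3 + 1) / (2 * vol 3) = 3 * Real.pi / 16 := by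
  have h1 : vol (3 + 1) = Real.pi ^ 2 / 2 := vol_four
  rw [h1, vol_three]
  have := Real.pi_pos
  field_simp
  norm_num

end Pool.Agent.H865_small
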