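import Pool.Agent.R765.DMonC
import Pool.Agent.H865_small.Forms
import Pool.Agent.H865_small.Const

/-!
# Homeomorphisms onto the ball which are coarsely affine at small scales: the compact case
-/

set_option autoImplicit false

open Set Filter Topology Metric Function MeasureTheory
open scoped Manifold ContDiff

noncomputable section

namespace Pool.Agent.H865_small

open Pool.Agent.Y522 (LD)
open Pool.Agent.Y833.SH Pool.Agent.Y674.SH

theorem WW.pull {n m : ℕ} {X M : Type} [TopologicalSpace X] [TopologicalSpace M] {ι : X → M} (hι : Continuous ι)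
    {e : M → E m} {f : M → E n} {S : Set ℝ} {η : ℝ} {x : X} (hw : WW e f S η (ι x)) :
    WW (fun x => e (ι x)) (fun x => f (ι x)) S η x := by
  rcases hw with ⟨U, hU, r, hr, h1⟩ | ⟨ε, hε, h1, U, hU, r, hr, h2⟩ | ⟨K, h1, U, hU, κ, h2⟩
  · refine Or.inl ⟨ι ⁻¹' U, hι.continuousAt hU, r, hr, fun y hy s hs hs0 hsr v hv => ?_⟩
    obtain ⟨ℓ, c, h2⟩ := h1 (ι y) hy s hs hs0 hsr v hv
    exact ⟨ℓ, c, fun u hu hue => h2 (ι u) hu hue⟩
  · refine Or.inr (Or.inl ⟨ε, hε, h1, ι ⁻¹' U, hι.continuousAt hU, r, hr, fun y hy s hs hs0 hsr => ?_⟩)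
    obtain ⟨κ, hκ, h3⟩ := h2 (ι y) hy s hs hs0 hsr
    exact ⟨κ, hκ, fun u hu w hw hue hwe => h3 (ι u) hu (ι w) hw hue hwe⟩
  · exact Or.inr (Or.inr ⟨K, h1, ι ⁻¹' U, hι.continuousAt hU, κ, fun u hu w hw => h2 (ι u) hu (ι w) hw⟩)

theorem score (k m : ℕ) (M N X : Type) [TopologicalSpace M] [TopologicalSpace N]
    [TopologicalSpace X]
    [ChartedSpace (EuclideanHalfSpace (k + 1)) M] [ChartedSpace (EuclideanHalfSpace (k + 1)) N]
    [ChartedSpace (E (k + 1)) X]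
    [IsManifold (𝓡∂ (k + 1)) ∞ M] [IsManifold (𝓡∂ (k + 1)) ∞ N] [IsManifold (𝓡 (k + 1)) ∞ X]
    (ι : X → M) (hι : Injective ι) (hιr : range ι = (𝓡∂ (k + 1)).interior M)
    (hιd : ∀ x, IsLocalDiffeomorphAt (𝓡 (k + 1)) (𝓡∂ (k + 1)) ∞ ι x)
    (h : M ≃ₜ closedBall (0 : E (k + 1)) 1) (j : N ≃ₜ closedBall (0 : E (k + 1)) 1)
    (hj : ∀ y ∈ (𝓡∂ (k + 1)).interior N,
      IsLocalDiffeomorphAt (𝓡∂ (k + 1)) (𝓡 (k + 1)) ∞ (fun y => (j y : E (k + 1))) y)
    (hb : ∀ x ∉ (𝓡∂ (k + 1)).interior M,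
      IsLocalDiffeomorphAt (𝓡∂ (k + 1)) (𝓡∂ (k + 1)) ∞ (fun x => j.symm (h x)) x)
    (e : M → E m) (hec : Continuous e) (hei : Injective e)
    (heI : ∀ x ∈ (𝓡∂ (k + 1)).interior M, ∃ A : E (k + 1) → M, A 0 = x ∧
      IsLocalDiffeomorphAt (𝓡 (k + 1)) (𝓡∂ (k + 1)) ∞ A 0 ∧
      (∀ᶠ z in 𝓝 (0 : E (k + 1)), ContDiffAt ℝ ∞ (fun z => e (A z)) z) ∧
      Injective (fderiv ℝ (fun z => e (A z)) 0))
    (S : Set ℝ) (hS : ∀ δ : ℝ, 0 < δ → ∃ s ∈ S, 0 < s ∧ s < δ)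
    (hc : ∀ x ∈ (𝓡∂ (k + 1)).interior M,
      ¬ IsLocalDiffeomorphAt (𝓡∂ (k + 1)) (𝓡 (k + 1)) ∞ (fun x => (h x : E (k + 1))) x →
      ∃ η : ℝ, η < vol (k + 1) / (2 * vol k) ∧ WW e (fun x => (h x : E (k + 1))) S η x) :
    Nonempty (Diffeomorph (𝓡∂ (k + 1)) (𝓡∂ (k + 1)) M N ∞) := by
  classical
  have hK := nonLD_compact k M N X ι hι hιr hιd h j hj hb
  have hMi : ∀ x, x ∈ (𝓡∂ (k + 1)).interior M ↔ ‖(h x : E (k + 1))‖ < 1 :=
    int_iff (𝓡∂ (k + 1)) inferInstance h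
  have : T2Space M := h.symm.t2Space
  have : CompactSpace M := h.symm.compactSpace
  have hιc : Continuous ι := continuous_iff_continuousAt.2 fun x => (hιd x).contMDiffAt.continuousAt
  have : T2Space X := T2Space.of_injective_continuous hι hιc
  have hιo : IsOpenMap ι := IsLocalDiffeomorph.isOpenMap (I := 𝓡 (k + 1)) (J := 𝓡∂ (k + 1))
    (n := ∞) hιd
  have hemb : IsOpenEmbedding ι := IsOpenEmbedding.of_continuous_injective_isOpenMap hιc hι hιo
  have hmem : ∀ x, ι x ∈ (𝓡∂ (k + 1)).interior M := fun x => hιr ▸ mem_range_self x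
  obtain ⟨F, hF⟩ : ∃ F : X → E (k + 1), F = fun x => (h (ι x) : E (k + 1)) := ⟨_, rfl⟩
  have hFe : ∀ x, F x = h (ι x) := fun x => by rw [hF]
  rw [← hF] at hK
  have hFn : ∀ x, ‖F x‖ < 1 := fun x => by rw [hFe]; exact (hMi _).1 (hmem x)
  have hFc : Continuous F := by
    rw [hF]
    exact continuous_subtype_val.comp (h.continuous.comp hιc)
  have hFi : Injective F := by
    intro a b hab
    rw [hFe, hFe] at hab
    exact hι (h.injective (Subtype.ext hab))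
  have hFr : range F = ball 0 1 := by
    ext y
    constructor
    · rintro ⟨x, rfl⟩
      rw [mem_ball_zero_iff]
      exact hFn x
    · intro hy
      rw [mem_ball_zero_iff] at hy
      have hyc : y ∈ closedBall (0 : E (k + 1)) 1 := by
        rw [mem_closedBall_zero_iff]
        exact hy.le
      have h1 : h.symm ⟨y, hyc⟩ ∈ range ι := by
        rw [hιr, hMi, h.apply_symm_apply]
        exact hy
      obtain ⟨x, hx⟩ := h1
      refine ⟨x, ?_⟩
      rw [hFe, hx, h.apply_symm_apply]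
  have hFo : IsOpenMap F := by
    intro U hU
    obtain ⟨W, hW, hWU⟩ := isOpen_induced_iff.1 (h.isOpenMap _ (hιo U hU))
    have : F '' U = W ∩ ball 0 1 := by
      ext y
      constructor
      · rintro ⟨x, hx, rfl⟩
        refine ⟨?_, ?_⟩
        · have : h (ι x) ∈ h '' (ι '' U) := ⟨ι x, ⟨x, hx, rfl⟩, rfl⟩
          rw [← hWU] at this
          rw [hFe]
          exact this
        · rw [mem_ball_zero_iff]
          exact hFn x
      · rintro ⟨h1, h2⟩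
        rw [← hFr] at h2
        obtain ⟨x, rfl⟩ := h2
        have h3 : h (ι x) ∈ Subtype.val ⁻¹' W := by
          rw [mem_preimage, ← hFe]
          exact h1
        rw [hWU] at h3
        obtain ⟨_, ⟨x', hx', rfl⟩, h4⟩ := h3
        refine ⟨x', hx', ?_⟩
        rw [hFe, hFe, h4]
    rw [this]
    exact hW.inter isOpen_ball
  have hFe' : IsOpenEmbedding F := IsOpenEmbedding.of_continuous_injective_isOpenMap hFc hFi hFo
  -- the embedding
  have hee : IsEmbedding fun x : X => e (ι x) :=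
    (hec.isClosedEmbedding hei).isEmbedding.comp hemb.isEmbedding
  have hI : ∀ x : X, Imm (n := k + 1) (fun x : X => e (ι x)) x := by
    intro x
    obtain ⟨A, hA0, hAd, hAs, hAi⟩ := heI (ι x) (hmem x)
    have ha := (hιd x).localInverse_isLocalDiffeomorphAt
    have hax : (hιd x).localInverse (ι x) = x :=
      (hιd x).localInverse_left_inv (hιd x).localInverse_mem_target
    have hA' : LD (k + 1) ((hιd x).localInverse ∘ A) 0 := by
      rw [← hA0] at ha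
      exact IsLocalDiffeomorphAt.comp (𝓡 (k + 1)) X hAd ha
    have hev : ∀ᶠ z in 𝓝 (0 : E (k + 1)), ι ((hιd x).localInverse (A z)) = A z := by
      have h1 : A 0 ∈ (hιd x).localInverse.source := by
        rw [hA0]
        exact (hιd x).localInverse_mem_source
      filter_upwards [hAd.contMDiffAt.continuousAt
        ((hιd x).localInverse.open_source.mem_nhds h1)] with z hz
      exact (hιd x).localInverse_right_inv hz
    have hev2 : ∀ᶠ z in 𝓝 (0 : E (k + 1)),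
        (fun z => e (ι (((hιd x).localInverse ∘ A) z))) =ᶠ[𝓝 z] fun z => e (A z) := by
      filter_upwards [hev.eventually_nhds] with z hz
      filter_upwards [hz] with y hy
      rw [comp_apply, hy]
    refine ⟨(hιd x).localInverse ∘ A, ?_, hA', ?_, ?_⟩
    · rw [comp_apply, hA0, hax]
    · filter_upwards [hAs, hev2] with z hz1 hz2
      exact hz1.congr_of_eventuallyEq hz2
    · have h2 : fderiv ℝ (fun z => e (ι (((hιd x).localInverse ∘ A) z))) 0 = fderiv ℝ (fun z => e (A z)) 0 :=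
        hev2.self_of_nhds.fderiv_eq
      rw [h2]
      exact hAi
  have hW : ∀ x, ¬ LD (k + 1) F x → ∃ η : ℝ, η < vol (k + 1) / (2 * vol k) ∧
      WW (fun x : X => e (ι x)) F S η x := by
    intro x hxF
    obtain ⟨η, hη, hw⟩ := hc (ι x) (hmem x) (fun hld => hxF (by
      have h9 : IsLocalDiffeomorphAt (𝓡 (k + 1)) (𝓡 (k + 1)) ∞
          ((fun x => (h x : E (k + 1))) ∘ ι) x :=
        IsLocalDiffeomorphAt.comp (𝓡 (k + 1)) (E (k + 1)) (hιd x) hld
      rw [hF]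
      exact h9))
    refine ⟨η, hη, ?_⟩
    rw [hF]
    exact WW.pull hιc hw
  have hκ : 0 < vol (k + 1) / (2 * vol k) := by
    have := vol_pos k
    have := vol_pos (k + 1)
    positivity
  obtain ⟨η, hη0, hη1, hη2⟩ := uniform_W (W := fun η x => WW (fun x : X => e (ι x)) F S η x)
    (fun η η' x h1 h2 => WW.mono h1 h2) (fun η x h1 => WW.eventually h1) hκ hK hW
  obtain ⟨η', hη', hη'1⟩ := exists_between hη1
  obtain ⟨ρ, hρ, hA⟩ := adm_exists (hη0.trans hη').le hη'1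
  have hS' : ∃ᶠ s in 𝓝[>] (0 : ℝ), s ∈ S := by
    rw [Filter.frequently_iff]
    intro U hU
    obtain ⟨δ, hδ, hδU⟩ := mem_nhdsGT_iff_exists_Ioo_subset.1 hU
    obtain ⟨s, hs, hs0, hsδ⟩ := hS δ hδ
    exact ⟨s, hδU ⟨hs0, hsδ⟩, hs⟩
  obtain ⟨F', C, hC, -, hF'i, hF'r, hF'C, hF'd⟩ := sglob (ρ := ρ) hρ (hη0.trans hη') hA hFe' hFr hee hI hK hS'
    (fun x hx => TRec_of_WW hee hI hη0 hη' (hη2 x hx))
  refine glue k M N X ι hι hιr hιd h j hj hb F' C hC hF'i ?_ ?_ hF'd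
  · rw [hF'r, hF]
  · intro x hx
    rw [hF'C x hx, hFe]

theorem scompact (k m : ℕ) (M N : Type) [TopologicalSpace M] [TopologicalSpace N]
    [ChartedSpace (EuclideanHalfSpace (k + 1)) M] [ChartedSpace (EuclideanHalfSpace (k + 1)) N]
    [IsManifold (𝓡∂ (k + 1)) ∞ M] [IsManifold (𝓡∂ (k + 1)) ∞ N]
    (h : M ≃ₜ closedBall (0 : E (k + 1)) 1) (j : N ≃ₜ closedBall (0 : E (k + 1)) 1)
    (hj : ∀ y ∈ (𝓡∂ (k + 1)).interior N,
      IsLocalDiffeomorphAt (𝓡∂ (k + 1)) (𝓡 (k + 1)) ∞ (fun y => (j y : E (k + 1))) y)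
    (hb : ∀ x ∉ (𝓡∂ (k + 1)).interior M,
      IsLocalDiffeomorphAt (𝓡∂ (k + 1)) (𝓡∂ (k + 1)) ∞ (fun x => j.symm (h x)) x)
    (e : M → E m) (hec : Continuous e) (hei : Injective e)
    (heI : ∀ x ∈ (𝓡∂ (k + 1)).interior M, ∃ A : E (k + 1) → M, A 0 = x ∧
      IsLocalDiffeomorphAt (𝓡 (k + 1)) (𝓡∂ (k + 1)) ∞ A 0 ∧
      (∀ᶠ z in 𝓝 (0 : E (k + 1)), ContDiffAt ℝ ∞ (fun z => e (A z)) z) ∧
      Injective (fderiv ℝ (fun z => e (A z)) 0))
    (S : Set ℝ) (hS : ∀ δ : ℝ, 0 < δ → ∃ s ∈ S, 0 < s ∧ s < δ)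
    (hc : ∀ x ∈ (𝓡∂ (k + 1)).interior M,
      ¬ IsLocalDiffeomorphAt (𝓡∂ (k + 1)) (𝓡 (k + 1)) ∞ (fun x => (h x : E (k + 1))) x →
      ∃ η : ℝ, η < vol (k + 1) / (2 * vol k) ∧ WW e (fun x => (h x : E (k + 1))) S η x) :
    Nonempty (Diffeomorph (𝓡∂ (k + 1)) (𝓡∂ (k + 1)) M N ∞) := by
  let := csI (M := M) (𝓡∂ (k + 1))
  have := mfI (M := M) (𝓡∂ (k + 1))
  exact score k m M N ((𝓡∂ (k + 1)).interior M) Subtype.val Subtype.val_injective
    Subtype.range_val (fun x => ldiff_val (𝓡∂ (k + 1)) x) h j hj hb e hec hei heI S hS hc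

end Pool.Agent.H865_small
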