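import Pool.Agent.H865_small.Glob2
import Pool.Agent.H865_small.Assembly

/-!
# Continuous maps to the ball: the compact case with control
-/

set_option autoImplicit false

open Set Filter Topology Metric Function MeasureTheory
open scoped Manifold ContDiff

noncomputable section

namespace Pool.Agent.H865_small

open Pool.Agent.Y522 (LD)
open Pool.Agent.Y833.SH Pool.Agent.Y674.SH

/-- a bijective local diffeomorphism is a diffeomorphism -/
theorem exists_diffeo {E₁ H₁ M₁ E₂ H₂ M₂ : Type} [NormedAddCommGroup E₁] [NormedSpace ℝ E₁] [TopologicalSpace H₁]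
    [NormedAddCommGroup E₂] [NormedSpace ℝ E₂] [TopologicalSpace H₂] (I : ModelWithCorners ℝ E₁ H₁)
    (J : ModelWithCorners ℝ E₂ H₂) [TopologicalSpace M₁] [ChartedSpace H₁ M₁] [TopologicalSpace M₂]
    [ChartedSpace H₂ M₂] {f : M₁ → M₂} (hf : IsLocalDiffeomorph I J ∞ f) (hf' : Bijective f) :
    ∃ Φ : Diffeomorph I J M₁ M₂ ∞, ∀ x, Φ x = f x := by
  choose g hgInverse using (Function.bijective_iff_has_inverse).mp hf'
  choose Φ hyp using (fun x ↦ hf x)
  have aux (x) : EqOn g (Φ x).symm (Φ x).target :=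
    eqOn_of_leftInvOn_of_rightInvOn (fun x' _ ↦ hgInverse.1 x')
      (LeftInvOn.congr_left ((Φ x).toOpenPartialHomeomorph).rightInvOn
        ((Φ x).toOpenPartialHomeomorph).mapsTo_symm (hyp x).2.symm)
      (fun _y hy ↦ (Φ x).map_target hy)
  exact ⟨{
    toFun := f
    invFun := g
    left_inv := hgInverse.1
    right_inv := hgInverse.2
    contMDiff_toFun := hf.contMDiff
    contMDiff_invFun := by
      intro y
      let x := g y
      obtain ⟨hx, hfx⟩ := hyp x
      apply ((Φ x).symm.contMDiffOn.congr (aux x)).contMDiffAt (((Φ x).open_target).mem_nhds ?_)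
      have : y = (Φ x) x := ((hgInverse.2 y).congr (hfx hx)).mp rfl
      exact this ▸ (Φ x).map_source hx }, fun x => rfl⟩

theorem final_core (k m : ℕ) (M N X : Type) [TopologicalSpace M] [TopologicalSpace N]
    [TopologicalSpace X] [CompactSpace M] [T2Space M] [ConnectedSpace M]
    [ChartedSpace (EuclideanHalfSpace (k + 1)) M] [ChartedSpace (EuclideanHalfSpace (k + 1)) N]
    [ChartedSpace (E (k + 1)) X]
    [IsManifold (𝓡∂ (k + 1)) ∞ M] [IsManifold (𝓡∂ (k + 1)) ∞ N] [IsManifold (𝓡 (k + 1)) ∞ X]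
    (ι : X → M) (hι : Injective ι) (hιr : range ι = (𝓡∂ (k + 1)).interior M)
    (hιd : ∀ x, IsLocalDiffeomorphAt (𝓡 (k + 1)) (𝓡∂ (k + 1)) ∞ ι x)
    (j : N ≃ₜ closedBall (0 : E (k + 1)) 1)
    (hj : ∀ y ∈ (𝓡∂ (k + 1)).interior N,
      IsLocalDiffeomorphAt (𝓡∂ (k + 1)) (𝓡 (k + 1)) ∞ (fun y => (j y : E (k + 1))) y)
    (g : M → N) (hg : Continuous g)
    (hb : ∀ x ∉ (𝓡∂ (k + 1)).interior M, IsLocalDiffeomorphAt (𝓡∂ (k + 1)) (𝓡∂ (k + 1)) ∞ g x)
    (e : M → E m) (hec : Continuous e) (hei : Injective e)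
    (heI : ∀ x ∈ (𝓡∂ (k + 1)).interior M, ∃ A : E (k + 1) → M, A 0 = x ∧
      IsLocalDiffeomorphAt (𝓡 (k + 1)) (𝓡∂ (k + 1)) ∞ A 0 ∧
      (∀ᶠ z in 𝓝 (0 : E (k + 1)), ContDiffAt ℝ ∞ (fun z => e (A z)) z) ∧
      Injective (fderiv ℝ (fun z => e (A z)) 0))
    (S : Set ℝ) (hS : ∀ δ : ℝ, 0 < δ → ∃ s ∈ S, 0 < s ∧ s < δ)
    (hc : ∀ x ∈ (𝓡∂ (k + 1)).interior M,
      ¬ IsLocalDiffeomorphAt (𝓡∂ (k + 1)) (𝓡 (k + 1)) ∞ (fun x => (j (g x) : E (k + 1))) x →
      ∃ η : ℝ, η < vol (k + 1) / (2 * vol k) ∧ WW e (fun x => (j (g x) : E (k + 1))) S η x)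
    (O : Set M) (hO : IsOpen O) (hbad : ∀ x ∈ (𝓡∂ (k + 1)).interior M,
      ¬ IsLocalDiffeomorphAt (𝓡∂ (k + 1)) (𝓡 (k + 1)) ∞ (fun x => (j (g x) : E (k + 1))) x → x ∈ O)
    (ε : ℝ) (hε : 0 < ε) :
    ∃ Φ : Diffeomorph (𝓡∂ (k + 1)) (𝓡∂ (k + 1)) M N ∞,
      (∀ x, ‖(j (Φ x) : E (k + 1)) - (j (g x) : E (k + 1))‖ < ε) ∧ ∀ x, x ∉ O → Φ x = g x := by
  classical
  have hNi : ∀ x, x ∈ (𝓡∂ (k + 1)).interior N ↔ ‖(j x : E (k + 1))‖ < 1 :=
    int_iff (𝓡∂ (k + 1)) inferInstance j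
  have hιc : Continuous ι := continuous_iff_continuousAt.2 fun x => (hιd x).contMDiffAt.continuousAt
  have : T2Space X := T2Space.of_injective_continuous hι hιc
  have : LocallyCompactSpace X := ChartedSpace.locallyCompactSpace (E (k + 1)) X
  have hιo : IsOpenMap ι := IsLocalDiffeomorph.isOpenMap (I := 𝓡 (k + 1)) (J := 𝓡∂ (k + 1))
    (n := ∞) hιd
  have hemb : IsOpenEmbedding ι := IsOpenEmbedding.of_continuous_injective_isOpenMap hιc hι hιo
  have hmem : ∀ x, ι x ∈ (𝓡∂ (k + 1)).interior M := fun x => hιr ▸ mem_range_self x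
  obtain ⟨F, hF⟩ : ∃ F : X → E (k + 1), F = fun x => (j (g (ι x)) : E (k + 1)) := ⟨_, rfl⟩
  have hFe : ∀ x, F x = j (g (ι x)) := fun x => by rw [hF]
  have hFn : ∀ x, ‖F x‖ ≤ 1 := fun x => by
    rw [hFe, ← mem_closedBall_zero_iff]
    exact (j (g (ι x))).2
  have hFc : Continuous F := by
    rw [hF]
    exact continuous_subtype_val.comp (j.continuous.comp (hg.comp hιc))
  -- interior points at which `g` is a local diffeomorphism
  have hint : ∀ x, IsLocalDiffeomorphAt (𝓡∂ (k + 1)) (𝓡∂ (k + 1)) ∞ g (ι x) → ‖F x‖ < 1 := by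
    intro x hx
    obtain ⟨Φ, hΦ, hΦe⟩ := hx
    obtain ⟨B, hB0, hBi, hBl⟩ := exists_chartB (n := k + 1) x
    have hBc : Continuous B := continuous_iff_continuousAt.2 fun z => (hBl z).continuousAt
    have h1 : (fun z => ι (B z)) ⁻¹' Φ.source ∈ 𝓝 (0 : E (k + 1)) := by
      refine (hιc.comp hBc).continuousAt.preimage_mem_nhds ?_
      simp only [comp_apply, hB0]
      exact Φ.open_source.mem_nhds hΦ
    obtain ⟨r, hr, hball⟩ := nhds_basis_closedBall.mem_iff.1 h1
    have h2 := Pool.Agent.Helper514.IoD.image_mem_nhds (fun z => F (B z)) 0 r hr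
      (hFc.comp hBc).continuousOn (by
        intro a ha b hb hab
        simp only [hFe] at hab
        have h3 := j.injective (Subtype.ext hab)
        rw [hΦe (hball ha), hΦe (hball hb)] at h3
        exact hBi (hι (Φ.injOn (hball ha) (hball hb) h3)))
    simp only [hB0] at h2
    have h3 : F x ∈ interior (closedBall (0 : E (k + 1)) 1) := by
      rw [mem_interior_iff_mem_nhds]
      refine mem_of_superset h2 ?_
      rintro _ ⟨z, -, rfl⟩
      rw [mem_closedBall_zero_iff]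
      exact hFn _
    rw [interior_closedBall (0 : E (k + 1)) one_ne_zero, mem_ball_zero_iff] at h3
    exact h3
  -- local diffeomorphism
  have hld : ∀ x, IsLocalDiffeomorphAt (𝓡∂ (k + 1)) (𝓡∂ (k + 1)) ∞ g (ι x) → LD (k + 1) F x := by
    intro x hx
    have h1 := IsLocalDiffeomorphAt.comp (𝓡∂ (k + 1)) N (hιd x) hx
    have h2 : IsLocalDiffeomorphAt (𝓡∂ (k + 1)) (𝓡 (k + 1)) ∞ (fun y => (j y : E (k + 1)))
        ((g ∘ ι) x) := by
      refine hj _ ((hNi _).2 ?_)
      simp only [comp_apply]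
      rw [← hFe]
      exact hint x hx
    have h3 := IsLocalDiffeomorphAt.comp (𝓡 (k + 1)) (E (k + 1)) h1 h2
    have h4 : (fun y => (j y : E (k + 1))) ∘ g ∘ ι = F := by
      funext y
      simp only [comp_apply]
      rw [hFe]
    rw [h4] at h3
    exact h3
  have hK : IsCompact {x | ¬ LD (k + 1) F x} := by
    rw [hemb.isInducing.isCompact_iff]
    refine IsClosed.isCompact ?_
    rw [← isOpen_compl_iff, isOpen_iff_mem_nhds]
    intro x₀ hx₀
    by_cases hi : x₀ ∈ (𝓡∂ (k + 1)).interior M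
    · rw [← hιr] at hi
      obtain ⟨x, rfl⟩ := hi
      have h1 : LD (k + 1) F x := by
        by_contra h1
        exact hx₀ ⟨x, h1, rfl⟩
      refine mem_of_superset (hιo.image_mem_nhds h1.eventually) ?_
      rintro _ ⟨y, hy, rfl⟩ ⟨y', hy', hyy⟩
      rw [hι hyy] at hy'
      exact hy' hy
    · filter_upwards [ld_eventually (hb x₀ hi)] with y hy
      rintro ⟨x, hx, rfl⟩
      exact hx (hld x hy)
  -- the embedding
  have hee : IsEmbedding fun x : X => e (ι x) :=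
    (hec.isClosedEmbedding hei).isEmbedding.comp hemb.isEmbedding
  have hI : ∀ x : X, Imm (n := k + 1) (fun x : X => e (ι x)) x := by
    intro x
    obtain ⟨A, hA0, hAd, hAs, hAi⟩ := heI (ι x) (hmem x)
    have ha := (hιd x).localInverse_isLocalDiffeomorphAt
    have hax : (hιd x).localInverse (ι x) = x :=
      (hιd x).localInverse_left_inv (hιd x).localInverse_mem_target
    have hA' : LD (k + 1) ((hιd x).localInverse ∘ A) 0 := by
      rw [← hA0] at ha
      exact IsLocalDiffeomorphAt.comp (𝓡 (k + 1)) X hAd ha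
    have hev : ∀ᶠ z in 𝓝 (0 : E (k + 1)), ι ((hιd x).localInverse (A z)) = A z := by
      have h1 : A 0 ∈ (hιd x).localInverse.source := by
        rw [hA0]
        exact (hιd x).localInverse_mem_source
      filter_upwards [hAd.contMDiffAt.continuousAt
        ((hιd x).localInverse.open_source.mem_nhds h1)] with z hz
      exact (hιd x).localInverse_right_inv hz
    have hev2 : ∀ᶠ z in 𝓝 (0 : E (k + 1)),
        (fun z => e (ι (((hιd x).localInverse ∘ A) z))) =ᶠ[𝓝 z] fun z => e (A z) := by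
      filter_upwards [hev.eventually_nhds] with z hz
      filter_upwards [hz] with y hy
      rw [comp_apply, hy]
    refine ⟨(hιd x).localInverse ∘ A, ?_, hA', ?_, ?_⟩
    · rw [comp_apply, hA0, hax]
    · filter_upwards [hAs, hev2] with z hz1 hz2
      exact hz1.congr_of_eventuallyEq hz2
    · have h2 : fderiv ℝ (fun z => e (ι (((hιd x).localInverse ∘ A) z))) 0 = fderiv ℝ (fun z => e (A z)) 0 :=
        hev2.self_of_nhds.fderiv_eq
      rw [h2]
      exact hAi
  have hbadX : ∀ x, ¬ LD (k + 1) F x →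
      ¬ IsLocalDiffeomorphAt (𝓡∂ (k + 1)) (𝓡 (k + 1)) ∞ (fun x => (j (g x) : E (k + 1))) (ι x) := by
    intro x hxF hld
    apply hxF
    have h9 : IsLocalDiffeomorphAt (𝓡 (k + 1)) (𝓡 (k + 1)) ∞
        ((fun x => (j (g x) : E (k + 1))) ∘ ι) x :=
      IsLocalDiffeomorphAt.comp (𝓡 (k + 1)) (E (k + 1)) (hιd x) hld
    rw [hF]
    exact h9
  have hW : ∀ x, ¬ LD (k + 1) F x → ∃ η : ℝ, η < vol (k + 1) / (2 * vol k) ∧
      WW (fun x : X => e (ι x)) F S η x := by
    intro x hxF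
    obtain ⟨η, hη, hw⟩ := hc (ι x) (hmem x) (hbadX x hxF)
    refine ⟨η, hη, ?_⟩
    rw [hF]
    exact WW.pull hιc hw
  have hκ : 0 < vol (k + 1) / (2 * vol k) := by
    have := vol_pos k
    have := vol_pos (k + 1)
    positivity
  obtain ⟨η, hη0, hη1, hη2⟩ := uniform_W (W := fun η x => WW (fun x : X => e (ι x)) F S η x)
    (fun η η' x h1 h2 => WW.mono h1 h2) (fun η x h1 => WW.eventually h1) hκ hK hW
  obtain ⟨η', hη', hη'1⟩ := exists_between hη1
  obtain ⟨ρ, hρ, hA⟩ := adm_exists (hη0.trans hη').le hη'1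
  have hS' : ∃ᶠ s in 𝓝[>] (0 : ℝ), s ∈ S := by
    rw [Filter.frequently_iff]
    intro U hU
    obtain ⟨δ, hδ, hδU⟩ := mem_nhdsGT_iff_exists_Ioo_subset.1 hU
    obtain ⟨s, hs, hs0, hsδ⟩ := hS δ hδ
    exact ⟨s, hδU ⟨hs0, hsδ⟩, hs⟩
  obtain ⟨F', C, hC, hCO, hF'C, hF'd, hF'n0, hF'ε⟩ := sglob2 (ρ := ρ) hρ (hη0.trans hη') hA hFc hFn hee hI hK hS'
    (fun x hx => TRec_of_WW hee hI hη0 hη' (hη2 x hx)) (hO.preimage hιc)
    (fun x hx => hbad (ι x) (hmem x) (hbadX x hx)) hε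
  have hF'n : ∀ x, ‖F' x‖ < 1 := by
    intro x
    have h2 := (hF'd x).image_mem_nhds univ_mem
    have h3 : F' x ∈ interior (closedBall (0 : E (k + 1)) 1) := by
      rw [mem_interior_iff_mem_nhds]
      refine mem_of_superset h2 ?_
      rintro _ ⟨z, -, rfl⟩
      rw [mem_closedBall_zero_iff]
      exact hF'n0 _
    rw [interior_closedBall (0 : E (k + 1)) one_ne_zero, mem_ball_zero_iff] at h3
    exact h3
  obtain ⟨G, hG1, hG2⟩ : ∃ G : M → closedBall (0 : E (k + 1)) 1,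
      (∀ x, (G (ι x) : E (k + 1)) = F' x) ∧ ∀ y, y ∉ range ι → G y = j (g y) := by
    refine ⟨fun y => if hy : ∃ x, ι x = y then ⟨F' hy.choose, by
      rw [mem_closedBall_zero_iff]; exact (hF'n _).le⟩ else j (g y), ?_, ?_⟩
    · intro x
      have hx : ∃ x', ι x' = ι x := ⟨x, rfl⟩
      simp only [dif_pos hx]
      rw [hι hx.choose_spec]
    · intro y hy
      have : ¬ ∃ x, ι x = y := hy
      simp only [dif_neg this]
  have hGoff : ∀ y, y ∉ ι '' C → G y = j (g y) := by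
    intro y hy
    by_cases g1 : y ∈ range ι
    · obtain ⟨x', rfl⟩ := g1
      have g2 : x' ∉ C := fun g2 => hy ⟨x', g2, rfl⟩
      refine Subtype.ext ?_
      rw [hG1, hF'C x' g2, hFe]
    · exact hG2 y g1
  have hloc : IsLocalDiffeomorph (𝓡∂ (k + 1)) (𝓡∂ (k + 1)) ∞ (fun y => j.symm (G y)) := by
    intro y
    by_cases hy : y ∈ range ι
    · obtain ⟨x, rfl⟩ := hy
      have ha := (hιd x).localInverse_isLocalDiffeomorphAt
      have hax : (hιd x).localInverse (ι x) = x :=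
        (hιd x).localInverse_left_inv (hιd x).localInverse_mem_target
      have h1 : LD (k + 1) F' ((hιd x).localInverse (ι x)) := by
        rw [hax]
        exact hF'd x
      have h2 := IsLocalDiffeomorphAt.comp (𝓡 (k + 1)) (E (k + 1)) ha h1
      have hjp : IsLocalDiffeomorphAt (𝓡∂ (k + 1)) (𝓡 (k + 1)) ∞ (fun y => (j y : E (k + 1)))
          (j.symm (G (ι x))) := by
        refine hj _ ((hNi _).2 ?_)
        rw [j.apply_symm_apply, hG1]
        exact hF'n x
      have h3 := hjp.localInverse_isLocalDiffeomorphAt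
      have h4 : (j (j.symm (G (ι x))) : E (k + 1)) = (F' ∘ (hιd x).localInverse) (ι x) := by
        rw [j.apply_symm_apply, hG1, comp_apply, hax]
      beta_reduce at h3
      rw [h4] at h3
      have h5 := IsLocalDiffeomorphAt.comp (𝓡∂ (k + 1)) N h2 h3
      refine ld_congr h5 ?_
      have h6 : (F' ∘ (hιd x).localInverse) (ι x) ∈ hjp.localInverse.source := by
        rw [← h4]
        exact hjp.localInverse_mem_source
      filter_upwards [(hιd x).localInverse.open_source.mem_nhds (hιd x).localInverse_mem_source,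
        h2.contMDiffAt.continuousAt (hjp.localInverse.open_source.mem_nhds h6)] with y' g1 g2
      have g3 : ι ((hιd x).localInverse y') = y' := (hιd x).localInverse_right_inv g1
      have g4 := hjp.localInverse_right_inv g2
      show j.symm (G y') = hjp.localInverse ((F' ∘ (hιd x).localInverse) y')
      rw [Homeomorph.symm_apply_eq]
      refine Subtype.ext ?_
      beta_reduce at g4
      rw [g4, comp_apply, ← hG1, g3]
    · have hyi : y ∉ (𝓡∂ (k + 1)).interior M := by rwa [← hιr]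
      refine ld_congr (hb y hyi) ?_
      have h1 : IsClosed (ι '' C) := (hC.image hιc).isClosed
      have h2 : y ∉ ι '' C := fun h2 => hy (image_subset_range _ _ h2)
      filter_upwards [h1.isOpen_compl.mem_nhds h2] with y' hy'
      rw [hGoff y' hy', j.symm_apply_apply]
  -- bijectivity
  have : T2Space N := j.symm.t2Space
  have : ContractibleSpace (closedBall (0 : E (k + 1)) 1) :=
    (convex_closedBall (0 : E (k + 1)) 1).contractibleSpace ⟨0, by simp⟩
  have : ContractibleSpace N := j.contractibleSpace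
  have : LocallyPathConnectedSpace N := ChartedSpace.locallyPathConnectedSpace (EuclideanHalfSpace (k + 1)) N
  have hbij : Bijective (fun y => j.symm (G y)) := bij_of_local (IsLocalDiffeomorph.isLocalHomeomorph hloc)
  obtain ⟨Φ, hΦ⟩ := exists_diffeo _ _ hloc hbij
  refine ⟨Φ, fun x => ?_, fun x hx => ?_⟩
  · rw [hΦ, j.apply_symm_apply]
    by_cases hy : x ∈ range ι
    · obtain ⟨x, rfl⟩ := hy
      rw [hG1, ← hFe]
      exact hF'ε x
    · rw [hG2 x hy, sub_self, norm_zero]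
      exact hε
  · rw [hΦ]
    have h2 : x ∉ ι '' C := by
      rintro ⟨x', hx', rfl⟩
      exact hx (hCO hx')
    rw [hGoff x h2, j.symm_apply_apply]

theorem final (k m : ℕ) (M N : Type) [TopologicalSpace M] [TopologicalSpace N]
    [CompactSpace M] [T2Space M] [ConnectedSpace M]
    [ChartedSpace (EuclideanHalfSpace (k + 1)) M] [ChartedSpace (EuclideanHalfSpace (k + 1)) N]
    [IsManifold (𝓡∂ (k + 1)) ∞ M] [IsManifold (𝓡∂ (k + 1)) ∞ N]
    (j : N ≃ₜ closedBall (0 : E (k + 1)) 1)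
    (hj : ∀ y ∈ (𝓡∂ (k + 1)).interior N,
      IsLocalDiffeomorphAt (𝓡∂ (k + 1)) (𝓡 (k + 1)) ∞ (fun y => (j y : E (k + 1))) y)
    (g : M → N) (hg : Continuous g)
    (hb : ∀ x ∉ (𝓡∂ (k + 1)).interior M, IsLocalDiffeomorphAt (𝓡∂ (k + 1)) (𝓡∂ (k + 1)) ∞ g x)
    (e : M → E m) (hec : Continuous e) (hei : Injective e)
    (heI : ∀ x ∈ (𝓡∂ (k + 1)).interior M, ∃ A : E (k + 1) → M, A 0 = x ∧
      IsLocalDiffeomorphAt (𝓡 (k + 1)) (𝓡∂ (k + 1)) ∞ A 0 ∧
      (∀ᶠ z in 𝓝 (0 : E (k + 1)), ContDiffAt ℝ ∞ (fun z => e (A z)) z) ∧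
      Injective (fderiv ℝ (fun z => e (A z)) 0))
    (S : Set ℝ) (hS : ∀ δ : ℝ, 0 < δ → ∃ s ∈ S, 0 < s ∧ s < δ)
    (hc : ∀ x ∈ (𝓡∂ (k + 1)).interior M,
      ¬ IsLocalDiffeomorphAt (𝓡∂ (k + 1)) (𝓡 (k + 1)) ∞ (fun x => (j (g x) : E (k + 1))) x →
      ∃ η : ℝ, η < vol (k + 1) / (2 * vol k) ∧ WW e (fun x => (j (g x) : E (k + 1))) S η x)
    (O : Set M) (hO : IsOpen O) (hbad : ∀ x ∈ (𝓡∂ (k + 1)).interior M,
      ¬ IsLocalDiffeomorphAt (𝓡∂ (k + 1)) (𝓡 (k + 1)) ∞ (fun x => (j (g x) : E (k + 1))) x → x ∈ O)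
    (ε : ℝ) (hε : 0 < ε) :
    ∃ Φ : Diffeomorph (𝓡∂ (k + 1)) (𝓡∂ (k + 1)) M N ∞,
      (∀ x, ‖(j (Φ x) : E (k + 1)) - (j (g x) : E (k + 1))‖ < ε) ∧ ∀ x, x ∉ O → Φ x = g x := by
  let := csI (M := M) (𝓡∂ (k + 1))
  have := mfI (M := M) (𝓡∂ (k + 1))
  exact final_core k m M N ((𝓡∂ (k + 1)).interior M) Subtype.val Subtype.val_injective
    Subtype.range_val (fun x => ldiff_val (𝓡∂ (k + 1)) x) j hj g hg hb e hec hei heI S hS hc O hO hbad ε hε

end Pool.Agent.H865_small
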