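import Pool.Agent.H865_small.Lin

/-!
# The limit of the averages for small radii
-/

set_option autoImplicit false

open Set Filter Topology Metric Function MeasureTheory
open scoped ContDiff

noncomputable section

namespace Pool.Agent.H865_small

variable {n m : ℕ} {ρ : ℝ}

/-- change of variables -/
theorem scale_int {f : E n → ℝ} (ζ : E n) {s : ℝ} (hs : 0 < s) :
    (s ^ n)⁻¹ * ∫ z, f z = ∫ ξ, f (ζ + s • ξ) := by
  have h1 : ∫ ξ, f (ζ + s • ξ) = |(s ^ Module.finrank ℝ (E n))⁻¹| • ∫ z, f (ζ + z) :=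
    Measure.integral_comp_smul volume (fun z => f (ζ + z)) s
  rw [h1, integral_add_left_eq_self, finrank_euclideanSpace_fin, abs_of_pos (by positivity), smul_eq_mul]

theorem lim_main {q : E n → E m} (hq : Continuous q) (hqi : Injective q) {z0 : E n} {J : E n →L[ℝ] E m}
    (hJd : HasStrictFDerivAt q J z0) (hJ : Injective J) {β : E n → ℝ} (hβ : Continuous β)
    (hβs : ∀ z, 1 < ‖z‖ → β z = 0) {φ : E m → E m → ℝ} (hφ : Continuous (uncurry φ))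
    (hφ0 : ∀ x V, 1 ≤ ‖x‖ → φ x V = 0) (V0 : E m) :
    Tendsto (fun p : ℝ × E n × E m => (p.1 ^ n)⁻¹ * ∫ z, β z * φ (p.1⁻¹ • (q z - q p.2.1)) p.2.2)
      (𝓝[>] 0 ×ˢ 𝓝 z0 ×ˢ 𝓝 V0) (𝓝 (β z0 * ∫ ξ, φ (J ξ) V0)) := by
  obtain ⟨c, hc, hlow⟩ := lower_lip hq hqi hJd hJ
  -- bounds
  have hβc : HasCompactSupport β := by
    apply HasCompactSupport.of_support_subset_isCompact (isCompact_closedBall (0 : E n) 1)
    intro ζ hζ
    rw [mem_closedBall_zero_iff]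
    by_contra hcon
    exact hζ (hβs ζ (not_le.1 hcon))
  obtain ⟨B1, hB1⟩ := hβ.bounded_above_of_compact_support hβc
  obtain ⟨B2, hB2⟩ := ((isCompact_closedBall (0 : E m) 1).prod (isCompact_closedBall V0 1)).exists_bound_of_continuousOn
    hφ.continuousOn
  have hB1n : 0 ≤ B1 := (norm_nonneg _).trans (hB1 0)
  have hB2n : 0 ≤ B2 := (norm_nonneg _).trans (hB2 (0, V0) ⟨by simp, by simp⟩)
  have hφB : ∀ x V, V ∈ closedBall V0 1 → ‖φ x V‖ ≤ B2 := by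
    intro x V hV
    rcases le_or_gt 1 ‖x‖ with h | h
    · rw [hφ0 x V h, norm_zero]; exact hB2n
    · exact hB2 (x, V) ⟨by rw [mem_closedBall_zero_iff]; exact h.le, hV⟩
  have hev : ∀ᶠ p : ℝ × E n × E m in 𝓝[>] 0 ×ˢ 𝓝 z0 ×ˢ 𝓝 V0, 0 < p.1 ∧
      (∀ z : E n, ‖z‖ ≤ 1 → c * ‖z - p.2.1‖ ≤ ‖q z - q p.2.1‖) ∧ p.2.2 ∈ closedBall V0 1 := by
    have h1 : ∀ᶠ p : ℝ × E n × E m in 𝓝[>] 0 ×ˢ 𝓝 z0 ×ˢ 𝓝 V0, 0 < p.1 :=
      tendsto_fst.eventually (self_mem_nhdsWithin)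
    have h2 : ∀ᶠ p : ℝ × E n × E m in 𝓝[>] 0 ×ˢ 𝓝 z0 ×ˢ 𝓝 V0,
        ∀ z : E n, ‖z‖ ≤ 1 → c * ‖z - p.2.1‖ ≤ ‖q z - q p.2.1‖ :=
      (tendsto_fst.comp tendsto_snd).eventually hlow
    have h3 : ∀ᶠ p : ℝ × E n × E m in 𝓝[>] 0 ×ˢ 𝓝 z0 ×ˢ 𝓝 V0, p.2.2 ∈ closedBall V0 1 :=
      (tendsto_snd.comp tendsto_snd).eventually (closedBall_mem_nhds V0 one_pos)
    filter_upwards [h1, h2, h3] with p h1 h2 h3
    exact ⟨h1, h2, h3⟩
  have hcong : (fun p : ℝ × E n × E m => (p.1 ^ n)⁻¹ * ∫ z, β z * φ (p.1⁻¹ • (q z - q p.2.1)) p.2.2)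
      =ᶠ[𝓝[>] 0 ×ˢ 𝓝 z0 ×ˢ 𝓝 V0] fun p => ∫ ξ, β (p.2.1 + p.1 • ξ) *
        φ (p.1⁻¹ • (q (p.2.1 + p.1 • ξ) - q p.2.1)) p.2.2 := by
    filter_upwards [hev] with p hp
    exact scale_int (f := fun z => β z * φ (p.1⁻¹ • (q z - q p.2.1)) p.2.2) p.2.1 hp.1
  rw [tendsto_congr' hcong, ← integral_const_mul]
  refine tendsto_integral_filter_of_dominated_convergence
    (bound := fun ξ => (closedBall (0 : E n) (1 / c)).indicator (fun _ => B1 * B2) ξ) ?_ ?_ ?_ ?_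
  · filter_upwards [hev] with p hp
    have : Continuous fun ξ : E n => β (p.2.1 + p.1 • ξ) * φ (p.1⁻¹ • (q (p.2.1 + p.1 • ξ) - q p.2.1)) p.2.2 := by
      refine (hβ.comp (by fun_prop)).mul ?_
      exact hφ.comp (Continuous.prodMk (by fun_prop) continuous_const)
    exact this.aestronglyMeasurable
  · filter_upwards [hev] with p hp
    refine Eventually.of_forall fun ξ => ?_
    obtain ⟨hs, h2, h3⟩ := hp
    by_cases hξ : ξ ∈ closedBall (0 : E n) (1 / c)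
    · rw [indicator_of_mem hξ, norm_mul]
      exact mul_le_mul (hB1 _) (hφB _ _ h3) (norm_nonneg _) hB1n
    · rw [indicator_of_notMem hξ]
      rw [mem_closedBall_zero_iff, not_le, div_lt_iff₀ hc] at hξ
      rw [norm_le_zero_iff]
      rcases lt_or_ge 1 ‖p.2.1 + p.1 • ξ‖ with h | h
      · rw [hβs _ h, zero_mul]
      · rw [hφ0 _ _ ?_, mul_zero]
        have h4 := h2 _ h
        rw [add_sub_cancel_left, norm_smul, Real.norm_eq_abs, abs_of_pos hs] at h4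
        rw [norm_smul, norm_inv, Real.norm_eq_abs, abs_of_pos hs]
        rw [le_inv_mul_iff₀ hs, mul_one]
        nlinarith
  · rw [integrable_indicator_iff measurableSet_closedBall]
    exact integrableOn_const (hs := measure_closedBall_lt_top.ne)
  · refine Eventually.of_forall fun ξ => ?_
    have t1 : Tendsto (fun p : ℝ × E n × E m => p.2.1 + p.1 • ξ) (𝓝[>] 0 ×ˢ 𝓝 z0 ×ˢ 𝓝 V0) (𝓝 z0) := by
      have h1 : Tendsto (fun p : ℝ × E n × E m => p.2.1) (𝓝[>] 0 ×ˢ 𝓝 z0 ×ˢ 𝓝 V0) (𝓝 z0) :=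
        tendsto_fst.comp tendsto_snd
      have h2 : Tendsto (fun p : ℝ × E n × E m => p.1) (𝓝[>] 0 ×ˢ 𝓝 z0 ×ˢ 𝓝 V0) (𝓝 0) :=
        tendsto_fst.mono_right nhdsWithin_le_nhds
      have h3 := h1.add (h2.smul_const ξ)
      simpa using h3
    have t2 : Tendsto (fun p : ℝ × E n × E m => p.1⁻¹ • (q (p.2.1 + p.1 • ξ) - q p.2.1))
        (𝓝[>] 0 ×ˢ 𝓝 z0 ×ˢ 𝓝 V0) (𝓝 (J ξ)) := by
      have h1 : Tendsto (fun p : ℝ × E n × E m => p.2.1) (𝓝[>] 0 ×ˢ 𝓝 z0 ×ˢ 𝓝 V0) (𝓝 z0) :=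
        tendsto_fst.comp tendsto_snd
      have h2 : Tendsto (fun p : ℝ × E n × E m => (p.2.1 + p.1 • ξ, p.2.1)) (𝓝[>] 0 ×ˢ 𝓝 z0 ×ˢ 𝓝 V0)
          (𝓝 (z0, z0)) := by
        rw [nhds_prod_eq]
        exact t1.prodMk h1
      have h3 := hJd.isLittleO.comp_tendsto h2
      rw [tendsto_iff_norm_sub_tendsto_zero]
      rw [Metric.tendsto_nhds]
      intro ε hε
      have h4 := h3.def (show 0 < ε / (‖ξ‖ + 1) by positivity)
      filter_upwards [h4, hev] with p hp hp2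
      simp only [comp_apply, add_sub_cancel_left, map_smul] at hp
      rw [dist_zero_right, norm_norm]
      have hs := hp2.1
      have h5 : p.1⁻¹ • (q (p.2.1 + p.1 • ξ) - q p.2.1) - J ξ =
          p.1⁻¹ • (q (p.2.1 + p.1 • ξ) - q p.2.1 - p.1 • J ξ) := by
        rw [smul_sub p.1⁻¹ _ (p.1 • J ξ), smul_smul, inv_mul_cancel₀ hs.ne', one_smul]
      rw [h5, norm_smul, norm_inv, Real.norm_eq_abs, abs_of_pos hs]
      rw [norm_smul, Real.norm_eq_abs, abs_of_pos hs] at hp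
      calc p.1⁻¹ * ‖q (p.2.1 + p.1 • ξ) - q p.2.1 - p.1 • J ξ‖ ≤ p.1⁻¹ * (ε / (‖ξ‖ + 1) * (p.1 * ‖ξ‖)) :=
            mul_le_mul_of_nonneg_left hp (by positivity)
        _ = ε * (‖ξ‖ / (‖ξ‖ + 1)) := by field_simp
        _ < ε * 1 := by
            apply mul_lt_mul_of_pos_left _ hε
            rw [div_lt_one (by positivity)]
            linarith
        _ = ε := mul_one _
    have t3 : Tendsto (fun p : ℝ × E n × E m => p.2.2) (𝓝[>] 0 ×ˢ 𝓝 z0 ×ˢ 𝓝 V0) (𝓝 V0) :=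
      tendsto_snd.comp tendsto_snd
    have t4 : Tendsto (fun p : ℝ × E n × E m => φ (p.1⁻¹ • (q (p.2.1 + p.1 • ξ) - q p.2.1)) p.2.2)
        (𝓝[>] 0 ×ˢ 𝓝 z0 ×ˢ 𝓝 V0) (𝓝 (φ (J ξ) V0)) := by
      have h := (hφ.tendsto (J ξ, V0)).comp ((nhds_prod_eq (x := J ξ) (y := V0)) ▸ t2.prodMk t3)
      exact h
    exact ((hβ.tendsto z0).comp t1).mul t4

end Pool.Agent.H865_small
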