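import Pool.Agent.H865_small.Main
import Pool.Agent.H865_small.Lim

/-!
# The uniform lower bound for small radii
-/

set_option autoImplicit false

open Set Filter Topology Metric Function MeasureTheory
open scoped ContDiff

noncomputable section

namespace Pool.Agent.H865_small

variable {n m : ℕ} {ρ : ℝ} {ι : Type} [Fintype ι]

/-- the scaled integral of `φ` around `p` -/
def Ti (β : E n → ℝ) (φ : E m → E m → ℝ) (q : E n → E m) (s : ℝ) (p V : E m) : ℝ :=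
  (s ^ n)⁻¹ * ∫ z, β z * φ (s⁻¹ • (q z - p)) V

theorem lim_i {β : E n → ℝ} (hβ : Continuous β) (hβ0 : ∀ z, 0 ≤ β z) (hβs : ∀ z, 1 < ‖z‖ → β z = 0)
    {q q0 : E n → E m} (hq : ContDiff ℝ ∞ q) (hqi : Injective q) (hqd : ∀ z, Injective (fderiv ℝ q z))
    (hq0 : ContDiff ℝ ∞ q0) (hqd0 : ∀ z, Injective (fderiv ℝ q0 z)) {ζ v : E n}
    (hd : (∃ θ : E n → E n, ContinuousAt θ ζ ∧ (∀ᶠ y in 𝓝 ζ, q (θ y) = q0 y) ∧
      ∃ w, fderiv ℝ q (θ ζ) w = fderiv ℝ q0 ζ v) ∨ q0 ζ ∉ q '' closedBall 0 1) :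
    ∃ (b : ℝ) (J : E n →L[ℝ] E m) (w : E n), 0 ≤ b ∧ Injective J ∧ J w = fderiv ℝ q0 ζ v ∧
      ((∃ ξ, ‖ξ‖ < 1 ∧ q ξ = q0 ζ ∧ 0 < β ξ) → 0 < b) ∧
      ∀ φ : E m → E m → ℝ, Continuous (uncurry φ) → (∀ x V, 1 ≤ ‖x‖ → φ x V = 0) →
        Tendsto (fun t : ℝ × E n × E n => Ti β φ q t.1 (q0 t.2.1) (fderiv ℝ q0 t.2.1 t.2.2))
          (𝓝[>] 0 ×ˢ 𝓝 ζ ×ˢ 𝓝 v) (𝓝 (b * ∫ ξ, φ (J ξ) (fderiv ℝ q0 ζ v))) := by
  have tV : Tendsto (fun t : ℝ × E n × E n => fderiv ℝ q0 t.2.1 t.2.2) (𝓝[>] 0 ×ˢ 𝓝 ζ ×ˢ 𝓝 v)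
      (𝓝 (fderiv ℝ q0 ζ v)) := by
    have h1 : Continuous fun p : E n × E n => fderiv ℝ q0 p.1 p.2 :=
      ((hq0.continuous_fderiv (by simp)).comp continuous_fst).clm_apply continuous_snd
    have h2 := h1.tendsto (ζ, v)
    rw [nhds_prod_eq] at h2
    exact h2.comp tendsto_snd
  have tζ : Tendsto (fun t : ℝ × E n × E n => t.2.1) (𝓝[>] 0 ×ˢ 𝓝 ζ ×ˢ 𝓝 v) (𝓝 ζ) :=
    tendsto_fst.comp tendsto_snd
  rcases hd with ⟨θ, hθ, hev, w, hw⟩ | hfar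
  · refine ⟨β (θ ζ), fderiv ℝ q (θ ζ), w, hβ0 _, hqd _, hw, ?_, ?_⟩
    · rintro ⟨ξ, hξ, hξ2, hξ3⟩
      have h1 : q (θ ζ) = q0 ζ := hev.self_of_nhds
      have h2 : ξ = θ ζ := hqi (by rw [hξ2, h1])
      rw [← h2]
      exact hξ3
    · intro φ hφ hφ0
      have hmain := lim_main hq.continuous hqi (z0 := θ ζ) (J := fderiv ℝ q (θ ζ))
        (hq.contDiffAt.hasStrictFDerivAt (by simp)) (hqd _) hβ hβs hφ hφ0 (fderiv ℝ q0 ζ v)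
      have t1 : Tendsto (fun t : ℝ × E n × E n => (t.1, θ t.2.1, fderiv ℝ q0 t.2.1 t.2.2))
          (𝓝[>] 0 ×ˢ 𝓝 ζ ×ˢ 𝓝 v) (𝓝[>] 0 ×ˢ 𝓝 (θ ζ) ×ˢ 𝓝 (fderiv ℝ q0 ζ v)) :=
        tendsto_fst.prodMk ((hθ.tendsto.comp tζ).prodMk tV)
      have h2 := hmain.comp t1
      refine h2.congr' ?_
      filter_upwards [tζ.eventually hev] with t ht
      simp only [comp_apply, Ti, ht]
  · refine ⟨0, fderiv ℝ q0 ζ, v, le_rfl, hqd0 _, rfl, ?_, ?_⟩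
    · rintro ⟨ξ, hξ, hξ2, -⟩
      exact absurd ⟨ξ, by rw [mem_closedBall_zero_iff]; exact hξ.le, hξ2⟩ hfar
    · intro φ hφ hφ0
      rw [zero_mul]
      have hcl : IsClosed (q '' closedBall (0 : E n) 1) :=
        ((isCompact_closedBall _ _).image hq.continuous).isClosed
      have hdist : 0 < infDist (q0 ζ) (q '' closedBall (0 : E n) 1) :=
        (hcl.notMem_iff_infDist_pos ⟨q 0, 0, by simp, rfl⟩).1 hfar
      obtain ⟨δ, hδ⟩ : ∃ δ, δ = infDist (q0 ζ) (q '' closedBall (0 : E n) 1) := ⟨_, rfl⟩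
      have hδp : 0 < δ := hδ ▸ hdist
      have hev1 : ∀ᶠ y in 𝓝 ζ, ‖q0 y - q0 ζ‖ < δ / 2 := by
        have h1 : Tendsto (fun y => ‖q0 y - q0 ζ‖) (𝓝 ζ) (𝓝 ‖q0 ζ - q0 ζ‖) := by
          have : Continuous fun y => ‖q0 y - q0 ζ‖ := by
            have := hq0.continuous
            fun_prop
          exact this.tendsto ζ
        rw [sub_self, norm_zero] at h1
        exact h1.eventually (gt_mem_nhds (by positivity))
      have hev2 : ∀ᶠ s in 𝓝[>] (0 : ℝ), 0 < s ∧ s < δ / 2 :=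
        Ioo_mem_nhdsGT (by positivity)
      refine tendsto_const_nhds.congr' ?_
      filter_upwards [tζ.eventually hev1, (tendsto_fst (f := 𝓝[>] (0 : ℝ)) (g := 𝓝 ζ ×ˢ 𝓝 v)).eventually hev2]
        with t ht1 ht2
      unfold Ti
      have hz : ∀ z, β z * φ (t.1⁻¹ • (q z - q0 t.2.1)) (fderiv ℝ q0 t.2.1 t.2.2) = 0 := by
        intro z
        rcases lt_or_ge 1 ‖z‖ with h | h
        · rw [hβs z h, zero_mul]
        · have h1 : δ ≤ ‖q0 ζ - q z‖ := by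
            rw [hδ, ← dist_eq_norm]
            exact infDist_le_dist_of_mem ⟨z, by rw [mem_closedBall_zero_iff]; exact h, rfl⟩
          have h2 : ‖q0 ζ - q z‖ ≤ ‖q0 t.2.1 - q0 ζ‖ + ‖q z - q0 t.2.1‖ := by
            have h3 : q0 ζ - q z = -(q0 t.2.1 - q0 ζ) - (q z - q0 t.2.1) := by abel
            rw [h3]
            refine (norm_sub_le _ _).trans ?_
            rw [norm_neg]
          rw [hφ0 _ _ ?_, mul_zero]
          rw [norm_smul, norm_inv, Real.norm_eq_abs, abs_of_pos ht2.1, le_inv_mul_iff₀ ht2.1, mul_one]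
          linarith [ht2.2]
      simp only [hz, integral_zero, mul_zero]

/-- the uniform lower bound -/
theorem main_low (h1 : ρ ^ 2 < 1) {η : ℝ} (hA : Adm n ρ η)
    {β : E n → ℝ} (hβ : Continuous β) (hβ0 : ∀ z, 0 ≤ β z) (hβs : ∀ z, 1 < ‖z‖ → β z = 0)
    {q : ι → E n → E m} {g : ι → E n → E n} (hq : ∀ i, ContDiff ℝ ∞ (q i)) (hg : ∀ i, Continuous (g i))
    (hqi : ∀ i, Injective (q i)) (hqd : ∀ i z, Injective (fderiv ℝ (q i) z)) (i0 : ι) {ζ v : E n} (hζ : ‖ζ‖ < 1)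
    (hβζ : 0 < β ζ) (hv : v ≠ 0)
    (hd : ∀ i, (∃ θ : E n → E n, ContinuousAt θ ζ ∧ (∀ᶠ y in 𝓝 ζ, q i (θ y) = q i0 y) ∧
      ∃ w, fderiv ℝ (q i) (θ ζ) w = fderiv ℝ (q i0) ζ v) ∨ q i0 ζ ∉ q i '' closedBall 0 1) :
    ∃ c0 : ℝ, 0 < c0 ∧ ∀ᶠ t : ℝ × E n × E n in 𝓝[>] 0 ×ˢ 𝓝 ζ ×ˢ 𝓝 v, 0 < Zs ρ β q t.1 (q i0 t.2.1) →
      ∀ (ℓ : E n →L[ℝ] ℝ) (c : ℝ), (∀ i z, ‖z‖ ≤ 1 → ‖q i z - q i0 t.2.1‖ ≤ t.1 →
        |ℓ (g i z) + c - inner ℝ (fderiv ℝ (q i0) t.2.1 t.2.2) (q i z - q i0 t.2.1)| ≤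
          η * t.1 * ‖fderiv ℝ (q i0) t.2.1 t.2.2‖) →
        c0 ≤ ℓ (fderiv ℝ (Gs ρ β q g t.1) (q i0 t.2.1) (fderiv ℝ (q i0) t.2.1 t.2.2)) := by
  have hex := fun i => lim_i hβ hβ0 hβs (hq i) (hqi i) (hqd i) (hq i0) (hqd i0) (hd i)
  choose b J w hb hJ hJw hbpos hlim using hex
  obtain ⟨V, hV⟩ : ∃ V, V = fderiv ℝ (q i0) ζ v := ⟨_, rfl⟩
  have hV0 : V ≠ 0 := by
    intro h
    apply hv
    apply hqd i0 ζ
    rw [map_zero, ← hV, h]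
  have hw0 : ∀ i, w i ≠ 0 := by
    intro i h
    apply hV0
    rw [hV, ← hJw i, h, map_zero]
  rw [← hV] at hJw hlim
  have hb0 : 0 < b i0 := hbpos i0 ⟨ζ, hζ, rfl, hβζ⟩
  have hL2 : 0 < ∑ i, b i * ∫ ξ, φ2 ρ η (J i ξ) V := by
    refine Finset.sum_pos' (fun i _ => ?_) ⟨i0, Finset.mem_univ _, ?_⟩
    · have := int_φ2_pos hA (hJ i) (hw0 i)
      rw [hJw] at this
      exact mul_nonneg (hb i) this.le
    · have := int_φ2_pos hA (hJ i0) (hw0 i0)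
      rw [hJw] at this
      exact mul_pos hb0 this
  have hL0 : 0 < ∑ i, b i * ∫ ξ, φ0 ρ (J i ξ) V := by
    refine Finset.sum_pos' (fun i _ => ?_) ⟨i0, Finset.mem_univ _, ?_⟩
    · exact mul_nonneg (hb i) (int_φ0_pos h1 (hJ i) V).le
    · exact mul_pos hb0 (int_φ0_pos h1 (hJ i0) V)
  have hL1 : ∑ i, b i * ∫ ξ, φ1 ρ (J i ξ) V = 0 :=
    Finset.sum_eq_zero fun i _ => by rw [int_φ1_zero, mul_zero]
  have t0 := tendsto_finsetSum Finset.univ fun i _ => hlim i (φ0 ρ) φ0_cont (φ0_zero h1)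
  have t1 := tendsto_finsetSum Finset.univ fun i _ => hlim i (φ1 ρ) φ1_cont (φ1_zero h1)
  have t2 := tendsto_finsetSum Finset.univ fun i _ => hlim i (φ2 ρ η) (φ2_cont η) (φ2_zero h1 η)
  rw [hL1] at t1
  have tV : Tendsto (fun t : ℝ × E n × E n => fderiv ℝ (q i0) t.2.1 t.2.2) (𝓝[>] 0 ×ˢ 𝓝 ζ ×ˢ 𝓝 v)
      (𝓝 V) := by
    have h1 : Continuous fun p : E n × E n => fderiv ℝ (q i0) p.1 p.2 :=
      (((hq i0).continuous_fderiv (by simp)).comp continuous_fst).clm_apply continuous_snd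
    have h2 := h1.tendsto (ζ, v)
    rw [nhds_prod_eq] at h2
    rw [hV]
    exact h2.comp tendsto_snd
  obtain ⟨L2, hL2e⟩ : ∃ L2, L2 = ∑ i, b i * ∫ ξ, φ2 ρ η (J i ξ) V := ⟨_, rfl⟩
  obtain ⟨L0, hL0e⟩ : ∃ L0, L0 = ∑ i, b i * ∫ ξ, φ0 ρ (J i ξ) V := ⟨_, rfl⟩
  rw [← hL2e] at t2 hL2
  rw [← hL0e] at t0 hL0
  have tR := (((tendsto_const_nhds (x := (2 : ℝ))).div t0 hL0.ne')).mul (t2.sub (((tendsto_const_nhds (x := 1 + η)).mul tV.norm).mul t1.abs))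
  have hlimval : 2 / L0 * (L2 - (1 + η) * ‖V‖ * |0|) = 2 * L2 / L0 := by
    rw [abs_zero, mul_zero, sub_zero]; ring
  rw [hlimval] at tR
  refine ⟨L2 / L0, by positivity, ?_⟩
  have hlt : L2 / L0 < 2 * L2 / L0 := by
    have : 0 < L2 / L0 := by positivity
    have e : 2 * L2 / L0 = L2 / L0 + L2 / L0 := by ring
    linarith
  have hpos : ∀ᶠ t : ℝ × E n × E n in 𝓝[>] 0 ×ˢ 𝓝 ζ ×ˢ 𝓝 v, 0 < t.1 :=
    (tendsto_fst (f := 𝓝[>] (0 : ℝ)) (g := 𝓝 ζ ×ˢ 𝓝 v)).eventually self_mem_nhdsWithin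
  filter_upwards [tR.eventually (lt_mem_nhds hlt), hpos] with t ht hs hZ ℓ c hc
  have h3 := deriv_low hβ hβ0 hβs h1 hq hg hs hZ ℓ c hc
  refine le_trans (le_of_lt ht) (le_trans (le_of_eq ?_) h3)
  have hsn : 0 < t.1 ^ n := by positivity
  have e : ∀ φ : E m → E m → ℝ, ∑ i, ∫ z, β z * φ (t.1⁻¹ • (q i z - q i0 t.2.1)) (fderiv ℝ (q i0) t.2.1 t.2.2) =
      t.1 ^ n * ∑ i, Ti β φ (q i) t.1 (q i0 t.2.1) (fderiv ℝ (q i0) t.2.1 t.2.2) := by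
    intro φ
    rw [Finset.mul_sum]
    refine Finset.sum_congr rfl fun i _ => ?_
    unfold Ti
    rw [← mul_assoc, mul_inv_cancel₀ hsn.ne', one_mul]
  rw [e, e, e, abs_mul, abs_of_pos hsn]
  simp only [Pi.div_apply]
  field_simp

end Pool.Agent.H865_small
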