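import Pool.Agent.Y522.Tools
import Pool.Agent.H865_small.Low

/-!
# Charts and immersions into Euclidean space
-/

set_option autoImplicit false

open Set Filter Topology Metric Function MeasureTheory
open scoped Manifold ContDiff

noncomputable section

namespace Pool.Agent.H865_small

open Pool.Agent.Y522 (LD)

section

variable {n m : ℕ} {X : Type} [TopologicalSpace X] [ChartedSpace (E n) X]

/-- inverse function theorem for an injective derivative -/
theorem LD_of_inj {f : E n → E n} {x : E n} (hf : ∀ᶠ y in 𝓝 x, ContDiffAt ℝ ∞ f y)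
    (hi : ∀ v, ‖v‖ = 1 → fderiv ℝ f x v ≠ 0) : LD n f x := by
  have hinj : Injective (fderiv ℝ f x) := by
    rw [injective_iff_map_eq_zero]
    intro v hv
    by_contra h0
    have hn : 0 < ‖v‖ := norm_pos_iff.2 h0
    apply hi (‖v‖⁻¹ • v)
    · rw [norm_smul, norm_inv, norm_norm, inv_mul_cancel₀ hn.ne']
    · rw [map_smul, hv, smul_zero]
  let A : E n ≃L[ℝ] E n :=
    (LinearEquiv.ofInjectiveEndo (fderiv ℝ f x).toLinearMap hinj).toContinuousLinearEquiv
  refine Pool.Agent.Y522.LD_of_contDiffAt hf A ?_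
  have h1 : HasFDerivAt f (fderiv ℝ f x) x := (hf.self_of_nhds.differentiableAt (by simp)).hasFDerivAt
  refine h1.congr_fderiv ?_
  ext v i
  rfl

/-- cancelling a local diffeomorphism -/
theorem LD_of_comp {f : X → E n} {B : E n → X} {ζ : E n} (hB : LD n B ζ) (h : LD n (fun z => f (B z)) ζ) :
    LD n f (B ζ) := by
  obtain ⟨p, hp, hp0, -, hp2⟩ := hB.exists_inverse
  have h1 : LD n (fun y => f (B (p y))) (B ζ) := by
    have h2 : LD n (fun z => f (B z)) (p (B ζ)) := by rw [hp0]; exact h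
    exact Pool.Agent.Y522.LD.comp_fun (g := fun z => f (B z)) h2 hp
  refine h1.congr ?_
  filter_upwards [hp2] with y hy
  rw [hy]

/-- global charts around a point -/
theorem exists_chartB [IsManifold (𝓡 n) ∞ X] (x : X) :
    ∃ B : E n → X, B 0 = x ∧ Injective B ∧ ∀ z, LD n B z := by
  obtain ⟨c, hc⟩ : ∃ c : OpenPartialHomeomorph X (E n), c = chartAt (E n) x := ⟨_, rfl⟩
  have hcm : c ∈ IsManifold.maximalAtlas (𝓡 n) ∞ X := by
    rw [hc]; exact IsManifold.chart_mem_maximalAtlas x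
  have hxs : x ∈ c.source := by rw [hc]; exact mem_chart_source _ x
  obtain ⟨δ, hδ, hδ2⟩ := Metric.isOpen_iff.1 c.open_target (c x) (c.map_source hxs)
  refine ⟨fun z => c.symm (OpenPartialHomeomorph.univBall (c x) δ z), ?_, ?_, ?_⟩
  · simp only
    rw [OpenPartialHomeomorph.univBall_apply_zero, c.left_inv hxs]
  · intro a b hab
    have hm : ∀ z : E n, OpenPartialHomeomorph.univBall (c x) δ z ∈ ball (c x) δ := by
      intro z
      rw [← OpenPartialHomeomorph.univBall_target (c x) hδ]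
      exact OpenPartialHomeomorph.map_source _ (by simp)
    have h1 := c.symm.injOn (hδ2 (hm a)) (hδ2 (hm b)) hab
    exact (OpenPartialHomeomorph.univBall (c x) δ).injOn (by simp) (by simp) h1
  · intro z
    have hm : OpenPartialHomeomorph.univBall (c x) δ z ∈ ball (c x) δ := by
      rw [← OpenPartialHomeomorph.univBall_target (c x) hδ]
      exact OpenPartialHomeomorph.map_source _ (by simp)
    have h1 : LD n c.symm (OpenPartialHomeomorph.univBall (c x) δ z) :=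
      ⟨{ toPartialEquiv := c.symm.toPartialEquiv
         open_source := c.open_target
         open_target := c.open_source
         contMDiffOn_toFun := contMDiffOn_symm_of_mem_maximalAtlas hcm
         contMDiffOn_invFun := contMDiffOn_of_mem_maximalAtlas hcm }, hδ2 hm, fun _ _ => rfl⟩
    have h2 : LD n (OpenPartialHomeomorph.univBall (c x) δ) z := by
      refine ⟨{ toPartialEquiv := (OpenPartialHomeomorph.univBall (c x) δ).toPartialEquiv
                open_source := (OpenPartialHomeomorph.univBall (c x) δ).open_source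
                open_target := (OpenPartialHomeomorph.univBall (c x) δ).open_target
                contMDiffOn_toFun := ?_
                contMDiffOn_invFun := ?_ }, ?_, fun _ _ => rfl⟩
      · exact (OpenPartialHomeomorph.contDiff_univBall (c := c x) (r := δ)).contMDiff.contMDiffOn
      · refine ContMDiffOn.mono (s := ball (c x) δ) ?_ ?_
        · exact (OpenPartialHomeomorph.contDiffOn_univBall_symm (c := c x) (r := δ)).contMDiffOn
        · rw [OpenPartialHomeomorph.univBall_target (c x) hδ]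
      · change z ∈ (OpenPartialHomeomorph.univBall (c x) δ).source
        simp
    exact Pool.Agent.Y522.LD.comp_fun h1 h2

/-- `e` is a smooth immersion at `x` -/
def Imm (e : X → E m) (x : X) : Prop :=
  ∃ A : E n → X, A 0 = x ∧ LD n A 0 ∧ (∀ᶠ z in 𝓝 (0 : E n), ContDiffAt ℝ ∞ (fun z => e (A z)) z) ∧
    Injective (fderiv ℝ (fun z => e (A z)) 0)

theorem imm_smooth {e : X → E m} {B : E n → X} {z : E n} (h : Imm (n := n) e (B z)) (hB : LD n B z) :
    ContDiffAt ℝ ∞ (fun z => e (B z)) z ∧ Injective (fderiv ℝ (fun z => e (B z)) z) := by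
  obtain ⟨A, hA0, hA, hs, hi⟩ := h
  obtain ⟨p, hp, hp0, -, hp2⟩ := hA.exists_inverse
  rw [hA0] at hp hp0 hp2
  have hθ : LD n (fun y => p (B y)) z := Pool.Agent.Y522.LD.comp_fun hp hB
  have hev : (fun y => e (B y)) =ᶠ[𝓝 z] fun y => (fun w => e (A w)) (p (B y)) := by
    filter_upwards [hB.continuousAt.eventually hp2] with y hy
    simp only [hy]
  have hθs : ContDiffAt ℝ ∞ (fun y => p (B y)) z := hθ.contDiffAt
  have hsz : ContDiffAt ℝ ∞ (fun w => e (A w)) (p (B z)) := by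
    rw [hp0]; exact hs.self_of_nhds
  have hcomp : ContDiffAt ℝ ∞ (fun y => (fun w => e (A w)) (p (B y))) z :=
    ContDiffAt.comp (g := fun w => e (A w)) (f := fun y => p (B y)) z hsz hθs
  refine ⟨hcomp.congr_of_eventuallyEq hev, ?_⟩
  obtain ⟨L, hL⟩ := hθ.exists_equiv
  have h1 : HasFDerivAt (fun y => (fun w => e (A w)) (p (B y)))
      ((fderiv ℝ (fun w => e (A w)) (p (B z))).comp (L : E n →L[ℝ] E n)) z :=
    HasFDerivAt.comp (g := fun w => e (A w)) (f := fun y => p (B y)) z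
      (hsz.differentiableAt (by simp)).hasFDerivAt hL
  rw [hev.fderiv_eq, h1.fderiv, hp0]
  exact hi.comp L.injective

/-- transition between two charts -/
theorem exists_theta {B B0 : E n → X} {ζ ξ : E n} (hB : LD n B ξ) (hB0 : LD n B0 ζ) (h : B ξ = B0 ζ) :
    ∃ θ : E n → E n, LD n θ ζ ∧ θ ζ = ξ ∧ ∀ᶠ y in 𝓝 ζ, B (θ y) = B0 y := by
  obtain ⟨p, hp, hp0, -, hp2⟩ := hB.exists_inverse
  rw [h] at hp hp0 hp2
  exact ⟨fun y => p (B0 y), Pool.Agent.Y522.LD.comp_fun hp hB0, hp0, hB0.continuousAt.eventually hp2⟩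

/-- the alternative for two charts -/
theorem chart_alt {e : X → E m} (hei : Injective e) {B B0 : E n → X} (hB : ∀ z, LD n B z) (hB0 : ∀ z, LD n B0 z)
    (hq : ContDiff ℝ ∞ fun z => e (B z)) (ζ v : E n) :
    (∃ θ : E n → E n, ContinuousAt θ ζ ∧ (∀ᶠ y in 𝓝 ζ, e (B (θ y)) = e (B0 y)) ∧
      ∃ w, fderiv ℝ (fun z => e (B z)) (θ ζ) w = fderiv ℝ (fun z => e (B0 z)) ζ v) ∨
      e (B0 ζ) ∉ (fun z => e (B z)) '' closedBall 0 1 := by
  by_cases hr : ∃ ξ, B ξ = B0 ζ
  · left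
    obtain ⟨ξ, hξ⟩ := hr
    obtain ⟨θ, hθ, hθ0, hev⟩ := exists_theta (hB ξ) (hB0 ζ) hξ
    refine ⟨θ, hθ.continuousAt, ?_, fderiv ℝ θ ζ v, ?_⟩
    · filter_upwards [hev] with y hy
      rw [hy]
    · have h1 : (fun z => e (B0 z)) =ᶠ[𝓝 ζ] fun z => (fun w => e (B w)) (θ z) := by
        filter_upwards [hev] with y hy
        simp only [hy]
      have h2 : HasFDerivAt (fun z => (fun w => e (B w)) (θ z))
          ((fderiv ℝ (fun w => e (B w)) (θ ζ)).comp (fderiv ℝ θ ζ)) ζ :=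
        (hq.differentiable (by simp) _).hasFDerivAt.comp ζ (hθ.contDiffAt.differentiableAt (by simp)).hasFDerivAt
      rw [h1.fderiv_eq, h2.fderiv]
      rfl
  · right
    rintro ⟨z, -, hz⟩
    exact hr ⟨z, hei hz⟩

/-- compactness of the unit sphere -/
theorem all_dirs {P : ℝ → E n → E n → Prop} {ζ : E n}
    (h : ∀ v : E n, ‖v‖ = 1 → ∀ᶠ t : ℝ × E n × E n in 𝓝[>] 0 ×ˢ 𝓝 ζ ×ˢ 𝓝 v, P t.1 t.2.1 t.2.2) :
    ∀ᶠ t : ℝ × E n in 𝓝[>] 0 ×ˢ 𝓝 ζ, ∀ v : E n, ‖v‖ = 1 → P t.1 t.2 v := by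
  have h1 : ∀ v ∈ sphere (0 : E n) 1, {t : (ℝ × E n) × E n | P t.1.1 t.1.2 t.2} ∈ (𝓝[>] (0 : ℝ) ×ˢ 𝓝 ζ) ×ˢ 𝓝 v := by
    intro v hv
    have h2 := h v (by simpa using hv)
    have h3 : Tendsto (fun t : (ℝ × E n) × E n => (t.1.1, t.1.2, t.2)) ((𝓝[>] (0 : ℝ) ×ˢ 𝓝 ζ) ×ˢ 𝓝 v)
        (𝓝[>] 0 ×ˢ 𝓝 ζ ×ˢ 𝓝 v) :=
      (tendsto_fst.comp tendsto_fst).prodMk ((tendsto_snd.comp tendsto_fst).prodMk tendsto_snd)
    exact h3.eventually h2
  have h2 := (isCompact_sphere (0 : E n) 1).mem_prod_nhdsSet_of_forall h1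
  obtain ⟨U, hU, V, hV, hUV⟩ := Filter.mem_prod_iff.1 h2
  filter_upwards [hU] with t ht v hv
  exact hUV (show (t, v) ∈ U ×ˢ V from ⟨ht, subset_of_mem_nhdsSet hV (by simpa using hv)⟩)

omit [ChartedSpace (E n) X] in
/-- the points which `e` maps close to a point -/
theorem emb_near {e : X → E m} (he : IsEmbedding e) {B : E n → X} {ζ : E n} (hB : ContinuousAt B ζ) {U : Set X}
    (hU : U ∈ 𝓝 (B ζ)) : ∀ᶠ t : ℝ × E n in 𝓝[>] 0 ×ˢ 𝓝 ζ, ∀ u : X, ‖e u - e (B t.2)‖ ≤ t.1 → u ∈ U := by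
  rw [he.nhds_eq_comap] at hU
  obtain ⟨W, hW, hWU⟩ := Filter.mem_comap.1 hU
  obtain ⟨δ, hδ, hδ2⟩ := Metric.mem_nhds_iff.1 hW
  have h1 : ∀ᶠ y in 𝓝 ζ, e (B y) ∈ ball (e (B ζ)) (δ / 2) :=
    (he.continuous.continuousAt.comp hB).eventually (ball_mem_nhds _ (by positivity))
  have h2 : ∀ᶠ s in 𝓝[>] (0 : ℝ), s < δ / 2 :=
    mem_of_superset (Ioo_mem_nhdsGT (show (0 : ℝ) < δ / 2 by positivity)) fun s hs => hs.2
  filter_upwards [(tendsto_fst (f := 𝓝[>] (0 : ℝ)) (g := 𝓝 ζ)).eventually h2,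
    (tendsto_snd (f := 𝓝[>] (0 : ℝ)) (g := 𝓝 ζ)).eventually h1] with t ht1 ht2 u hu
  apply hWU
  rw [mem_preimage]
  apply hδ2
  rw [mem_ball, dist_eq_norm] at ht2 ⊢
  have h3 : e u - e (B ζ) = (e u - e (B t.2)) + (e (B t.2) - e (B ζ)) := by abel
  rw [h3]
  refine (norm_add_le _ _).trans_lt ?_
  linarith

end

end Pool.Agent.H865_small
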