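import Pool.Agent.H865_small.Good
import Pool.Agent.Y899.SH.Cover

/-!
# Smoothing of homeomorphisms which recover the linear coordinates of an embedding
-/

set_option autoImplicit false

open Set Filter Topology Metric Function MeasureTheory
open scoped Manifold ContDiff

noncomputable section

namespace Pool.Agent.H865_small

open Pool.Agent.Y522 (LD)

variable {n m : ℕ} {ρ : ℝ} {X : Type} [TopologicalSpace X] [ChartedSpace (E n) X]
  {β : E n → ℝ} {e : X → E m} {F : X → E n}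

omit [ChartedSpace (E n) X] in
/-- a uniform constant -/
theorem uniform_W {W : ℝ → X → Prop} (hmono : ∀ η η' x, η ≤ η' → W η x → W η' x)
    (hev : ∀ η x, W η x → ∀ᶠ y in 𝓝 x, W η y) {κ : ℝ} (hκ : 0 < κ) {K : Set X} (hK : IsCompact K)
    (h : ∀ x ∈ K, ∃ η : ℝ, η < κ ∧ W η x) : ∃ η : ℝ, 0 < η ∧ η < κ ∧ ∀ x ∈ K, W η x := by
  refine hK.induction_on (p := fun S => ∃ η : ℝ, 0 < η ∧ η < κ ∧ ∀ x ∈ S, W η x) ?_ ?_ ?_ ?_
  · exact ⟨κ / 2, by positivity, by linarith, fun x hx => absurd hx (notMem_empty x)⟩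
  · rintro s t hst ⟨η, h1, h2, h3⟩
    exact ⟨η, h1, h2, fun x hx => h3 x (hst hx)⟩
  · rintro s t ⟨η, h1, h2, h3⟩ ⟨η', h1', h2', h3'⟩
    refine ⟨max η η', lt_max_of_lt_left h1, max_lt h2 h2', ?_⟩
    rintro x (hx | hx)
    · exact hmono _ _ _ (le_max_left _ _) (h3 x hx)
    · exact hmono _ _ _ (le_max_right _ _) (h3' x hx)
  · intro x hx
    obtain ⟨η, h1, h2⟩ := h x hx
    refine ⟨_, mem_nhdsWithin_of_mem_nhds (hev _ _ h2), max η (κ / 2), ?_, ?_, ?_⟩
    · exact lt_max_of_lt_right (by positivity)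
    · exact max_lt h1 (by linarith)
    · intro y hy
      exact hmono _ _ _ (le_max_left _ _) hy

theorem Gs_norm {ι : Type} [Fintype ι] (hβ : Continuous β) (hβ0 : ∀ z, 0 ≤ β z) (hβs : ∀ z, 1 < ‖z‖ → β z = 0)
    {q : ι → E n → E m} {g : ι → E n → E n} (hq : ∀ i, Continuous (q i)) (hg : ∀ i, Continuous (g i))
    (hg1 : ∀ i z, ‖g i z‖ < 1) (s : ℝ) {p : E m} (hZ : 0 < Zs ρ β q s p) : ‖Gs ρ β q g s p‖ < 1 := by
  have hsupp := bump_supp hβs
  have hR : ∀ i, ∃ R : ℝ, 0 ≤ R ∧ R < 1 ∧ ∀ z : E n, ‖z‖ ≤ 1 → ‖g i z‖ ≤ R := by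
    intro i
    obtain ⟨z0, -, hz0⟩ := (isCompact_closedBall (0 : E n) 1).exists_isMaxOn ⟨0, by simp⟩ (hg i).norm.continuousOn
    refine ⟨‖g i z0‖, norm_nonneg _, hg1 i z0, fun z hz => hz0 ?_⟩
    rwa [mem_closedBall_zero_iff]
  choose R hR0 hR1 hR2 using hR
  have hint : ∀ i, Integrable fun z => β z * kf ρ s (q i z - p) := by
    intro i
    have hw : Continuous fun z => q i z - p := (hq i).sub continuous_const
    have hcc : Continuous fun z => β z * kf ρ s (q i z - p) := hβ.mul ((kf_cont s).comp hw)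
    have hss : HasCompactSupport fun z => β z * kf ρ s (q i z - p) := hsupp.mul_right
    exact hcc.integrable_of_hasCompactSupport hss
  have hnn : ∀ i, 0 ≤ ∫ z, β z * kf ρ s (q i z - p) := fun i =>
    integral_nonneg fun z => mul_nonneg (hβ0 z) (ps_nonneg _)
  have hterm : ∀ i, ‖∫ z, (β z * kf ρ s (q i z - p)) • g i z‖ ≤ R i * ∫ z, β z * kf ρ s (q i z - p) := by
    intro i
    rw [← integral_const_mul]
    refine norm_integral_le_of_norm_le ((hint i).const_mul _) (Eventually.of_forall fun z => ?_)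
    have hkn : 0 ≤ β z * kf ρ s (q i z - p) := mul_nonneg (hβ0 z) (ps_nonneg _)
    rw [norm_smul, Real.norm_eq_abs, abs_of_nonneg hkn]
    rcases lt_or_ge 1 ‖z‖ with h | h
    · rw [hβs z h]; simp
    · rw [mul_comm]
      exact mul_le_mul_of_nonneg_right (hR2 i z h) hkn
  have hZ' : 0 < ∑ i, ∫ z, β z * kf ρ s (q i z - p) := hZ
  have hlt : ‖Ns ρ β q g s p‖ < Zs ρ β q s p := by
    unfold Ns Zs
    refine (norm_sum_le _ _).trans_lt ((Finset.sum_le_sum fun i _ => hterm i).trans_lt ?_)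
    obtain ⟨i, -, hi⟩ := Finset.exists_lt_of_sum_lt (s := Finset.univ) (f := fun _ => (0 : ℝ))
      (g := fun i => ∫ z, β z * kf ρ s (q i z - p)) (by simpa using hZ')
    refine Finset.sum_lt_sum (fun i _ => ?_) ⟨i, Finset.mem_univ _, ?_⟩
    · have := hnn i
      nlinarith [hR1 i]
    · have := hR1 i
      nlinarith
  unfold Gs
  rw [norm_smul, norm_inv, Real.norm_eq_abs, abs_of_pos hZ, inv_mul_lt_iff₀ hZ, mul_one]
  exact hlt

/-- **Smoothing.** -/
theorem sglob [T2Space X] [IsManifold (𝓡 n) ∞ X] (h1 : ρ ^ 2 < 1) {η : ℝ} (hη0 : 0 < η) (hA : Adm n ρ η)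
    (hFe : IsOpenEmbedding F) (hFr : range F = ball 0 1)
    (he : IsEmbedding e) (hI : ∀ x, Imm (n := n) e x) (hK : IsCompact {x | ¬ LD n F x}) {S : Set ℝ}
    (hS : ∃ᶠ s in 𝓝[>] (0 : ℝ), s ∈ S) (hη2 : ∀ x, ¬ LD n F x → TRec e F S η x) :
    ∃ (F' : X → E n) (C : Set X), IsCompact C ∧ Continuous F' ∧ Injective F' ∧
      range F' = range F ∧ (∀ p, p ∉ C → F' p = F p) ∧ ∀ x, LD n F' x := by
  have hF := hFe.continuous
  obtain ⟨β, hβe⟩ : ∃ β : E n → ℝ, β = fun z => max 0 (1 - ‖z‖) := ⟨_, rfl⟩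
  have hβ : Continuous β := by rw [hβe]; fun_prop
  have hβ0 : ∀ z, 0 ≤ β z := fun z => by rw [hβe]; exact le_max_left _ _
  have hβs : ∀ z, 1 < ‖z‖ → β z = 0 := fun z hz => by rw [hβe]; exact max_eq_left (by linarith)
  have hβp : ∀ z, ‖z‖ < 1 → 0 < β z := fun z hz => by
    rw [hβe]; exact lt_max_of_lt_right (by linarith)
  -- the charts
  choose Bx hBx0 hBxi hBxl using fun x : X => exists_chartB (n := n) x
  have hBo : ∀ x, IsOpen (Bx x '' ball 0 1) := fun x =>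
    Pool.Agent.Y522.isOpen_image_of_LD isOpen_ball fun z _ => hBxl x z
  obtain ⟨t, htK⟩ := hK.elim_finite_subcover (fun x => Bx x '' ball 0 1) hBo (by
    intro x _
    exact mem_iUnion.2 ⟨x, 0, by simp, hBx0 x⟩)
  obtain ⟨B, hBe⟩ : ∃ B : t → E n → X, B = fun i : t => Bx i.1 := ⟨_, rfl⟩
  have hBi : ∀ i, Injective (B i) := fun i => by rw [hBe]; exact hBxi _
  have hBl : ∀ i z, LD n (B i) z := fun i z => by rw [hBe]; exact hBxl _ z
  obtain ⟨W, hW⟩ : ∃ W, W = ⋃ i : t, B i '' ball 0 1 := ⟨_, rfl⟩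
  have hWo : IsOpen W := by
    rw [hW]
    exact isOpen_iUnion fun i => by rw [hBe]; exact hBo _
  have hKW : {x | ¬ LD n F x} ⊆ W := by
    intro x hx
    obtain ⟨y, hy⟩ := mem_iUnion.1 (htK hx)
    obtain ⟨hyt, hy⟩ := mem_iUnion.1 hy
    rw [hW]
    exact mem_iUnion.2 ⟨⟨y, hyt⟩, by rw [hBe]; exact hy⟩
  have hWp : ∀ x ∈ W, ∃ (i : t) (ζ : E n), ‖ζ‖ < 1 ∧ B i ζ = x := by
    intro x hx
    rw [hW] at hx
    obtain ⟨i, ζ, hζ, hx⟩ := mem_iUnion.1 hx
    exact ⟨i, ζ, by rwa [mem_ball_zero_iff] at hζ, hx⟩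
  have : LocallyCompactSpace X := hFe.locallyCompactSpace
  obtain ⟨L, hL, hKL, hLW⟩ := exists_compact_between hK hWo hKW
  obtain ⟨O, hO, hOL⟩ := he.toIsInducing.isOpen_iff.1 (isOpen_interior (s := L))
  obtain ⟨Λ, hΛ1, hΛ2, hΛ3⟩ := exists_contMDiffMap_one_nhds_of_subset_interior (n := ⊤) 𝓘(ℝ, E m) (s := e '' {x | ¬ LD n F x})
    (t := O) (hK.image he.continuous).isClosed (by
      rw [hO.interior_eq]
      rintro _ ⟨x, hx, rfl⟩
      have := hKL hx
      rw [← hOL] at this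
      exact this)
  have hΛs : ContDiff ℝ ∞ Λ := Λ.contMDiff.contDiff
  -- the local statement
  have hloc : ∀ x ∈ L, {p : ℝ × X | p.1 ∈ S → LD n (Fp ρ β e F B Λ p.1) p.2} ∈ 𝓝[>] (0 : ℝ) ×ˢ 𝓝 x := by
    intro x hx
    obtain ⟨i0, ζ, hζ, rfl⟩ := hWp x (hLW hx)
    have h2 : ∀ᶠ t : ℝ × E n in 𝓝[>] 0 ×ˢ 𝓝 ζ, t.1 ∈ S → LD n (Fp ρ β e F B Λ t.1) (B i0 t.2) := by
      by_cases hg : LD n F (B i0 ζ)
      · filter_upwards [local_good h1 hη0 hA hβ hβ0 hβs hβp he hI hF hBi hBl hΛs (fun p => (hΛ3 p).1)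
          (fun p => (hΛ3 p).2) i0 hζ hg] with t ht _
        exact ht
      · have h3 := local_bad h1 hA hβ hβ0 hβs hβp he hI hF hBi hBl i0 hζ (hη2 _ hg)
        have h4 : ∀ᶠ y in 𝓝 (B i0 ζ), Λ (e y) = 1 :=
          he.continuous.continuousAt.eventually
            (Filter.Eventually.filter_mono (nhds_le_nhdsSet (mem_image_of_mem e hg)) hΛ1)
        have h5 : ∀ᶠ z in 𝓝 ζ, ∀ᶠ y in 𝓝 (B i0 z), Λ (e y) = 1 :=
          (hBl i0 ζ).continuousAt.eventually h4.eventually_nhds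
        filter_upwards [h3, tendsto_snd.eventually h5] with t ht1 ht2 htS
        refine (ht1 htS).congr ?_
        filter_upwards [ht2] with y hy
        unfold Fp
        rw [hy, one_smul]
        abel
    obtain ⟨p, hp, hp0, -, hp2⟩ := (hBl i0 ζ).exists_inverse
    have h3 : Tendsto (fun t : ℝ × X => (t.1, p t.2)) (𝓝[>] (0 : ℝ) ×ˢ 𝓝 (B i0 ζ)) (𝓝[>] 0 ×ˢ 𝓝 ζ) := by
      have h4 : Tendsto p (𝓝 (B i0 ζ)) (𝓝 ζ) := by
        have := hp.continuousAt.tendsto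
        rwa [hp0] at this
      exact tendsto_fst.prodMk (h4.comp tendsto_snd)
    filter_upwards [h3.eventually h2, tendsto_snd.eventually hp2] with t ht1 ht2
    rw [ht2] at ht1
    exact ht1
  have hunif := hL.mem_prod_nhdsSet_of_forall hloc
  obtain ⟨S', hS', T, hT, hST⟩ := Filter.mem_prod_iff.1 hunif
  have hS'' : ∀ᶠ s in 𝓝[>] (0 : ℝ), s ∈ S' := hS'
  obtain ⟨s, hsS, hsS'⟩ : ∃ s, s ∈ S ∧ s ∈ S' := (hS.and_eventually hS'').exists
  have hLD : ∀ x ∈ L, LD n (Fp ρ β e F B Λ s) x := by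
    intro x hx
    have h9 : (s, x) ∈ S' ×ˢ T := ⟨hsS', subset_of_mem_nhdsSet hT hx⟩
    have h10 : s ∈ S → LD n (Fp ρ β e F B Λ s) x := hST h9
    exact h10 hsS
  have hoff : ∀ x, x ∉ L → Fp ρ β e F B Λ s x = F x := by
    intro x hx
    have h2 : e x ∉ O := by
      intro h3
      have h4 : x ∈ e ⁻¹' O := h3
      rw [hOL] at h4
      exact hx (interior_subset h4)
    unfold Fp
    rw [hΛ2 _ h2, zero_smul, add_zero]
  have hLDall : ∀ x, LD n (Fp ρ β e F B Λ s) x := by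
    intro x
    by_cases hx : x ∈ L
    · exact hLD x hx
    · have hxg : LD n F x := by
        by_contra hcon
        exact hx (interior_subset (hKL hcon))
      refine hxg.congr ?_
      filter_upwards [hL.isClosed.isOpen_compl.mem_nhds hx] with y hy
      exact hoff y hy
  have hFn : ∀ x, ‖F x‖ < 1 := by
    intro x
    have : F x ∈ ball (0 : E n) 1 := by rw [← hFr]; exact mem_range_self x
    rwa [mem_ball_zero_iff] at this
  have hBc : ∀ i, Continuous (B i) := fun i => continuous_iff_continuousAt.2 fun z => (hBl i z).continuousAt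
  have hnorm : ∀ x, ‖Fp ρ β e F B Λ s x‖ < 1 := by
    intro x
    by_cases hx : x ∈ L
    · obtain ⟨i0, ζ, hζ, rfl⟩ := hWp x (hLW hx)
      have hZ : 0 < Zs ρ β (fun i z => e (B i z)) s (e (B i0 ζ)) :=
        Zs_pos (q := fun i z => e (B i z)) h1 hβ hβ0 hβs hβp (fun i => he.continuous.comp (hBc i)) i0 hζ
      have hG : ‖Gs ρ β (fun i z => e (B i z)) (fun i z => F (B i z)) s (e (B i0 ζ))‖ < 1 :=
        Gs_norm (q := fun i z => e (B i z)) (g := fun i z => F (B i z)) hβ hβ0 hβs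
          (fun i => he.continuous.comp (hBc i)) (fun i => hF.comp (hBc i)) (fun i z => hFn _) s hZ
      unfold Fp
      have h2 := (hΛ3 (e (B i0 ζ))).1
      have h3 := (hΛ3 (e (B i0 ζ))).2
      have e1 : F (B i0 ζ) + Λ (e (B i0 ζ)) • (Gs ρ β (fun i z => e (B i z)) (fun i z => F (B i z)) s (e (B i0 ζ)) -
          F (B i0 ζ)) = (1 - Λ (e (B i0 ζ))) • F (B i0 ζ) +
          Λ (e (B i0 ζ)) • Gs ρ β (fun i z => e (B i z)) (fun i z => F (B i z)) s (e (B i0 ζ)) := by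
        rw [smul_sub, sub_smul, one_smul]
        abel
      rw [e1]
      have h4 := hFn (B i0 ζ)
      refine (norm_add_le _ _).trans_lt ?_
      rw [norm_smul, norm_smul, Real.norm_eq_abs, Real.norm_eq_abs, abs_of_nonneg h2, abs_of_nonneg (by linarith)]
      rcases eq_or_lt_of_le h2 with h5 | h5
      · rw [← h5]; linarith
      · nlinarith
    · rw [hoff x hx]
      exact hFn x
  obtain ⟨hinj, hran⟩ := Pool.Agent.Y899.SH.cover n X F (Fp ρ β e F B Λ s) L hFe hFr hL hoff hnorm hLDall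
  refine ⟨Fp ρ β e F B Λ s, L, hL, ?_, hinj, ?_, hoff, hLDall⟩
  · exact continuous_iff_continuousAt.2 fun x => (hLDall x).continuousAt
  · rw [hran, hFr]

end Pool.Agent.H865_small
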