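import Pool.Agent.H865_small.Local

/-!
# The interpolated maps are local diffeomorphisms at good points
-/

set_option autoImplicit false

open Set Filter Topology Metric Function MeasureTheory
open scoped Manifold ContDiff

noncomputable section

namespace Pool.Agent.H865_small

open Pool.Agent.Y522 (LD)

variable {n m : ℕ} {ρ : ℝ} {ι : Type} [Fintype ι] {X : Type} [TopologicalSpace X] [ChartedSpace (E n) X]
  {β : E n → ℝ} {e : X → E m} {F : X → E n} {B : ι → E n → X}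

/-- the interpolated map -/
def Fp (ρ : ℝ) (β : E n → ℝ) (e : X → E m) (F : X → E n) (B : ι → E n → X) (Λ : E m → ℝ) (s : ℝ) (x : X) : E n :=
  F x + Λ (e x) • (Gs ρ β (fun i z => e (B i z)) (fun i z => F (B i z)) s (e x) - F x)

/-- the case of a good point -/
theorem local_good (h1 : ρ ^ 2 < 1) {η : ℝ} (hη0 : 0 < η) (hA : Adm n ρ η)
    (hβ : Continuous β) (hβ0 : ∀ z, 0 ≤ β z) (hβs : ∀ z, 1 < ‖z‖ → β z = 0) (hβp : ∀ z, ‖z‖ < 1 → 0 < β z)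
    (he : IsEmbedding e) (hI : ∀ x, Imm (n := n) e x) (hF : Continuous F) (hBi : ∀ i, Injective (B i))
    (hBl : ∀ i z, LD n (B i) z) {Λ : E m → ℝ} (hΛ : ContDiff ℝ ∞ Λ) (hΛ0 : ∀ p, 0 ≤ Λ p) (hΛ1 : ∀ p, Λ p ≤ 1)
    (i0 : ι) {ζ : E n} (hζ : ‖ζ‖ < 1) (hgood : LD n F (B i0 ζ)) :
    ∀ᶠ t : ℝ × E n in 𝓝[>] 0 ×ˢ 𝓝 ζ, LD n (Fp ρ β e F B Λ t.1) (B i0 t.2) := by
  have hBc : ∀ i, Continuous (B i) := fun i => continuous_iff_continuousAt.2 fun z => (hBl i z).continuousAt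
  have hq : ∀ i, ContDiff ℝ ∞ (fun z => e (B i z)) := q_smooth hI hBl
  have hqd : ∀ i z, Injective (fderiv ℝ (fun z => e (B i z)) z) := fun i z => (imm_smooth (hI _) (hBl i z)).2
  have hqi : ∀ i, Injective (fun z => e (B i z)) := fun i => he.injective.comp (hBi i)
  have hg : ∀ i, Continuous (fun z => F (B i z)) := fun i => hF.comp (hBc i)
  have hfl : LD n (fun z => F (B i0 z)) ζ := Pool.Agent.Y522.LD.comp_fun hgood (hBl i0 ζ)
  have hfev : ∀ᶠ y in 𝓝 ζ, LD n (fun z => F (B i0 z)) y := hfl.eventually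
  have hball : ∀ᶠ y in 𝓝 ζ, ‖y‖ < 1 := by
    have := isOpen_ball.mem_nhds (show ζ ∈ ball (0 : E n) 1 by rw [mem_ball_zero_iff]; exact hζ)
    filter_upwards [this] with y hy
    rwa [mem_ball_zero_iff] at hy
  have hGs : ∀ s (y : E n), ‖y‖ < 1 →
      ContDiffAt ℝ ∞ (Gs ρ β (fun i z => e (B i z)) (fun i z => F (B i z)) s) (e (B i0 y)) := fun s y hy =>
    Gs_smooth hβ hβs hq hg s
      (Zs_pos (q := fun i z => e (B i z)) h1 hβ hβ0 hβs hβp (fun i => (hq i).continuous) i0 hy).ne'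
  -- the derivative
  have hder : ∀ s (y : E n), ‖y‖ < 1 → LD n (fun z => F (B i0 z)) y → ∀ v,
      fderiv ℝ (fun z => Fp ρ β e F B Λ s (B i0 z)) y v = fderiv ℝ (fun z => F (B i0 z)) y v +
        (Λ (e (B i0 y)) • (fderiv ℝ (Gs ρ β (fun i z => e (B i z)) (fun i z => F (B i z)) s) (e (B i0 y))
          (fderiv ℝ (fun z => e (B i0 z)) y v) - fderiv ℝ (fun z => F (B i0 z)) y v) +
        (fderiv ℝ Λ (e (B i0 y)) (fderiv ℝ (fun z => e (B i0 z)) y v)) •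
          (Gs ρ β (fun i z => e (B i z)) (fun i z => F (B i z)) s (e (B i0 y)) - F (B i0 y))) := by
    intro s y hy hyl v
    have d1 : HasFDerivAt (fun z => F (B i0 z)) (fderiv ℝ (fun z => F (B i0 z)) y) y :=
      (hyl.contDiffAt.differentiableAt (by simp)).hasFDerivAt
    have d2 : HasFDerivAt (fun z => e (B i0 z)) (fderiv ℝ (fun z => e (B i0 z)) y) y :=
      ((hq i0).differentiable (by simp) _).hasFDerivAt
    have d3 : HasFDerivAt (fun z => Gs ρ β (fun i z => e (B i z)) (fun i z => F (B i z)) s (e (B i0 z)))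
        ((fderiv ℝ (Gs ρ β (fun i z => e (B i z)) (fun i z => F (B i z)) s) (e (B i0 y))).comp
          (fderiv ℝ (fun z => e (B i0 z)) y)) y :=
      HasFDerivAt.comp (g := Gs ρ β (fun i z => e (B i z)) (fun i z => F (B i z)) s)
        (f := fun z => e (B i0 z)) y ((hGs s y hy).differentiableAt (by simp)).hasFDerivAt d2
    have d4 : HasFDerivAt (fun z => Λ (e (B i0 z)))
        ((fderiv ℝ Λ (e (B i0 y))).comp (fderiv ℝ (fun z => e (B i0 z)) y)) y :=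
      HasFDerivAt.comp (g := Λ) (f := fun z => e (B i0 z)) y (hΛ.differentiable (by simp) _).hasFDerivAt d2
    have d5 := d1.fun_add (d4.fun_smul (d3.fun_sub d1))
    have d6 : (fun z => Fp ρ β e F B Λ s (B i0 z)) = fun z => F (B i0 z) + Λ (e (B i0 z)) •
      (Gs ρ β (fun i z => e (B i z)) (fun i z => F (B i z)) s (e (B i0 z)) - F (B i0 z)) := rfl
    rw [d6, d5.fderiv]
    rfl
  have hsm : ∀ s (y : E n), ‖y‖ < 1 → LD n (fun z => F (B i0 z)) y →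
      ContDiffAt ℝ ∞ (fun z => Fp ρ β e F B Λ s (B i0 z)) y := by
    intro s y hy hyl
    have d3 : ContDiffAt ℝ ∞ (fun z => Gs ρ β (fun i z => e (B i z)) (fun i z => F (B i z)) s (e (B i0 z))) y :=
      ContDiffAt.comp (g := Gs ρ β (fun i z => e (B i z)) (fun i z => F (B i z)) s)
        (f := fun z => e (B i0 z)) y (hGs s y hy) (hq i0).contDiffAt
    have d4 : ContDiffAt ℝ ∞ (fun z => Λ (e (B i0 z))) y :=
      ContDiffAt.comp (g := Λ) (f := fun z => e (B i0 z)) y hΛ.contDiffAt (hq i0).contDiffAt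
    have d1 : ContDiffAt ℝ ∞ (fun z => F (B i0 z)) y := hyl.contDiffAt
    exact d1.add (d4.smul (d3.sub d1))
  have hkey : ∀ᶠ t : ℝ × E n in 𝓝[>] 0 ×ˢ 𝓝 ζ, ∀ v : E n, ‖v‖ = 1 →
      fderiv ℝ (fun z => Fp ρ β e F B Λ t.1 (B i0 z)) t.2 v ≠ 0 := by
    refine all_dirs (P := fun s y v => fderiv ℝ (fun z => Fp ρ β e F B Λ s (B i0 z)) y v ≠ 0) fun v hv => ?_
    have hv0 : v ≠ 0 := by
      rw [← norm_pos_iff, hv]; exact one_pos
    obtain ⟨c0, hc0, hlow⟩ := main_low h1 hA hβ hβ0 hβs hq hg hqi hqd i0 hζ (hβp ζ hζ) hv0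
      (fun i => chart_alt he.injective (hBl i) (hBl i0) (hq i) ζ v)
    obtain ⟨ℓ, hℓ0, hℓ⟩ := good_rec he (hBi i0) (hBl i0) (hq i0) (hqd i0 ζ) hgood hζ hv0
    obtain ⟨V, hV⟩ : ∃ V, V = fderiv ℝ (fun z => e (B i0 z)) ζ v := ⟨_, rfl⟩
    have hV0 : V ≠ 0 := by
      intro h
      apply hv0
      apply hqd i0 ζ
      rw [map_zero, ← hV, h]
    have hVn : 0 < ‖V‖ := norm_pos_iff.2 hV0
    obtain ⟨c1, hc1⟩ : ∃ c1, c1 = ℓ (fderiv ℝ (fun z => F (B i0 z)) ζ v) := ⟨_, rfl⟩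
    rw [← hc1] at hℓ0
    have tζ : Tendsto (fun t : ℝ × E n × E n => t.2.1) (𝓝[>] 0 ×ˢ 𝓝 ζ ×ˢ 𝓝 v) (𝓝 ζ) :=
      tendsto_fst.comp tendsto_snd
    have ts : Tendsto (fun t : ℝ × E n × E n => t.1) (𝓝[>] 0 ×ˢ 𝓝 ζ ×ˢ 𝓝 v) (𝓝[>] 0) := tendsto_fst
    have tv : Tendsto (fun t : ℝ × E n × E n => t.2.2) (𝓝[>] 0 ×ˢ 𝓝 ζ ×ˢ 𝓝 v) (𝓝 v) :=
      tendsto_snd.comp tendsto_snd
    have tV : Tendsto (fun t : ℝ × E n × E n => fderiv ℝ (fun z => e (B i0 z)) t.2.1 t.2.2)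
        (𝓝[>] 0 ×ˢ 𝓝 ζ ×ˢ 𝓝 v) (𝓝 V) := by
      have h1 : Continuous fun p : E n × E n => fderiv ℝ (fun z => e (B i0 z)) p.1 p.2 :=
        (((hq i0).continuous_fderiv (by simp)).comp continuous_fst).clm_apply continuous_snd
      have h2 := h1.tendsto (ζ, v)
      rw [nhds_prod_eq] at h2
      rw [hV]
      exact h2.comp tendsto_snd
    have tc1 : Tendsto (fun t : ℝ × E n × E n => ℓ (fderiv ℝ (fun z => F (B i0 z)) t.2.1 t.2.2))
        (𝓝[>] 0 ×ˢ 𝓝 ζ ×ˢ 𝓝 v) (𝓝 c1) := by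
      have h1 : ContinuousAt (fun p : E n × E n => ℓ (fderiv ℝ (fun z => F (B i0 z)) p.1 p.2)) (ζ, v) := by
        have h2 : ContinuousAt (fderiv ℝ (fun z => F (B i0 z))) ζ :=
          (hfl.contDiffAt.fderiv_right (m := 0) (by simp)).continuousAt
        have h3 : ContinuousAt (fun p : E n × E n => fderiv ℝ (fun z => F (B i0 z)) p.1) (ζ, v) :=
          ContinuousAt.comp (f := Prod.fst) (x := (ζ, v)) h2 continuousAt_fst
        exact ℓ.continuous.continuousAt.comp (h3.clm_apply continuousAt_snd)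
      have h2 : Tendsto (fun p : E n × E n => ℓ (fderiv ℝ (fun z => F (B i0 z)) p.1 p.2)) (𝓝 (ζ, v)) (𝓝 c1) := by
        rw [hc1]; exact h1
      rw [nhds_prod_eq] at h2
      exact h2.comp tendsto_snd
    have tΛ : Tendsto (fun t : ℝ × E n × E n => |fderiv ℝ Λ (e (B i0 t.2.1))
        (fderiv ℝ (fun z => e (B i0 z)) t.2.1 t.2.2)|) (𝓝[>] 0 ×ˢ 𝓝 ζ ×ˢ 𝓝 v) (𝓝 |fderiv ℝ Λ (e (B i0 ζ)) V|) := by
      have h1 : Continuous fun p : E m × E m => fderiv ℝ Λ p.1 p.2 :=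
        ((hΛ.continuous_fderiv (by simp)).comp continuous_fst).clm_apply continuous_snd
      have h2 := h1.tendsto (e (B i0 ζ), V)
      rw [nhds_prod_eq] at h2
      have h3 : Tendsto (fun t : ℝ × E n × E n => e (B i0 t.2.1)) (𝓝[>] 0 ×ˢ 𝓝 ζ ×ˢ 𝓝 v) (𝓝 (e (B i0 ζ))) :=
        ((hq i0).continuous.tendsto ζ).comp tζ
      exact (h2.comp (h3.prodMk tV)).abs
    obtain ⟨C, hC⟩ : ∃ C, C = |fderiv ℝ Λ (e (B i0 ζ)) V| + 1 := ⟨_, rfl⟩
    have hCp : 0 < C := by rw [hC]; positivity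
    obtain ⟨κ, hκ⟩ : ∃ κ, κ = min c0 (c1 / 2) := ⟨_, rfl⟩
    have hκp : 0 < κ := by rw [hκ]; exact lt_min hc0 (by positivity)
    have hsev : ∀ᶠ s in 𝓝[>] (0 : ℝ), 0 < s ∧ s < κ / (C * ((1 + η) * (‖V‖ + 1))) :=
      Ioo_mem_nhdsGT (by positivity)
    filter_upwards [hlow, hℓ (η * ‖V‖ / 2) (by positivity), tζ.eventually hfev, tζ.eventually hball,
      ts.eventually hsev, tc1.eventually (lt_mem_nhds (show c1 / 2 < c1 by linarith)),
      tV.norm.eventually (lt_mem_nhds (show ‖V‖ / 2 < ‖V‖ by linarith)),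
      tV.norm.eventually (gt_mem_nhds (show ‖V‖ < ‖V‖ + 1 by linarith)),
      tΛ.eventually (gt_mem_nhds (show |fderiv ℝ Λ (e (B i0 ζ)) V| < C by rw [hC]; linarith))]
      with t ht1 ht2 ht3 ht4 ht5 ht6 ht7 ht8 ht9 hcon
    rw [hder t.1 t.2.1 ht4 ht3] at hcon
    obtain ⟨W, hW⟩ : ∃ W, W = fderiv ℝ (fun z => e (B i0 z)) t.2.1 t.2.2 := ⟨_, rfl⟩
    rw [← hW] at ht1 ht2 ht7 ht8 ht9 hcon
    have hZ := Zs_pos (ρ := ρ) (q := fun i z => e (B i z)) h1 hβ hβ0 hβs hβp (fun i => (hq i).continuous) i0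
      (s := t.1) ht4
    have hcond : ∀ i z, ‖z‖ ≤ 1 → ‖e (B i z) - e (B i0 t.2.1)‖ ≤ t.1 →
        |ℓ (F (B i z)) + -ℓ (F (B i0 t.2.1)) - inner ℝ W (e (B i z) - e (B i0 t.2.1))| ≤ η * t.1 * ‖W‖ := by
      intro i z _ hz
      refine (ht2 (B i z) hz).trans ?_
      have : 0 ≤ η * t.1 := mul_nonneg hη0.le ht5.1.le
      nlinarith
    have b1 := ht1 hZ ℓ _ hcond
    have b2 := val_bound hβ hβ0 hβs h1 (fun i => (hq i).continuous) hg ht5.1 hZ ℓ _ hcond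
    have e1 := congrArg ℓ hcon
    rw [map_zero, map_add, map_add, map_smul, map_smul, map_sub, map_sub, smul_eq_mul, smul_eq_mul] at e1
    have b3 : |fderiv ℝ Λ (e (B i0 t.2.1)) W * (ℓ (Gs ρ β (fun i z => e (B i z)) (fun i z => F (B i z)) t.1
        (e (B i0 t.2.1))) - ℓ (F (B i0 t.2.1)))| < κ := by
      rw [abs_mul]
      have b4 : |ℓ (Gs ρ β (fun i z => e (B i z)) (fun i z => F (B i z)) t.1 (e (B i0 t.2.1))) -
          ℓ (F (B i0 t.2.1))| ≤ (1 + η) * t.1 * (‖V‖ + 1) := by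
        rw [sub_eq_add_neg]
        refine b2.trans ?_
        exact mul_le_mul_of_nonneg_left ht8.le (mul_nonneg (by positivity) ht5.1.le)
      calc |fderiv ℝ Λ (e (B i0 t.2.1)) W| * |ℓ (Gs ρ β (fun i z => e (B i z)) (fun i z => F (B i z)) t.1
            (e (B i0 t.2.1))) - ℓ (F (B i0 t.2.1))| ≤ C * ((1 + η) * t.1 * (‖V‖ + 1)) :=
            mul_le_mul ht9.le b4 (abs_nonneg _) hCp.le
        _ = t.1 * (C * ((1 + η) * (‖V‖ + 1))) := by ring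
        _ < κ := (lt_div_iff₀ (by positivity)).1 ht5.2
    have b5 := hΛ0 (e (B i0 t.2.1))
    have b6 := hΛ1 (e (B i0 t.2.1))
    obtain ⟨lm, hlm0⟩ : ∃ lm, lm = Λ (e (B i0 t.2.1)) := ⟨_, rfl⟩
    rw [← hlm0] at b5 b6 e1
    obtain ⟨x1, hx1⟩ : ∃ x1, x1 = ℓ (fderiv ℝ (fun z => F (B i0 z)) t.2.1 t.2.2) := ⟨_, rfl⟩
    obtain ⟨x2, hx2⟩ : ∃ x2, x2 = ℓ (fderiv ℝ (Gs ρ β (fun i z => e (B i z)) (fun i z => F (B i z)) t.1)
      (e (B i0 t.2.1)) W) := ⟨_, rfl⟩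
    rw [← hx1] at ht6 e1
    rw [← hx2] at b1 e1
    have b7 : κ ≤ x1 := by
      rw [hκ]
      exact (min_le_right _ _).trans ht6.le
    have b8 : κ ≤ x2 := by
      rw [hκ]
      exact (min_le_left _ _).trans b1
    have b9 := (abs_lt.1 b3).1
    have b10 : κ ≤ (1 - lm) * x1 + lm * x2 := by nlinarith
    linarith
  filter_upwards [hkey, tendsto_snd.eventually hball, tendsto_snd.eventually hfev] with t ht htb htl
  refine LD_of_comp (hBl i0 t.2) (LD_of_inj ?_ ht)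
  have hbt : ∀ᶠ y in 𝓝 t.2, ‖y‖ < 1 := by
    have := isOpen_ball.mem_nhds (show t.2 ∈ ball (0 : E n) 1 by rw [mem_ball_zero_iff]; exact htb)
    filter_upwards [this] with y hy
    rwa [mem_ball_zero_iff] at hy
  filter_upwards [hbt, htl.eventually] with y hy1 hy2
  exact hsm t.1 y hy1 hy2

end Pool.Agent.H865_small
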