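import Pool.Agent.H865_small.Param

/-!
# The limits of the averages in the tangent space
-/

set_option autoImplicit false

open Set Filter Topology Metric Function MeasureTheory
open scoped ContDiff

noncomputable section

namespace Pool.Agent.H865_small

variable {n m : ℕ} {ρ : ℝ}

/-- an injective linear map is an isometry after a change of variables of the source -/
theorem exists_iso {J : E n →L[ℝ] E m} (hJ : Injective J) :
    ∃ S : E n ≃L[ℝ] E n, ∀ x y : E n, inner ℝ (J x) (J y) = inner ℝ (S x) (S y) := by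
  let L : E n ≃ₗ[ℝ] LinearMap.range (J : E n →ₗ[ℝ] E m) := LinearEquiv.ofInjective (J : E n →ₗ[ℝ] E m) hJ
  have hd : Module.finrank ℝ (LinearMap.range (J : E n →ₗ[ℝ] E m)) = n := by
    rw [← L.finrank_eq]
    simp
  let b := (stdOrthonormalBasis ℝ (LinearMap.range (J : E n →ₗ[ℝ] E m))).reindex (finCongr hd)
  refine ⟨(L.trans b.repr.toLinearEquiv).toContinuousLinearEquiv, fun x y => ?_⟩
  have h1 : ∀ z, (L.trans b.repr.toLinearEquiv).toContinuousLinearEquiv z = b.repr (L z) := fun z => rfl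
  rw [h1, h1, b.repr.inner_map_map]
  rfl

theorem iso_norm {J : E n →L[ℝ] E m} {S : E n ≃L[ℝ] E n} (hS : ∀ x y : E n, inner ℝ (J x) (J y) = inner ℝ (S x) (S y))
    (x : E n) : ‖J x‖ = ‖S x‖ := by
  have h := hS x x
  rw [real_inner_self_eq_norm_sq, real_inner_self_eq_norm_sq] at h
  exact (sq_eq_sq₀ (norm_nonneg _) (norm_nonneg _)).1 h

/-- change of variables up to a positive factor -/
theorem integral_comp_equiv (S : E n ≃L[ℝ] E n) : ∃ c : ℝ, 0 < c ∧ ∀ f : E n → ℝ,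
    ∫ x, f (S x) = c * ∫ x, f x := by
  have hdet : LinearMap.det ((S : E n →L[ℝ] E n) : E n →ₗ[ℝ] E n) ≠ 0 := (LinearEquiv.isUnit_det' S.toLinearEquiv).ne_zero
  refine ⟨|(LinearMap.det ((S : E n →L[ℝ] E n) : E n →ₗ[ℝ] E n))⁻¹|, by positivity, fun f => ?_⟩
  have h1 : ∫ x, f (S x) = ∫ y, f y ∂(Measure.map S volume) :=
    (integral_map_equiv (S.toHomeomorph.toMeasurableEquiv) f).symm
  have h2 := Measure.map_linearMap_addHaar_eq_smul_addHaar (volume : Measure (E n)) hdet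
  have h3 : Measure.map S (volume : Measure (E n)) =
      ENNReal.ofReal |(LinearMap.det ((S : E n →L[ℝ] E n) : E n →ₗ[ℝ] E n))⁻¹| • volume := h2
  rw [h1, h3, integral_smul_measure, ENNReal.toReal_ofReal (abs_nonneg _), smul_eq_mul]

/-- the integrand of the second order term -/
def φ2 (ρ η : ℝ) (x V : E m) : ℝ := om ρ (‖x‖ ^ 2) * ((inner ℝ x V) ^ 2 - η * (‖V‖ * |inner ℝ x V|))

/-- the integrand of the first order term -/
def φ1 (ρ : ℝ) (x V : E m) : ℝ := om ρ (‖x‖ ^ 2) * inner ℝ x V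

/-- the integrand of the normalisation -/
def φ0 (ρ : ℝ) (x _V : E m) : ℝ := ps ρ (‖x‖ ^ 2)

theorem φ2_cont (η : ℝ) : Continuous (uncurry (φ2 (m := m) ρ η)) := by
  unfold φ2 uncurry
  have := om_cont (ρ := ρ)
  fun_prop

theorem φ1_cont : Continuous (uncurry (φ1 (m := m) ρ)) := by
  unfold φ1 uncurry
  have := om_cont (ρ := ρ)
  fun_prop

theorem φ0_cont : Continuous (uncurry (φ0 (m := m) ρ)) := by
  unfold φ0 uncurry
  have := (ps_contDiff (ρ := ρ)).continuous
  fun_prop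

theorem φ2_zero (h1 : ρ ^ 2 < 1) (η : ℝ) (x V : E m) (hx : 1 ≤ ‖x‖) : φ2 ρ η x V = 0 := by
  unfold φ2
  rw [om_zero_of_one_le h1 (by nlinarith), zero_mul]

theorem φ1_zero (h1 : ρ ^ 2 < 1) (x V : E m) (hx : 1 ≤ ‖x‖) : φ1 ρ x V = 0 := by
  unfold φ1
  rw [om_zero_of_one_le h1 (by nlinarith), zero_mul]

theorem φ0_zero (h1 : ρ ^ 2 < 1) (x V : E m) (hx : 1 ≤ ‖x‖) : φ0 ρ x V = 0 := by
  unfold φ0
  rw [ps_zero h1 (by nlinarith)]

/-- the limit of the second order term is positive -/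
theorem int_φ2_pos {η : ℝ} (hA : Adm n ρ η) {J : E n →L[ℝ] E m}
    (hJ : Injective J) {w : E n} (hw : w ≠ 0) : 0 < ∫ x, φ2 ρ η (J x) (J w) := by
  obtain ⟨S, hS⟩ := exists_iso hJ
  obtain ⟨c, hc, hc2⟩ := integral_comp_equiv S
  have hSw : S w ≠ 0 := fun h => hw (S.injective (by rw [h, map_zero]))
  have hb : 0 < ‖S w‖ := norm_pos_iff.2 hSw
  obtain ⟨a, ha⟩ : ∃ a : E n, a = ‖S w‖⁻¹ • S w := ⟨_, rfl⟩
  have han : ‖a‖ = 1 := by rw [ha, norm_smul, norm_inv, norm_norm, inv_mul_cancel₀ hb.ne']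
  have hwa : S w = ‖S w‖ • a := by rw [ha, smul_smul, mul_inv_cancel₀ hb.ne', one_smul]
  have e1 : ∀ x : E n, φ2 ρ η (J x) (J w) =
      (fun y : E n => ‖S w‖ ^ 2 * (om ρ (‖y‖ ^ 2) * ((inner ℝ y a) ^ 2 - η * |inner ℝ y a|))) (S x) := by
    intro x
    unfold φ2
    have h3 : inner ℝ (S x) (S w) = ‖S w‖ * inner ℝ (S x) a := by
      conv_lhs => rw [hwa]
      rw [inner_smul_right]
    rw [iso_norm hS, iso_norm hS, hS, h3, abs_mul, abs_of_pos hb]
    ring
  rw [integral_congr_ae (Eventually.of_forall e1), hc2 (fun y : E n => ‖S w‖ ^ 2 * (om ρ (‖y‖ ^ 2) *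
    ((inner ℝ y a) ^ 2 - η * |inner ℝ y a|))), integral_const_mul]
  have := hA a han
  positivity

/-- the limit of the first order term is zero -/
theorem int_φ1_zero (J : E n →L[ℝ] E m) (V : E m) : ∫ x, φ1 ρ (J x) V = 0 := by
  have h1 : ∫ x, φ1 ρ (J (-x)) V = ∫ x, φ1 ρ (J x) V := integral_neg_eq_self (fun x => φ1 ρ (J x) V) volume
  have h2 : ∀ x : E n, φ1 ρ (J (-x)) V = - φ1 ρ (J x) V := by
    intro x
    unfold φ1
    rw [map_neg, norm_neg, inner_neg_left]
    ring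
  simp_rw [h2] at h1
  rw [integral_neg] at h1
  linarith

/-- the limit of the normalisation is positive -/
theorem int_φ0_pos (h1 : ρ ^ 2 < 1) {J : E n →L[ℝ] E m} (hJ : Injective J) (V : E m) :
    0 < ∫ x, φ0 ρ (J x) V := by
  obtain ⟨S, hS⟩ := exists_iso hJ
  obtain ⟨c, hc, hc2⟩ := integral_comp_equiv S
  have e1 : ∀ x : E n, φ0 ρ (J x) V = (fun y : E n => ps ρ (‖y‖ ^ 2)) (S x) := by
    intro x
    unfold φ0
    rw [iso_norm hS]
  rw [integral_congr_ae (Eventually.of_forall e1), hc2 (fun y : E n => ps ρ (‖y‖ ^ 2))]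
  refine mul_pos hc ?_
  have hcont : Continuous fun y : E n => ps ρ (‖y‖ ^ 2) := ps_contDiff.continuous.comp (by fun_prop)
  refine hcont.integral_pos_of_hasCompactSupport_nonneg_nonzero ?_ (fun ζ => ps_nonneg _) (x := 0) ?_
  · apply HasCompactSupport.of_support_subset_isCompact (isCompact_closedBall (0 : E n) 1)
    intro ζ hζ
    rw [mem_closedBall_zero_iff]
    by_contra hcon
    apply hζ
    have : 1 ≤ ‖ζ‖ ^ 2 := by nlinarith [norm_nonneg ζ]
    simp only
    rw [ps_zero h1 this]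
  · simp only [norm_zero]
    rw [ps_one h1 (by norm_num; exact sq_nonneg ρ)]
    exact one_ne_zero

/-- lower bound for the dilatation of an injective immersion -/
theorem lower_lip {q : E n → E m} (hq : Continuous q) (hqi : Injective q) {z0 : E n} {J : E n →L[ℝ] E m}
    (hJd : HasStrictFDerivAt q J z0) (hJ : Injective J) :
    ∃ c : ℝ, 0 < c ∧ ∀ᶠ ζ in 𝓝 z0, ∀ z : E n, ‖z‖ ≤ 1 → c * ‖z - ζ‖ ≤ ‖q z - q ζ‖ := by
  obtain ⟨K, hK, hK2⟩ := J.toLinearMap.exists_antilipschitzWith (LinearMap.ker_eq_bot.2 hJ)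
  have hKp : (0 : ℝ) < K := by exact_mod_cast hK
  have hJlow : ∀ x : E n, (K : ℝ)⁻¹ * ‖x‖ ≤ ‖J x‖ := by
    intro x
    have h := hK2.le_mul_dist x 0
    rw [dist_zero_right] at h
    have h2 : dist (J.toLinearMap x) (J.toLinearMap 0) = ‖J x‖ := by
      rw [map_zero, dist_zero_right]; rfl
    rw [h2] at h
    rw [inv_mul_le_iff₀ hKp]
    exact h
  -- near the diagonal
  have h1 := hJd.isLittleO.def (show (0 : ℝ) < (K : ℝ)⁻¹ / 2 by positivity)
  rw [nhds_prod_eq] at h1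
  obtain ⟨δ, hδ, hδ2⟩ := Metric.eventually_nhds_iff_ball.1 (nhds_prod_eq (x := z0) (y := z0) ▸ h1)
  have hnear : ∀ z ζ : E n, dist z z0 < δ → dist ζ z0 < δ → (K : ℝ)⁻¹ / 2 * ‖z - ζ‖ ≤ ‖q z - q ζ‖ := by
    intro z ζ hz hζ
    have h2 := hδ2 (z, ζ) (by rw [mem_ball, Prod.dist_eq]; exact max_lt hz hζ)
    simp only at h2
    have h3 := hJlow (z - ζ)
    have h4 : ‖J (z - ζ)‖ ≤ ‖q z - q ζ - J (z - ζ)‖ + ‖q z - q ζ‖ := by
      have := norm_sub_le (q z - q ζ) (q z - q ζ - J (z - ζ))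
      rw [sub_sub_cancel] at this
      linarith
    linarith
  -- far from the diagonal
  have hcomp : IsCompact ((closedBall (0 : E n) 1 \ ball z0 δ) ×ˢ closedBall z0 (δ / 2)) :=
    ((isCompact_closedBall _ _).diff isOpen_ball).prod (isCompact_closedBall _ _)
  have hfar : ∃ c : ℝ, 0 < c ∧ ∀ z ζ : E n, ‖z‖ ≤ 1 → δ ≤ dist z z0 → dist ζ z0 ≤ δ / 2 → c * ‖z - ζ‖ ≤ ‖q z - q ζ‖ := by
    rcases ((closedBall (0 : E n) 1 \ ball z0 δ) ×ˢ closedBall z0 (δ / 2)).eq_empty_or_nonempty with he | hne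
    · refine ⟨1, one_pos, fun z ζ hz hz2 hζ => ?_⟩
      exfalso
      have : (z, ζ) ∈ (closedBall (0 : E n) 1 \ ball z0 δ) ×ˢ closedBall z0 (δ / 2) := by
        refine ⟨⟨?_, ?_⟩, ?_⟩
        · rw [mem_closedBall_zero_iff]; exact hz
        · rw [mem_ball]; exact not_lt.2 hz2
        · exact hζ
      rw [he] at this
      exact this
    · obtain ⟨p, hp, hpm⟩ := hcomp.exists_isMinOn hne
        (f := fun p : E n × E n => ‖q p.1 - q p.2‖ / ‖p.1 - p.2‖) (by
          apply ContinuousOn.div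
          · exact (Continuous.norm (by fun_prop)).continuousOn
          · exact (Continuous.norm (by fun_prop)).continuousOn
          · rintro ⟨z, ζ⟩ ⟨⟨_, h2⟩, h3⟩
            simp only at h2 h3
            rw [mem_ball, not_lt] at h2
            rw [mem_closedBall] at h3
            rw [← dist_eq_norm]
            have := dist_triangle z ζ z0
            intro h0
            linarith)
      have hpos : ∀ p' ∈ (closedBall (0 : E n) 1 \ ball z0 δ) ×ˢ closedBall z0 (δ / 2), 0 < ‖p'.1 - p'.2‖ := by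
        rintro ⟨z, ζ⟩ ⟨⟨_, h2⟩, h3⟩
        simp only at h2 h3
        rw [mem_ball, not_lt] at h2
        rw [mem_closedBall] at h3
        rw [← dist_eq_norm]
        have := dist_triangle z ζ z0
        simp only
        linarith
      refine ⟨‖q p.1 - q p.2‖ / ‖p.1 - p.2‖, ?_, fun z ζ hz hz2 hζ => ?_⟩
      · refine div_pos ?_ (hpos p hp)
        rw [norm_pos_iff, sub_ne_zero]
        intro h
        have := hpos p hp
        rw [hqi h, sub_self, norm_zero] at this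
        exact lt_irrefl _ this
      · have hmem : (z, ζ) ∈ (closedBall (0 : E n) 1 \ ball z0 δ) ×ˢ closedBall z0 (δ / 2) := by
          refine ⟨⟨?_, ?_⟩, ?_⟩
          · rw [mem_closedBall_zero_iff]; exact hz
          · rw [mem_ball]; exact not_lt.2 hz2
          · exact hζ
        have h2 := hpm hmem
        simp only [mem_ofPred_eq] at h2
        have h3 := hpos _ hmem
        simp only at h3
        rw [le_div_iff₀ h3] at h2
        exact h2
  obtain ⟨c, hc, hc2⟩ := hfar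
  refine ⟨min c ((K : ℝ)⁻¹ / 2), lt_min hc (by positivity), ?_⟩
  filter_upwards [ball_mem_nhds z0 (show 0 < δ / 2 by positivity)] with ζ hζ z hz
  rw [mem_ball] at hζ
  rcases lt_or_ge (dist z z0) δ with h | h
  · exact (mul_le_mul_of_nonneg_right (min_le_right _ _) (norm_nonneg _)).trans (hnear z ζ h (by linarith))
  · exact (mul_le_mul_of_nonneg_right (min_le_left _ _) (norm_nonneg _)).trans (hc2 z ζ hz h hζ.le)

end Pool.Agent.H865_small
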