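import Pool.Agent.H865_small.Chart

/-!
# The averages are local diffeomorphisms for small radii
-/

set_option autoImplicit false

open Set Filter Topology Metric Function MeasureTheory
open scoped Manifold ContDiff

noncomputable section

namespace Pool.Agent.H865_small

open Pool.Agent.Y522 (LD)

/-- Near `x`, at all small scales `s ∈ S`, every linear coordinate of `e` in a tangent direction is recovered up to
`η s` by an affine function of `F`. -/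
def TRec {n m : ℕ} {X : Type} [TopologicalSpace X] [ChartedSpace (E n) X] (e : X → E m) (F : X → E n) (S : Set ℝ)
    (η : ℝ) (x : X) : Prop :=
  ∀ (B : E n → X) (ζ : E n), B ζ = x → Injective B → (∀ z, LD n B z) → ∀ v : E n, v ≠ 0 →
    ∀ᶠ t : ℝ × E n × E n in 𝓝[>] 0 ×ˢ 𝓝 ζ ×ˢ 𝓝 v, t.1 ∈ S → ∃ (ℓ : E n →L[ℝ] ℝ) (c : ℝ), ∀ u : X,
      ‖e u - e (B t.2.1)‖ ≤ t.1 →
        |ℓ (F u) + c - inner ℝ (fderiv ℝ (fun z => e (B z)) t.2.1 t.2.2) (e u - e (B t.2.1))| ≤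
          η * t.1 * ‖fderiv ℝ (fun z => e (B z)) t.2.1 t.2.2‖

section

variable {n m : ℕ} {ρ : ℝ} {ι : Type} [Fintype ι] {X : Type} [TopologicalSpace X] [ChartedSpace (E n) X]
  {β : E n → ℝ} {q : ι → E n → E m}

theorem Zs_pos (h1 : ρ ^ 2 < 1) (hβ : Continuous β) (hβ0 : ∀ z, 0 ≤ β z) (hβs : ∀ z, 1 < ‖z‖ → β z = 0)
    (hβp : ∀ z, ‖z‖ < 1 → 0 < β z) (hq : ∀ i, Continuous (q i)) (i0 : ι) {s : ℝ} {ζ : E n}
    (hζ : ‖ζ‖ < 1) : 0 < Zs ρ β q s (q i0 ζ) := by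
  have hsupp := bump_supp hβs
  unfold Zs
  refine Finset.sum_pos' (fun i _ => ?_) ⟨i0, Finset.mem_univ _, ?_⟩
  · exact integral_nonneg fun z => mul_nonneg (hβ0 z) (ps_nonneg _)
  · have hw : Continuous fun z => q i0 z - q i0 ζ := (hq i0).sub continuous_const
    have hcc : Continuous fun z => β z * kf ρ s (q i0 z - q i0 ζ) := hβ.mul ((kf_cont s).comp hw)
    have hss : HasCompactSupport fun z => β z * kf ρ s (q i0 z - q i0 ζ) := hsupp.mul_right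
    refine hcc.integral_pos_of_hasCompactSupport_nonneg_nonzero hss
      (fun z => mul_nonneg (hβ0 z) (ps_nonneg _)) (x := ζ) ?_
    have : kf ρ s (q i0 ζ - q i0 ζ) = 1 := by
      unfold kf
      rw [sub_self, norm_zero]
      exact ps_one h1 (by norm_num; exact sq_nonneg ρ)
    rw [this, mul_one]
    exact (hβp ζ hζ).ne'

variable {e : X → E m} {F : X → E n} {B : ι → E n → X}

omit [Fintype ι] in
theorem q_smooth (hI : ∀ x, Imm (n := n) e x) (hBl : ∀ i z, LD n (B i) z) (i : ι) :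
    ContDiff ℝ ∞ (fun z => e (B i z)) :=
  contDiff_iff_contDiffAt.2 fun z => (imm_smooth (hI _) (hBl i z)).1

/-- the case of a bad point -/
theorem local_bad (h1 : ρ ^ 2 < 1) {η : ℝ} (hA : Adm n ρ η)
    (hβ : Continuous β) (hβ0 : ∀ z, 0 ≤ β z) (hβs : ∀ z, 1 < ‖z‖ → β z = 0) (hβp : ∀ z, ‖z‖ < 1 → 0 < β z)
    (he : IsEmbedding e) (hI : ∀ x, Imm (n := n) e x) (hF : Continuous F) (hBi : ∀ i, Injective (B i))
    (hBl : ∀ i z, LD n (B i) z) (i0 : ι) {ζ : E n} (hζ : ‖ζ‖ < 1) {S : Set ℝ} (hrec : TRec e F S η (B i0 ζ)) :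
    ∀ᶠ t : ℝ × E n in 𝓝[>] 0 ×ˢ 𝓝 ζ, t.1 ∈ S →
      LD n (fun x => Gs ρ β (fun i z => e (B i z)) (fun i z => F (B i z)) t.1 (e x)) (B i0 t.2) := by
  have hBc : ∀ i, Continuous (B i) := fun i => continuous_iff_continuousAt.2 fun z => (hBl i z).continuousAt
  have hq : ∀ i, ContDiff ℝ ∞ (fun z => e (B i z)) := q_smooth hI hBl
  have hqd : ∀ i z, Injective (fderiv ℝ (fun z => e (B i z)) z) := fun i z => (imm_smooth (hI _) (hBl i z)).2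
  have hqi : ∀ i, Injective (fun z => e (B i z)) := fun i => he.injective.comp (hBi i)
  have hg : ∀ i, Continuous (fun z => F (B i z)) := fun i => hF.comp (hBc i)
  have hball : ∀ᶠ y in 𝓝 ζ, ‖y‖ < 1 := by
    have := isOpen_ball.mem_nhds (show ζ ∈ ball (0 : E n) 1 by rw [mem_ball_zero_iff]; exact hζ)
    filter_upwards [this] with y hy
    rwa [mem_ball_zero_iff] at hy
  have hkey : ∀ᶠ t : ℝ × E n in 𝓝[>] 0 ×ˢ 𝓝 ζ, ∀ v : E n, ‖v‖ = 1 → t.1 ∈ S →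
      fderiv ℝ (Gs ρ β (fun i z => e (B i z)) (fun i z => F (B i z)) t.1) (e (B i0 t.2))
        (fderiv ℝ (fun z => e (B i0 z)) t.2 v) ≠ 0 := by
    refine all_dirs (P := fun s y v => s ∈ S → fderiv ℝ (Gs ρ β (fun i z => e (B i z)) (fun i z => F (B i z)) s)
      (e (B i0 y)) (fderiv ℝ (fun z => e (B i0 z)) y v) ≠ 0) fun v hv => ?_
    have hv0 : v ≠ 0 := by
      rw [← norm_pos_iff, hv]; exact one_pos
    obtain ⟨c0, hc0, hlow⟩ := main_low h1 hA hβ hβ0 hβs hq hg hqi hqd i0 hζ (hβp ζ hζ) hv0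
      (fun i => chart_alt he.injective (hBl i) (hBl i0) (hq i) ζ v)
    have hfst : Tendsto (fun t : ℝ × E n × E n => (t.1, t.2.1)) (𝓝[>] 0 ×ˢ 𝓝 ζ ×ˢ 𝓝 v) (𝓝[>] 0 ×ˢ 𝓝 ζ) :=
      tendsto_fst.prodMk (tendsto_fst.comp tendsto_snd)
    filter_upwards [hlow, hrec (B i0) ζ rfl (hBi i0) (hBl i0) v hv0,
      hfst.eventually (tendsto_snd.eventually hball)] with t ht hr htb htS hcon
    obtain ⟨ℓ, c, hℓ⟩ := hr htS
    have h3 := ht (Zs_pos h1 hβ hβ0 hβs hβp (fun i => (hq i).continuous) i0 htb) ℓ c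
      fun i z _ hz2 => hℓ (B i z) hz2
    rw [hcon, map_zero] at h3
    exact absurd h3 (not_le.2 hc0)
  filter_upwards [hkey, tendsto_snd.eventually hball] with t ht htb htS
  refine LD_of_comp (hBl i0 t.2) ?_
  have hGs : ∀ y : E n, ‖y‖ < 1 →
      ContDiffAt ℝ ∞ (Gs ρ β (fun i z => e (B i z)) (fun i z => F (B i z)) t.1) (e (B i0 y)) := fun y hy =>
    Gs_smooth hβ hβs hq hg t.1
      (Zs_pos (q := fun i z => e (B i z)) h1 hβ hβ0 hβs hβp (fun i => (hq i).continuous) i0 hy).ne'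
  refine LD_of_inj ?_ ?_
  · have hbt : ∀ᶠ y in 𝓝 t.2, ‖y‖ < 1 := by
      have := isOpen_ball.mem_nhds (show t.2 ∈ ball (0 : E n) 1 by rw [mem_ball_zero_iff]; exact htb)
      filter_upwards [this] with y hy
      rwa [mem_ball_zero_iff] at hy
    filter_upwards [hbt] with y hy
    exact ContDiffAt.comp (g := Gs ρ β (fun i z => e (B i z)) (fun i z => F (B i z)) t.1)
      (f := fun z => e (B i0 z)) y (hGs y hy) (hq i0).contDiffAt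
  · intro v hv
    have h2 : HasFDerivAt (fun z => Gs ρ β (fun i z => e (B i z)) (fun i z => F (B i z)) t.1 (e (B i0 z)))
        ((fderiv ℝ (Gs ρ β (fun i z => e (B i z)) (fun i z => F (B i z)) t.1) (e (B i0 t.2))).comp
          (fderiv ℝ (fun z => e (B i0 z)) t.2)) t.2 :=
      HasFDerivAt.comp (g := Gs ρ β (fun i z => e (B i z)) (fun i z => F (B i z)) t.1)
        (f := fun z => e (B i0 z)) t.2 ((hGs t.2 htb).differentiableAt (by simp)).hasFDerivAt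
        ((hq i0).differentiable (by simp) _).hasFDerivAt
    rw [h2.fderiv]
    exact ht v hv htS

/-- at good points the linear coordinates are recovered -/
theorem good_rec {B0 : E n → X} (he : IsEmbedding e) (hBi : Injective B0) (hBl : ∀ z, LD n B0 z)
    (hq : ContDiff ℝ ∞ fun z => e (B0 z)) {ζ v : E n} (hqd : Injective (fderiv ℝ (fun z => e (B0 z)) ζ))
    (hg : LD n F (B0 ζ)) (hζ : ‖ζ‖ < 1) (hv : v ≠ 0) :
    ∃ ℓ : E n →L[ℝ] ℝ, 0 < ℓ (fderiv ℝ (fun z => F (B0 z)) ζ v) ∧ ∀ ε : ℝ, 0 < ε →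
      ∀ᶠ t : ℝ × E n × E n in 𝓝[>] 0 ×ˢ 𝓝 ζ ×ˢ 𝓝 v, ∀ u : X, ‖e u - e (B0 t.2.1)‖ ≤ t.1 →
        |ℓ (F u) + -ℓ (F (B0 t.2.1)) - inner ℝ (fderiv ℝ (fun z => e (B0 z)) t.2.1 t.2.2) (e u - e (B0 t.2.1))| ≤
          ε * t.1 := by
  have hBc : Continuous B0 := continuous_iff_continuousAt.2 fun z => (hBl z).continuousAt
  have hfl : LD n (fun z => F (B0 z)) ζ := Pool.Agent.Y522.LD.comp_fun hg (hBl ζ)
  obtain ⟨A, hA⟩ := hfl.exists_equiv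
  have hfs : HasStrictFDerivAt (fun z => F (B0 z)) (A : E n →L[ℝ] E n) ζ := by
    have h1 := hfl.contDiffAt.hasStrictFDerivAt (by simp)
    rwa [hA.fderiv] at h1
  obtain ⟨J, hJ⟩ : ∃ J, J = fderiv ℝ (fun z => e (B0 z)) ζ := ⟨_, rfl⟩
  have hqs : HasStrictFDerivAt (fun z => e (B0 z)) J ζ := by
    rw [hJ]
    exact hq.contDiffAt.hasStrictFDerivAt (by simp)
  rw [← hJ] at hqd
  obtain ⟨c, hc, hlow⟩ := lower_lip hq.continuous (he.injective.comp hBi) hqs hqd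
  obtain ⟨V, hV⟩ : ∃ V, V = J v := ⟨_, rfl⟩
  have hV0 : V ≠ 0 := by
    intro h
    apply hv
    apply hqd
    rw [map_zero, ← hV, h]
  have hVn : 0 < ‖V‖ := norm_pos_iff.2 hV0
  obtain ⟨ℓ, hℓ⟩ : ∃ ℓ : E n →L[ℝ] ℝ, ∀ w, ℓ w = inner ℝ V (J (A.symm w)) :=
    ⟨(innerSL ℝ V).comp (J.comp (A.symm : E n →L[ℝ] E n)), fun w => rfl⟩
  refine ⟨ℓ, ?_, fun ε hε => ?_⟩
  · rw [hA.fderiv, hℓ]
    have : A.symm ((A : E n →L[ℝ] E n) v) = v := A.symm_apply_apply v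
    rw [this, ← hV, real_inner_self_eq_norm_sq]
    positivity
  -- the choice of the constants
  obtain ⟨ε1, hε1⟩ : ∃ ε1, ε1 = ε * c / (2 * (‖ℓ‖ + ‖V‖ + 1)) := ⟨_, rfl⟩
  have hε1p : 0 < ε1 := by rw [hε1]; positivity
  have h1 := hfs.isLittleO.def hε1p
  have h2 := hqs.isLittleO.def hε1p
  obtain ⟨δ, hδ, hδ2⟩ := Metric.eventually_nhds_iff_ball.1 (h1.and h2)
  have hin : ∀ z z' : E n, z ∈ ball ζ δ → z' ∈ ball ζ δ →
      ‖F (B0 z) - F (B0 z') - A (z - z')‖ ≤ ε1 * ‖z - z'‖ ∧ ‖e (B0 z) - e (B0 z') - J (z - z')‖ ≤ ε1 * ‖z - z'‖ := by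
    intro z z' hz hz'
    have h3 := hδ2 (z, z') (by
      rw [mem_ball, Prod.dist_eq]
      exact max_lt hz hz')
    exact h3
  obtain ⟨p, hp, hp0, -, hp2⟩ := (hBl ζ).exists_inverse
  have hpc : ContinuousAt p (B0 ζ) := hp.continuousAt
  have hU : {y | B0 (p y) = y ∧ p y ∈ ball ζ δ ∧ ‖p y‖ < 1} ∈ 𝓝 (B0 ζ) := by
    have h3 : ∀ᶠ y in 𝓝 (B0 ζ), p y ∈ ball ζ δ := by
      apply hpc
      rw [hp0]
      exact ball_mem_nhds ζ hδ
    have h4 : ∀ᶠ y in 𝓝 (B0 ζ), p y ∈ ball (0 : E n) 1 := by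
      apply hpc
      rw [hp0]
      exact isOpen_ball.mem_nhds (by rw [mem_ball_zero_iff]; exact hζ)
    filter_upwards [hp2, h3, h4] with y hy1 hy2 hy3
    rw [mem_ball_zero_iff] at hy3
    exact ⟨hy1, hy2, hy3⟩
  have hfst : Tendsto (fun t : ℝ × E n × E n => (t.1, t.2.1)) (𝓝[>] 0 ×ˢ 𝓝 ζ ×ˢ 𝓝 v) (𝓝[>] 0 ×ˢ 𝓝 ζ) :=
    tendsto_fst.prodMk (tendsto_fst.comp tendsto_snd)
  have tζ : Tendsto (fun t : ℝ × E n × E n => t.2.1) (𝓝[>] 0 ×ˢ 𝓝 ζ ×ˢ 𝓝 v) (𝓝 ζ) :=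
    tendsto_fst.comp tendsto_snd
  have ts : Tendsto (fun t : ℝ × E n × E n => t.1) (𝓝[>] 0 ×ˢ 𝓝 ζ ×ˢ 𝓝 v) (𝓝[>] 0) := tendsto_fst
  have tV : Tendsto (fun t : ℝ × E n × E n => ‖fderiv ℝ (fun z => e (B0 z)) t.2.1 t.2.2 - V‖)
      (𝓝[>] 0 ×ˢ 𝓝 ζ ×ˢ 𝓝 v) (𝓝 0) := by
    have h1 : Continuous fun p : E n × E n => fderiv ℝ (fun z => e (B0 z)) p.1 p.2 :=
      ((hq.continuous_fderiv (by simp)).comp continuous_fst).clm_apply continuous_snd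
    have h2 := h1.tendsto (ζ, v)
    rw [nhds_prod_eq] at h2
    simp only at h2
    rw [← hJ, ← hV] at h2
    have h3 := ((h2.comp (tendsto_snd (f := 𝓝[>] (0 : ℝ)) (g := 𝓝 ζ ×ˢ 𝓝 v))).sub_const V).norm
    rw [sub_self, norm_zero] at h3
    exact h3
  filter_upwards [hfst.eventually (emb_near he hBc.continuousAt hU), tζ.eventually (ball_mem_nhds ζ hδ),
    tζ.eventually hlow, tV.eventually (gt_mem_nhds (show 0 < ε / 2 by positivity)),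
    ts.eventually self_mem_nhdsWithin] with t ht1 ht2 ht3 ht4 ht5 u hu
  obtain ⟨hu1, hu2, hu3⟩ := ht1 u hu
  obtain ⟨z, hz⟩ : ∃ z, z = p u := ⟨_, rfl⟩
  rw [← hz] at hu1 hu2 hu3
  obtain ⟨h5, h6⟩ := hin z t.2.1 hu2 ht2
  have h7 := ht3 z hu3.le
  rw [← hu1] at hu ⊢
  have hs : (0 : ℝ) < t.1 := ht5
  have h8 : ‖z - t.2.1‖ ≤ t.1 / c := by
    rw [le_div_iff₀ hc, mul_comm]
    exact h7.trans hu
  obtain ⟨W, hW⟩ : ∃ W, W = fderiv ℝ (fun z => e (B0 z)) t.2.1 t.2.2 := ⟨_, rfl⟩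
  rw [← hW] at ht4 ⊢
  have e1 : ℓ (A (z - t.2.1)) = inner ℝ V (J (z - t.2.1)) := by
    rw [hℓ, A.symm_apply_apply]
  have e2 : ℓ (F (B0 z)) + -ℓ (F (B0 t.2.1)) - inner ℝ W (e (B0 z) - e (B0 t.2.1)) =
      ℓ (F (B0 z) - F (B0 t.2.1) - A (z - t.2.1)) - inner ℝ V (e (B0 z) - e (B0 t.2.1) - J (z - t.2.1)) -
        inner ℝ (W - V) (e (B0 z) - e (B0 t.2.1)) := by
    rw [inner_sub_right V, inner_sub_left, map_sub ℓ (F (B0 z) - F (B0 t.2.1)), map_sub ℓ (F (B0 z)), e1]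
    ring
  rw [e2]
  have b1 : |ℓ (F (B0 z) - F (B0 t.2.1) - A (z - t.2.1))| ≤ ‖ℓ‖ * (ε1 * (t.1 / c)) := by
    rw [← Real.norm_eq_abs]
    refine (ℓ.le_opNorm _).trans (mul_le_mul_of_nonneg_left (h5.trans ?_) (norm_nonneg _))
    exact mul_le_mul_of_nonneg_left h8 hε1p.le
  have b2 : |inner ℝ V (e (B0 z) - e (B0 t.2.1) - J (z - t.2.1))| ≤ ‖V‖ * (ε1 * (t.1 / c)) := by
    refine (abs_real_inner_le_norm _ _).trans (mul_le_mul_of_nonneg_left (h6.trans ?_) (norm_nonneg _))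
    exact mul_le_mul_of_nonneg_left h8 hε1p.le
  have b3 : |inner ℝ (W - V) (e (B0 z) - e (B0 t.2.1))| ≤ ε / 2 * t.1 := by
    refine (abs_real_inner_le_norm _ _).trans ?_
    exact mul_le_mul ht4.le hu (norm_nonneg _) (by positivity)
  have b4 : (‖ℓ‖ + ‖V‖) * (ε1 * (t.1 / c)) ≤ ε / 2 * t.1 := by
    rw [hε1]
    have h9 : (‖ℓ‖ + ‖V‖) * (ε * c / (2 * (‖ℓ‖ + ‖V‖ + 1)) * (t.1 / c)) =
        ε / 2 * t.1 * ((‖ℓ‖ + ‖V‖) / (‖ℓ‖ + ‖V‖ + 1)) := by field_simp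
    rw [h9]
    have h10 : (‖ℓ‖ + ‖V‖) / (‖ℓ‖ + ‖V‖ + 1) ≤ 1 := by
      rw [div_le_one (by positivity)]
      linarith
    have h11 : 0 ≤ ε / 2 * t.1 := by positivity
    nlinarith
  have b5 := abs_sub (ℓ (F (B0 z) - F (B0 t.2.1) - A (z - t.2.1)) -
    inner ℝ V (e (B0 z) - e (B0 t.2.1) - J (z - t.2.1))) (inner ℝ (W - V) (e (B0 z) - e (B0 t.2.1)))
  have b6 := abs_sub (ℓ (F (B0 z) - F (B0 t.2.1) - A (z - t.2.1)))
    (inner ℝ V (e (B0 z) - e (B0 t.2.1) - J (z - t.2.1)))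
  nlinarith

end

end Pool.Agent.H865_small
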