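import Pool.Agent.H865_small.Lim

/-!
# The main inequality

`Gs` is the average with the kernel of radius `s` of finitely many maps `g i`, in terms of the maps `q i`. If every
linear coordinate of the `q i` is recovered up to `η s` by an affine function of the `g i`, then the derivative of `Gs`
is bounded from below in the corresponding directions.
-/

set_option autoImplicit false

open Set Filter Topology Metric Function MeasureTheory
open scoped ContDiff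

noncomputable section

namespace Pool.Agent.H865_small

variable {n m : ℕ} {ρ : ℝ} {ι : Type} [Fintype ι]

/-- the normalisation -/
def Zs (ρ : ℝ) (β : E n → ℝ) (q : ι → E n → E m) (s : ℝ) (p : E m) : ℝ :=
  ∑ i, ∫ z, β z * kf ρ s (q i z - p)

/-- the average before the normalisation -/
def Ns (ρ : ℝ) (β : E n → ℝ) (q : ι → E n → E m) (g : ι → E n → E n) (s : ℝ) (p : E m) : E n :=
  ∑ i, ∫ z, (β z * kf ρ s (q i z - p)) • g i z

/-- the average -/
def Gs (ρ : ℝ) (β : E n → ℝ) (q : ι → E n → E m) (g : ι → E n → E n) (s : ℝ) (p : E m) : E n :=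
  (Zs ρ β q s p)⁻¹ • Ns ρ β q g s p

section

variable {β : E n → ℝ} {q : ι → E n → E m} {g : ι → E n → E n}

theorem bump_supp (hβs : ∀ z, 1 < ‖z‖ → β z = 0) : HasCompactSupport β := by
  apply HasCompactSupport.of_support_subset_isCompact (isCompact_closedBall (0 : E n) 1)
  intro ζ hζ
  rw [mem_closedBall_zero_iff]
  by_contra hcon
  exact hζ (hβs ζ (not_le.1 hcon))

theorem kf_cont (s : ℝ) : Continuous (kf (m := m) ρ s) := (kf_contDiff s).continuous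

theorem Zs_smooth (hβ : Continuous β) (hβs : ∀ z, 1 < ‖z‖ → β z = 0) (hq : ∀ i, ContDiff ℝ ∞ (q i)) (s : ℝ) :
    ContDiff ℝ ∞ (Zs ρ β q s) := by
  unfold Zs
  apply ContDiff.sum
  intro i _
  have h := param_smooth (P := E m) (volume : Measure (E n)) (ContinuousLinearMap.lsmul ℝ ℝ : ℝ →L[ℝ] ℝ →L[ℝ] ℝ)
    (n := ⊤) (f := β) hβ.locallyIntegrable one_pos hβs (g := fun p z => kf ρ s (q i z - p))
    ((kf_contDiff s).comp (((hq i).comp contDiff_snd).sub contDiff_fst))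
  exact h

theorem Ns_smooth (hβ : Continuous β) (hβs : ∀ z, 1 < ‖z‖ → β z = 0) (hq : ∀ i, ContDiff ℝ ∞ (q i))
    (hg : ∀ i, Continuous (g i)) (s : ℝ) : ContDiff ℝ ∞ (Ns ρ β q g s) := by
  unfold Ns
  apply ContDiff.sum
  intro i _
  have h := param_smooth (P := E m) (volume : Measure (E n))
    (ContinuousLinearMap.lsmul ℝ ℝ : ℝ →L[ℝ] E n →L[ℝ] E n).flip
    (n := ⊤) (f := fun z => β z • g i z) (hβ.smul (hg i)).locallyIntegrable one_pos
    (fun z hz => by simp only [hβs z hz, zero_smul]) (g := fun p z => kf ρ s (q i z - p))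
    ((kf_contDiff s).comp (((hq i).comp contDiff_snd).sub contDiff_fst))
  have e : (fun p => ∫ z, (β z * kf ρ s (q i z - p)) • g i z) =
      fun p => ∫ z, (ContinuousLinearMap.lsmul ℝ ℝ : ℝ →L[ℝ] E n →L[ℝ] E n).flip (β z • g i z) (kf ρ s (q i z - p)) := by
    funext p
    congr 1
    funext z
    simp [smul_smul]
  rw [e]
  exact h

theorem Gs_smooth (hβ : Continuous β) (hβs : ∀ z, 1 < ‖z‖ → β z = 0) (hq : ∀ i, ContDiff ℝ ∞ (q i))
    (hg : ∀ i, Continuous (g i)) (s : ℝ) {p : E m} (hp : Zs ρ β q s p ≠ 0) : ContDiffAt ℝ ∞ (Gs ρ β q g s) p := by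
  unfold Gs
  exact ((Zs_smooth hβ hβs hq s).contDiffAt.inv hp).smul (Ns_smooth hβ hβs hq hg s).contDiffAt

/-- the weights -/
theorem ell_Ns (hβ : Continuous β) (hβs : ∀ z, 1 < ‖z‖ → β z = 0) (hq : ∀ i, Continuous (q i))
    (hg : ∀ i, Continuous (g i)) (s : ℝ) (p : E m) (ℓ : E n →L[ℝ] ℝ) (c : ℝ) :
    ℓ (Ns ρ β q g s p) + c * Zs ρ β q s p = ∑ i, ∫ z, (β z * (ℓ (g i z) + c)) * kf ρ s (q i z - p) := by
  have hk := kf_cont (m := m) (ρ := ρ) s
  unfold Ns Zs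
  rw [map_sum, Finset.mul_sum, ← Finset.sum_add_distrib]
  refine Finset.sum_congr rfl fun i _ => ?_
  have hsupp := bump_supp hβs
  have hc1 : Continuous fun z => (β z * kf ρ s (q i z - p)) • g i z := by
    have h1 := hq i
    have h2 := hg i
    exact (hβ.mul (hk.comp (by fun_prop))).smul h2
  have hi1 : Integrable (fun z => (β z * kf ρ s (q i z - p)) • g i z) :=
    hc1.integrable_of_hasCompactSupport (hsupp.mul_right.smul_right)
  have hi2 : Integrable (fun z => β z * kf ρ s (q i z - p)) := by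
    have h1 := hq i
    exact (hβ.mul (hk.comp (by fun_prop))).integrable_of_hasCompactSupport hsupp.mul_right
  rw [← ContinuousLinearMap.integral_comp_comm _ hi1, ← integral_const_mul, ← integral_add]
  · congr 1
    funext z
    rw [map_smul, smul_eq_mul]
    ring
  · exact (ℓ.integrable_comp hi1)
  · exact hi2.const_mul c

/-- the derivative of an average in a direction -/
theorem param_eval {q : E n → E m} (hq : Continuous q) {a : E n → ℝ} (ha : Continuous a) (has : HasCompactSupport a)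
    (s : ℝ) (p V : E m) :
    (∫ z, a z • (- fderiv ℝ (kf ρ s) (q z - p))) V =
      ∫ z, a z * (om ρ (‖q z - p‖ ^ 2 / s ^ 2) * (2 / s ^ 2) * inner ℝ (q z - p) V) := by
  rw [← (param_fderiv (kf_contDiff s) hq ha has p).fderiv, param_fderiv_apply (kf_contDiff s) hq ha has]
  congr 1
  funext z
  rw [kf_fderiv]
  ring

/-- the pointwise inequality -/
theorem point_ineq (h1 : ρ ^ 2 < 1) {b η s x : ℝ} (hb : 0 ≤ b) (hs : 0 < s) {w V : E m}
    (h2 : ‖w‖ ≤ s → |x - inner ℝ V w| ≤ η * s * ‖V‖) :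
    2 * (b * φ2 ρ η (s⁻¹ • w) V) ≤ b * x * (om ρ (‖w‖ ^ 2 / s ^ 2) * (2 / s ^ 2) * inner ℝ w V) := by
  have hnorm : ‖s⁻¹ • w‖ ^ 2 = ‖w‖ ^ 2 / s ^ 2 := by
    rw [norm_smul, norm_inv, Real.norm_eq_abs, abs_of_pos hs]
    field_simp
  have hinner : inner ℝ (s⁻¹ • w) V = s⁻¹ * inner ℝ w V := by
    rw [inner_smul_left]; simp
  rcases le_or_gt ‖w‖ s with hz2 | hz2
  · have h2 := h2 hz2
    have h3 := om_nonneg h1 (‖w‖ ^ 2 / s ^ 2)
    have e1 : φ2 ρ η (s⁻¹ • w) V = om ρ (‖w‖ ^ 2 / s ^ 2) * (1 / s ^ 2) *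
        ((inner ℝ w V) ^ 2 - η * s * ‖V‖ * |inner ℝ w V|) := by
      unfold φ2
      rw [hnorm, hinner, abs_mul, abs_inv, abs_of_pos hs]
      field_simp
    rw [e1]
    have h5 : (inner ℝ w V) ^ 2 - η * s * ‖V‖ * |inner ℝ w V| ≤ x * inner ℝ w V := by
      rw [real_inner_comm] at h2
      set t := inner ℝ w V with ht
      have h6 : x * t = t ^ 2 + (x - t) * t := by ring
      have h7 : -(η * s * ‖V‖ * |t|) ≤ (x - t) * t := by
        have h8 : |(x - t) * t| ≤ η * s * ‖V‖ * |t| := by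
          rw [abs_mul]
          exact mul_le_mul_of_nonneg_right h2 (abs_nonneg _)
        exact (abs_le.1 h8).1
      rw [h6]
      linarith
    have h9 : 0 ≤ b * (om ρ (‖w‖ ^ 2 / s ^ 2) * (1 / s ^ 2)) := by positivity
    calc 2 * (b * (om ρ (‖w‖ ^ 2 / s ^ 2) * (1 / s ^ 2) *
        ((inner ℝ w V) ^ 2 - η * s * ‖V‖ * |inner ℝ w V|)))
        = 2 * (b * (om ρ (‖w‖ ^ 2 / s ^ 2) * (1 / s ^ 2)) *
          ((inner ℝ w V) ^ 2 - η * s * ‖V‖ * |inner ℝ w V|)) := by ring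
      _ ≤ 2 * (b * (om ρ (‖w‖ ^ 2 / s ^ 2) * (1 / s ^ 2)) * (x * inner ℝ w V)) := by
          have := mul_le_mul_of_nonneg_left h5 h9
          linarith
      _ = _ := by ring
  · have h3 : 1 ≤ ‖w‖ ^ 2 / s ^ 2 := by
      rw [le_div_iff₀ (by positivity)]
      nlinarith
    have e1 : φ2 ρ η (s⁻¹ • w) V = 0 := by
      unfold φ2
      rw [hnorm, om_zero_of_one_le h1 h3, zero_mul]
    rw [e1, om_zero_of_one_le h1 h3]
    simp

/-- the bound for a weight -/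
theorem point_bound (h1 : ρ ^ 2 < 1) {b η s x : ℝ} (hb : 0 ≤ b) (hs : 0 < s) {w V : E m}
    (h2 : ‖w‖ ≤ s → |x - inner ℝ V w| ≤ η * s * ‖V‖) :
    |b * x * kf ρ s w| ≤ (1 + η) * s * ‖V‖ * (b * kf ρ s w) := by
  have h5 : 0 ≤ kf ρ s w := ps_nonneg _
  rcases le_or_gt ‖w‖ s with hz2 | hz2
  · have h2 := h2 hz2
    have h6 : |inner ℝ V w| ≤ ‖V‖ * s :=
      (abs_real_inner_le_norm _ _).trans (mul_le_mul_of_nonneg_left hz2 (norm_nonneg _))
    have h7 : |x| ≤ (1 + η) * s * ‖V‖ := by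
      have := abs_sub_abs_le_abs_sub x (inner ℝ V w)
      linarith
    rw [abs_mul, abs_mul, abs_of_nonneg hb, abs_of_nonneg h5]
    calc b * |x| * kf ρ s w ≤ b * ((1 + η) * s * ‖V‖) * kf ρ s w := by gcongr
      _ = _ := by ring
  · have h3 : 1 ≤ ‖w‖ ^ 2 / s ^ 2 := by
      rw [le_div_iff₀ (by positivity)]
      nlinarith
    have e1 : kf ρ s w = 0 := ps_zero h1 h3
    rw [e1]; simp

/-- integration of the pointwise inequality -/
theorem int_ineq (hβ : Continuous β) (hβ0 : ∀ z, 0 ≤ β z) (hβs : ∀ z, 1 < ‖z‖ → β z = 0) (h1 : ρ ^ 2 < 1)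
    {q : E n → E m} (hq : Continuous q) {x : E n → ℝ} (hx : Continuous x) {s : ℝ} (hs : 0 < s) {p V : E m} {η : ℝ}
    (hc : ∀ z, ‖z‖ ≤ 1 → ‖q z - p‖ ≤ s → |x z - inner ℝ V (q z - p)| ≤ η * s * ‖V‖) :
    2 * ∫ z, β z * φ2 ρ η (s⁻¹ • (q z - p)) V ≤
      ∫ z, β z * x z * (om ρ (‖q z - p‖ ^ 2 / s ^ 2) * (2 / s ^ 2) * inner ℝ (q z - p) V) := by
  have hsupp := bump_supp hβs
  have hom := om_cont (ρ := ρ)
  rw [← integral_const_mul]
  refine integral_mono ?_ ?_ fun z => ?_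
  · have hw : Continuous fun z => (s⁻¹ • (q z - p), V) := by fun_prop
    have hw2 : Continuous (uncurry (φ2 (m := m) ρ η) ∘ fun z => (s⁻¹ • (q z - p), V)) := (φ2_cont η).comp hw
    have hcc : Continuous fun z => β z * (uncurry (φ2 (m := m) ρ η) ∘ fun z => (s⁻¹ • (q z - p), V)) z := hβ.mul hw2
    have hss : HasCompactSupport fun z => β z * (uncurry (φ2 (m := m) ρ η) ∘ fun z => (s⁻¹ • (q z - p), V)) z :=
      hsupp.mul_right
    exact (hcc.integrable_of_hasCompactSupport hss).const_mul 2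
  · have hw : Continuous fun z => q z - p := by fun_prop
    have hw1 : Continuous fun z => ‖q z - p‖ ^ 2 / s ^ 2 := (hw.norm.pow 2).div_const _
    have hw2 : Continuous fun z => om ρ (‖q z - p‖ ^ 2 / s ^ 2) * (2 / s ^ 2) * inner ℝ (q z - p) V :=
      ((hom.comp hw1).mul continuous_const).mul (hw.inner continuous_const)
    have hcc : Continuous fun z => β z * x z *
        (om ρ (‖q z - p‖ ^ 2 / s ^ 2) * (2 / s ^ 2) * inner ℝ (q z - p) V) := (hβ.mul hx).mul hw2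
    have hs1 : HasCompactSupport fun z => β z * x z := hsupp.mul_right
    have hs2 : HasCompactSupport fun z => β z * x z *
        (om ρ (‖q z - p‖ ^ 2 / s ^ 2) * (2 / s ^ 2) * inner ℝ (q z - p) V) := hs1.mul_right
    exact hcc.integrable_of_hasCompactSupport hs2
  · rcases lt_or_ge 1 ‖z‖ with hz | hz
    · simp [hβs z hz]
    · exact point_ineq h1 (hβ0 z) hs (hc z hz)

theorem int_bound (hβ : Continuous β) (hβ0 : ∀ z, 0 ≤ β z) (hβs : ∀ z, 1 < ‖z‖ → β z = 0) (h1 : ρ ^ 2 < 1)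
    {q : E n → E m} (hq : Continuous q) {x : E n → ℝ} {s : ℝ} (hs : 0 < s) {p V : E m} {η : ℝ}
    (hc : ∀ z, ‖z‖ ≤ 1 → ‖q z - p‖ ≤ s → |x z - inner ℝ V (q z - p)| ≤ η * s * ‖V‖) :
    |∫ z, β z * x z * kf ρ s (q z - p)| ≤ (1 + η) * s * ‖V‖ * ∫ z, β z * kf ρ s (q z - p) := by
  have hsupp := bump_supp hβs
  rw [← integral_const_mul, ← Real.norm_eq_abs]
  refine norm_integral_le_of_norm_le ?_ (Eventually.of_forall fun z => ?_)
  · have hw : Continuous fun z => q z - p := by fun_prop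
    have hcc : Continuous fun z => β z * kf ρ s (q z - p) := hβ.mul ((kf_cont s).comp hw)
    exact (hcc.integrable_of_hasCompactSupport hsupp.mul_right).const_mul _
  · rcases lt_or_ge 1 ‖z‖ with hz | hz
    · simp [hβs z hz]
    · exact point_bound h1 (hβ0 z) hs (hc z hz)

/-- the bound for the value -/
theorem val_bound (hβ : Continuous β) (hβ0 : ∀ z, 0 ≤ β z) (hβs : ∀ z, 1 < ‖z‖ → β z = 0) (h1 : ρ ^ 2 < 1)
    (hq : ∀ i, Continuous (q i)) (hg : ∀ i, Continuous (g i)) {s : ℝ} (hs : 0 < s) {p V : E m}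
    (hZ : 0 < Zs ρ β q s p) {η : ℝ} (ℓ : E n →L[ℝ] ℝ) (c : ℝ)
    (hc : ∀ i z, ‖z‖ ≤ 1 → ‖q i z - p‖ ≤ s → |ℓ (g i z) + c - inner ℝ V (q i z - p)| ≤ η * s * ‖V‖) :
    |ℓ (Gs ρ β q g s p) + c| ≤ (1 + η) * s * ‖V‖ := by
  have haZ : |ℓ (Ns ρ β q g s p) + c * Zs ρ β q s p| ≤ (1 + η) * s * ‖V‖ * Zs ρ β q s p := by
    rw [ell_Ns hβ hβs hq hg s p ℓ c]
    calc |∑ i, ∫ z, (β z * (ℓ (g i z) + c)) * kf ρ s (q i z - p)|
        ≤ ∑ i, |∫ z, (β z * (ℓ (g i z) + c)) * kf ρ s (q i z - p)| := Finset.abs_sum_le_sum_abs _ _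
      _ ≤ ∑ i, (1 + η) * s * ‖V‖ * ∫ z, β z * kf ρ s (q i z - p) :=
          Finset.sum_le_sum fun i _ => int_bound hβ hβ0 hβs h1 (hq i) hs (hc i)
      _ = (1 + η) * s * ‖V‖ * Zs ρ β q s p := by
          unfold Zs
          rw [Finset.mul_sum]
  have e1 : ℓ (Ns ρ β q g s p) + c * Zs ρ β q s p = (ℓ (Gs ρ β q g s p) + c) * Zs ρ β q s p := by
    unfold Gs
    rw [map_smul, smul_eq_mul]
    field_simp
  rw [e1, abs_mul, abs_of_pos hZ] at haZ
  exact le_of_mul_le_mul_right haZ hZ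

/-- the lower bound for the derivative -/
theorem deriv_low (hβ : Continuous β) (hβ0 : ∀ z, 0 ≤ β z) (hβs : ∀ z, 1 < ‖z‖ → β z = 0) (h1 : ρ ^ 2 < 1)
    (hq : ∀ i, ContDiff ℝ ∞ (q i)) (hg : ∀ i, Continuous (g i)) {s : ℝ} (hs : 0 < s) {p V : E m}
    (hZ : 0 < Zs ρ β q s p) {η : ℝ} (ℓ : E n →L[ℝ] ℝ) (c : ℝ)
    (hc : ∀ i z, ‖z‖ ≤ 1 → ‖q i z - p‖ ≤ s → |ℓ (g i z) + c - inner ℝ V (q i z - p)| ≤ η * s * ‖V‖) :
    2 / (∑ i, ∫ z, β z * φ0 ρ (s⁻¹ • (q i z - p)) V) * ((∑ i, ∫ z, β z * φ2 ρ η (s⁻¹ • (q i z - p)) V) -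
      (1 + η) * ‖V‖ * |∑ i, ∫ z, β z * φ1 ρ (s⁻¹ • (q i z - p)) V|) ≤ ℓ (fderiv ℝ (Gs ρ β q g s) p V) := by
  have hqc : ∀ i, Continuous (q i) := fun i => (hq i).continuous
  have hsupp := bump_supp hβs
  have hnorm : ∀ i z, ‖s⁻¹ • (q i z - p)‖ ^ 2 = ‖q i z - p‖ ^ 2 / s ^ 2 := by
    intro i z
    rw [norm_smul, norm_inv, Real.norm_eq_abs, abs_of_pos hs]
    field_simp
  have hinner : ∀ i z, inner ℝ (s⁻¹ • (q i z - p)) V = s⁻¹ * inner ℝ (q i z - p) V := by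
    intro i z
    rw [inner_smul_left]; simp
  have hZe : Zs ρ β q s p = ∑ i, ∫ z, β z * φ0 ρ (s⁻¹ • (q i z - p)) V := by
    unfold Zs
    refine Finset.sum_congr rfl fun i _ => integral_congr_ae (Eventually.of_forall fun z => ?_)
    simp only [φ0, kf, hnorm]
  set A1 := ∑ i, ∫ z, β z * φ1 ρ (s⁻¹ • (q i z - p)) V with hA1
  set A2 := ∑ i, ∫ z, β z * φ2 ρ η (s⁻¹ • (q i z - p)) V with hA2
  rw [← hZe]
  -- the function `a`
  obtain ⟨a, ha⟩ : ∃ a : E m → ℝ, a = fun p => ∑ i, ∫ z, (β z * (ℓ (g i z) + c)) * kf ρ s (q i z - p) := ⟨_, rfl⟩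
  have hxc : ∀ i, Continuous fun z => ℓ (g i z) + c := fun i => (ℓ.continuous.comp (hg i)).add continuous_const
  have hwc : ∀ i, Continuous fun z => β z * (ℓ (g i z) + c) := fun i => hβ.mul (hxc i)
  have hws : ∀ i, HasCompactSupport fun z => β z * (ℓ (g i z) + c) := fun i => hsupp.mul_right
  have hac : ∀ p, ℓ (Ns ρ β q g s p) + c * Zs ρ β q s p = a p := fun p => by
    rw [ha]; exact ell_Ns hβ hβs hqc hg s p ℓ c
  have hda : HasFDerivAt a (∑ i, ∫ z, (β z * (ℓ (g i z) + c)) • (- fderiv ℝ (kf ρ s) (q i z - p))) p := by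
    rw [ha]
    apply HasFDerivAt.fun_sum
    intro i _
    exact param_fderiv (kf_contDiff s) (hqc i) (hwc i) (hws i) p
  have hdZ : HasFDerivAt (Zs ρ β q s) (∑ i, ∫ z, β z • (- fderiv ℝ (kf ρ s) (q i z - p))) p := by
    unfold Zs
    apply HasFDerivAt.fun_sum
    intro i _
    exact param_fderiv (kf_contDiff s) (hqc i) hβ hsupp p
  have haV : (∑ i, ∫ z, (β z * (ℓ (g i z) + c)) • (- fderiv ℝ (kf ρ s) (q i z - p))) V =
      ∑ i, ∫ z, (β z * (ℓ (g i z) + c)) * (om ρ (‖q i z - p‖ ^ 2 / s ^ 2) * (2 / s ^ 2) * inner ℝ (q i z - p) V) := by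
    rw [_root_.sum_apply]
    exact Finset.sum_congr rfl fun i _ => param_eval (hqc i) (hwc i) (hws i) s p V
  have hZV : (∑ i, ∫ z, β z • (- fderiv ℝ (kf ρ s) (q i z - p))) V = 2 / s * A1 := by
    rw [_root_.sum_apply, hA1, Finset.mul_sum]
    refine Finset.sum_congr rfl fun i _ => ?_
    rw [param_eval (hqc i) hβ hsupp s p V, ← integral_const_mul]
    congr 1
    funext z
    simp only [φ1, hnorm, hinner]
    field_simp
  have hA2le : 2 * A2 ≤ ∑ i, ∫ z, (β z * (ℓ (g i z) + c)) *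
      (om ρ (‖q i z - p‖ ^ 2 / s ^ 2) * (2 / s ^ 2) * inner ℝ (q i z - p) V) := by
    rw [hA2, Finset.mul_sum]
    exact Finset.sum_le_sum fun i _ => int_ineq hβ hβ0 hβs h1 (hqc i) (hxc i) hs (hc i)
  -- the derivative of the quotient
  have hGd : DifferentiableAt ℝ (Gs ρ β q g s) p := (Gs_smooth hβ hβs hq hg s hZ.ne').differentiableAt (by simp)
  have hquot : HasFDerivAt (fun p' => ℓ (Gs ρ β q g s p') + c) (ℓ.comp (fderiv ℝ (Gs ρ β q g s) p)) p :=
    (ℓ.hasFDerivAt.comp p hGd.hasFDerivAt).add_const c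
  have hmul : HasFDerivAt (fun p' => Zs ρ β q s p' * (ℓ (Gs ρ β q g s p') + c)) _ p := hdZ.mul hquot
  have heq : (fun p' => Zs ρ β q s p' * (ℓ (Gs ρ β q g s p') + c)) =ᶠ[𝓝 p] a := by
    have hev : ∀ᶠ p' in 𝓝 p, 0 < Zs ρ β q s p' :=
      (Zs_smooth (ρ := ρ) hβ hβs hq s).continuous.continuousAt.eventually (lt_mem_nhds hZ)
    filter_upwards [hev] with p' hp'
    rw [← hac]
    unfold Gs
    rw [map_smul, smul_eq_mul]
    field_simp
  have hu := hmul.unique (hda.congr_of_eventuallyEq heq)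
  have hu2 := congrArg (fun T : E m →L[ℝ] ℝ => T V) hu
  simp only [_root_.add_apply, _root_.smul_apply, smul_eq_mul, ContinuousLinearMap.comp_apply] at hu2
  rw [hZV, haV] at hu2
  have hap : Zs ρ β q s p * (ℓ (Gs ρ β q g s p) + c) = a p := heq.self_of_nhds
  have hval : |ℓ (Gs ρ β q g s p) + c| ≤ (1 + η) * s * ‖V‖ := val_bound hβ hβ0 hβs h1 hqc hg hs hZ ℓ c hc
  have hfin : 2 * A2 - (1 + η) * s * ‖V‖ * (2 / s * |A1|) ≤ Zs ρ β q s p * ℓ (fderiv ℝ (Gs ρ β q g s) p V) := by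
    have h2 : |(ℓ (Gs ρ β q g s p) + c) * (2 / s * A1)| ≤ (1 + η) * s * ‖V‖ * (2 / s * |A1|) := by
      rw [abs_mul, abs_mul, abs_of_pos (show 0 < 2 / s by positivity)]
      exact mul_le_mul_of_nonneg_right hval (by positivity)
    have h3 := (abs_le.1 h2).2
    linarith
  have hfin2 : 2 * (A2 - (1 + η) * ‖V‖ * |A1|) ≤ Zs ρ β q s p * ℓ (fderiv ℝ (Gs ρ β q g s) p V) := by
    refine le_trans (le_of_eq ?_) hfin
    field_simp
  rw [div_mul_eq_mul_div, div_le_iff₀ hZ]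
  linarith

end

end Pool.Agent.H865_small
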