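import Pool.Agent.H865_small.Prof

/-!
# Smoothness and derivatives of the averages
-/

set_option autoImplicit false

open Set Filter Topology Metric Function MeasureTheory
open scoped ContDiff

noncomputable section

namespace Pool.Agent.H865_small

/-- smoothness of parametric integrals (the proof is the one of a lemma of the starting files,
`Pool.Agent.H314.CS.aux833_param`) -/
theorem param_smooth {P G E' F' W : Type*} [NormedAddCommGroup P] [NormedSpace ℝ P]
    [NormedAddCommGroup G] [NormedSpace ℝ G] [FiniteDimensional ℝ G] [MeasurableSpace G]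
    [BorelSpace G] (μ : Measure G) [NormedAddCommGroup E'] [NormedSpace ℝ E']
    [NormedAddCommGroup F'] [NormedSpace ℝ F'] [NormedAddCommGroup W] [NormedSpace ℝ W]
    (L : E' →L[ℝ] F' →L[ℝ] W) {n : ℕ∞} {f : G → E'} (hf : LocallyIntegrable f μ) {R : ℝ}
    (hR : 0 < R) (hfR : ∀ t, R < ‖t‖ → f t = 0) {g : P → G → F'}
    (hg : ContDiff ℝ n (fun q : P × G => g q.1 q.2)) :
    ContDiff ℝ n (fun p => ∫ t, L (f t) (g p t) ∂μ) := by
  have hpos : (0 : ℝ) < R := hR
  let χ : ContDiffBump (0 : G) := ⟨R, R + 1, hpos, by linarith⟩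
  have hχ1 : ∀ t : G, ‖t‖ ≤ R → χ t = 1 := fun t ht =>
    χ.one_of_mem_closedBall (by rw [mem_closedBall, dist_zero_right]; exact ht)
  have hχ0 : ∀ t : G, R + 1 ≤ ‖t‖ → χ t = 0 := fun t ht =>
    χ.zero_of_le_dist (by rw [dist_zero_right]; exact ht)
  have hG : ContDiff ℝ n (fun q : P × G => χ q.2 • g q.1 (-q.2)) := by
    refine ContDiff.smul ?_ ?_
    · exact χ.contDiff.comp contDiff_snd
    · exact hg.comp (contDiff_fst.prodMk contDiff_snd.neg)
  have h := contDiffOn_convolution_right_with_param_comp (𝕜 := ℝ) (n := n) (μ := μ) L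
    (s := (univ : Set P)) (v := fun _ => (0 : G)) contDiffOn_const (f := f)
    (g := fun (p : P) (z : G) => χ z • g p (-z)) (k := closedBall (0 : G) (R + 1)) isOpen_univ
    (isCompact_closedBall _ _) (fun p x _ hx => by
      have : R + 1 ≤ ‖x‖ := by
        rw [mem_closedBall, dist_zero_right, not_le] at hx
        exact hx.le
      simp only [hχ0 x this, zero_smul]) hf hG.contDiffOn
  rw [contDiffOn_univ] at h
  have e : (fun p => ∫ t, L (f t) (g p t) ∂μ) =
      fun p => (convolution f (fun z => χ z • g p (-z)) L μ) 0 := by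
    funext p
    rw [convolution_def]
    congr 1
    funext t
    by_cases ht : R < ‖t‖
    · rw [hfR t ht]; simp
    · have h1 : χ (0 - t) = 1 := hχ1 _ (by rw [zero_sub, norm_neg]; exact not_lt.1 ht)
      rw [h1, one_smul, zero_sub, neg_neg]
  rw [e]
  exact h

variable {n m : ℕ} {ρ : ℝ}

/-- the kernel of radius `s` -/
def kf (ρ s : ℝ) (w : E m) : ℝ := ps ρ (‖w‖ ^ 2 / s ^ 2)

theorem kf_contDiff (s : ℝ) : ContDiff ℝ ∞ (kf (m := m) ρ s) := by
  unfold kf
  exact ps_contDiff.comp ((contDiff_norm_sq ℝ).div_const _)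

theorem kf_hasFDerivAt (s : ℝ) (w : E m) :
    HasFDerivAt (kf ρ s) ((- om ρ (‖w‖ ^ 2 / s ^ 2) * (2 / s ^ 2)) • innerSL ℝ w) w := by
  unfold kf
  have h1 : HasFDerivAt (fun w : E m => ‖w‖ ^ 2 / s ^ 2) ((2 / s ^ 2) • innerSL ℝ w) w := by
    have h2 : HasFDerivAt (fun w : E m => ‖w‖ ^ 2) (2 • innerSL ℝ w) w := (hasStrictFDerivAt_norm_sq w).hasFDerivAt
    have h3 := h2.mul_const ((s ^ 2)⁻¹)
    refine h3.congr_fderiv ?_
    ext V
    simp
    ring
  have h4 := (hasDerivAt_ps (ρ := ρ) (‖w‖ ^ 2 / s ^ 2)).comp_hasFDerivAt w h1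
  refine h4.congr_fderiv ?_
  ext V
  simp
  ring

theorem kf_fderiv (s : ℝ) (w V : E m) :
    fderiv ℝ (kf ρ s) w V = - om ρ (‖w‖ ^ 2 / s ^ 2) * (2 / s ^ 2) * inner ℝ w V := by
  rw [(kf_hasFDerivAt s w).fderiv]
  simp

/-- the derivative of the averages -/
theorem param_fderiv {k : E m → ℝ} (hk : ContDiff ℝ ∞ k) {q : E n → E m} (hq : Continuous q) {a : E n → ℝ}
    (ha : Continuous a) (has : HasCompactSupport a) (p : E m) :
    HasFDerivAt (fun p => ∫ z, a z * k (q z - p)) (∫ z, a z • (- fderiv ℝ k (q z - p))) p := by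
  have hdk : Continuous (fderiv ℝ k) := hk.continuous_fderiv (by simp)
  have hcomp : IsCompact ((fun x : E n × E m => q x.1 - x.2) '' (tsupport a ×ˢ closedBall p 1)) :=
    (IsCompact.prod has (isCompact_closedBall p 1)).image (by fun_prop)
  obtain ⟨C, hC⟩ := hcomp.exists_bound_of_continuousOn hdk.continuousOn
  refine hasFDerivAt_integral_of_dominated_of_fderiv_le (bound := fun z => ‖a z‖ * C)
    (F' := fun p z => a z • (- fderiv ℝ k (q z - p)))
    (closedBall_mem_nhds p one_pos) ?_ ?_ ?_ ?_ ?_ ?_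
  · refine Eventually.of_forall fun x => ?_
    have : Continuous fun z => a z * k (q z - x) := ha.mul (hk.continuous.comp (by fun_prop))
    exact this.aestronglyMeasurable
  · have h1 : Continuous fun z => a z * k (q z - p) := ha.mul (hk.continuous.comp (by fun_prop))
    exact h1.integrable_of_hasCompactSupport has.mul_right
  · have : Continuous fun z => a z • (- fderiv ℝ k (q z - p)) := ha.smul (hdk.comp (by fun_prop)).neg
    exact this.aestronglyMeasurable
  · refine Eventually.of_forall fun z x hx => ?_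
    rw [norm_smul, norm_neg]
    by_cases hz : z ∈ tsupport a
    · exact mul_le_mul_of_nonneg_left (hC _ ⟨(z, x), ⟨hz, hx⟩, rfl⟩) (norm_nonneg _)
    · rw [image_eq_zero_of_notMem_tsupport hz]; simp
  · exact (ha.norm.mul continuous_const).integrable_of_hasCompactSupport (has.norm.mul_right)
  · refine Eventually.of_forall fun z x hx => ?_
    have h1 : HasFDerivAt k (fderiv ℝ k (q z - x)) (q z - x) := (hk.differentiable (by simp) _).hasFDerivAt
    have h2 : HasFDerivAt (fun x => q z - x) (- ContinuousLinearMap.id ℝ (E m)) x := (hasFDerivAt_id x).const_sub _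
    have h3 := (h1.comp x h2).const_mul (a z)
    refine h3.congr_fderiv ?_
    ext V
    simp

theorem param_fderiv_apply {k : E m → ℝ} (hk : ContDiff ℝ ∞ k) {q : E n → E m} (hq : Continuous q) {a : E n → ℝ}
    (ha : Continuous a) (has : HasCompactSupport a) (p V : E m) :
    fderiv ℝ (fun p => ∫ z, a z * k (q z - p)) p V = ∫ z, a z * (- fderiv ℝ k (q z - p) V) := by
  rw [(param_fderiv hk hq ha has p).fderiv]
  have hdk : Continuous (fderiv ℝ k) := hk.continuous_fderiv (by simp)
  have hc : Continuous fun z => a z • (- fderiv ℝ k (q z - p)) := ha.smul (hdk.comp (by fun_prop)).neg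
  rw [ContinuousLinearMap.integral_apply (hc.integrable_of_hasCompactSupport has.smul_right)]
  simp

end Pool.Agent.H865_small
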